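import Mathlib

set_option autoImplicit false
open MeasureTheory Real ComplexConjugate Set

namespace Pool.Agent.H703Z.Gab

abbrev E : Type := EuclideanSpace ℝ (Fin 2)

/-- the unit square with corner `a` -/
def Sq (a : E) : Set E := {x | ∀ i, x i ∈ Ioc (a i) (a i + 1)}

/-- exponential with frequency `s` -/
noncomputable def ex (s x : E) : ℂ := Complex.exp (2 * π * Complex.I * ((@inner ℝ _ _ s x : ℝ) : ℂ))

/-- integer frequency vector -/
noncomputable def iv (n : Fin 2 → ℤ) : E := WithLp.toLp 2 (fun i => (n i : ℝ))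

lemma measurableSet_Sq (a : E) : MeasurableSet (Sq a) := by
  have : Sq a = ⋂ i, (fun x : E => x i) ⁻¹' Ioc (a i) (a i + 1) := by
    ext x; simp [Sq]
  rw [this]
  exact MeasurableSet.iInter fun i => measurableSet_Ioc.preimage (by fun_prop)

lemma inner_iv (n : Fin 2 → ℤ) (x : E) : (@inner ℝ _ _ (iv n) x : ℝ) = n 0 * x 0 + n 1 * x 1 := by
  simp [iv, PiLp.inner_apply, Fin.sum_univ_two, mul_comm]

lemma mF (n : Fin 2 → ℤ) (x : Fin 2 → ℝ) :
    UnitAddTorus.mFourier n (fun i => (x i : UnitAddCircle)) = ex (iv n) (WithLp.toLp 2 x) := by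
  rw [ex, inner_iv]
  simp only [UnitAddTorus.mFourier, ContinuousMap.coe_mk, Fin.prod_univ_two, fourier_coe_apply]
  rw [← Complex.exp_add]
  congr 1
  push_cast
  ring

lemma setInt (a : E) (F : E → ℂ) :
    ∫ x in Sq a, F x = ∫ x in {x : Fin 2 → ℝ | ∀ i, x i ∈ Ioc (a i) (a i + 1)},
      F (WithLp.toLp 2 x) := by
  have h := (PiLp.volume_preserving_toLp (Fin 2)).setIntegral_preimage_emb
    (MeasurableEquiv.toLp 2 (Fin 2 → ℝ)).measurableEmbedding F (Sq a)
  rw [← h]
  rfl

lemma vol_Sq (a : E) : volume (Sq a) = 1 := by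
  rw [← (PiLp.volume_preserving_toLp (Fin 2)).measure_preimage
    (measurableSet_Sq a).nullMeasurableSet]
  have : (WithLp.toLp 2) ⁻¹' (Sq a) = Set.pi univ (fun i => Ioc (a i) (a i + 1)) := by
    ext x; simp [Sq]
  rw [this, Real.volume_pi_Ioc]
  simp

lemma int_ex (a : E) (m n : Fin 2 → ℤ) :
    ∫ x in Sq a, ex (iv m) x * conj (ex (iv n) x) = if m = n then 1 else 0 := by
  rw [setInt]
  have h := UnitAddTorus.integral_preimage
    (fun t : UnitAddTorus (Fin 2) => UnitAddTorus.mFourier m t * conj (UnitAddTorus.mFourier n t))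
    (fun i => a i)
  simp only [mF] at h
  rw [← h]
  have h2 := (orthonormal_iff_ite.mp (UnitAddTorus.orthonormal_mFourier (d := Fin 2))) n m
  rw [ContinuousMap.inner_toLp] at h2
  rw [h2]
  simp [eq_comm]

lemma uniq (a : E) (F : E → ℂ) (hF : MemLp F 2 (volume.restrict (Sq a)))
    (h : ∀ n : Fin 2 → ℤ, ∫ x in Sq a, F x * conj (ex (iv n) x) = 0) :
    ∀ᵐ x ∂volume, x ∈ Sq a → F x = 0 := by
  let b : Fin 2 → ℝ := fun i => a i
  let φ : UnitAddTorus (Fin 2) → E := fun t =>
    WithLp.toLp 2 (UnitAddTorus.measurableEquivPiIoc b t).1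
  have hS : MeasurableSet {x : Fin 2 → ℝ | ∀ i, x i ∈ Ioc (b i) (b i + 1)} :=
    MeasurableSet.univ_pi' (fun i => measurableSet_Ioc)
  have h1 := UnitAddTorus.measurePreserving_equivPiIoc b
  have h2 := measurePreserving_subtype_coe (μa := (volume : Measure (Fin 2 → ℝ))) hS
  have h3 := (PiLp.volume_preserving_toLp (Fin 2)).restrict_preimage (measurableSet_Sq a)
  have hφ : MeasurePreserving φ
      (Measure.pi fun _ : Fin 2 => (AddCircle.haarAddCircle : Measure UnitAddCircle))
      (volume.restrict (Sq a)) := h3.comp (h2.comp h1)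
  have hemb : MeasurableEmbedding φ :=
    (MeasurableEquiv.toLp 2 (Fin 2 → ℝ)).measurableEmbedding.comp
      ((MeasurableEmbedding.subtype_coe hS).comp
        (UnitAddTorus.measurableEquivPiIoc b).measurableEmbedding)
  have hG : MemLp (F ∘ φ) 2
      (Measure.pi fun _ : Fin 2 => (AddCircle.haarAddCircle : Measure UnitAddCircle)) :=
    hF.comp_measurePreserving hφ
  have hc : ∀ t : UnitAddTorus (Fin 2), ∀ n : Fin 2 → ℤ,
      UnitAddTorus.mFourier n t = ex (iv n) (φ t) := by
    intro t n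
    rw [← mF]
    congr 1
    funext i
    simp
  have hG1 : UnitAddTorus.mFourierBasis.repr (hG.toLp (F ∘ φ)) = 0 := by
    ext n
    have h1 := UnitAddTorus.mFourierBasis_repr (hG.toLp (F ∘ φ)) n
    rw [h1]
    unfold UnitAddTorus.mFourierCoeff
    refine Eq.trans ?_ (h n)
    rw [← hφ.integral_comp hemb]
    apply integral_congr_ae
    filter_upwards [hG.coeFn_toLp] with t ht
    rw [smul_eq_mul, ht, UnitAddTorus.mFourier_neg, hc, mul_comm]
    rfl
  have hG0 : hG.toLp (F ∘ φ) = 0 := (LinearIsometryEquiv.map_eq_zero_iff _).1 hG1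
  have h4 := hG.coeFn_toLp
  rw [hG0] at h4
  have h5 : (F ∘ φ) =ᵐ[Measure.pi fun _ : Fin 2 =>
      (AddCircle.haarAddCircle : Measure UnitAddCircle)] 0 := h4.symm.trans (Lp.coeFn_zero _ _ _)
  rw [← ae_restrict_iff' (measurableSet_Sq a), ← hφ.map_eq, hemb.ae_map_iff]
  exact h5

end Pool.Agent.H703Z.Gab
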