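import Pool.Agent.H703Z.GabA

set_option autoImplicit false
open MeasureTheory Real ComplexConjugate Set

namespace Pool.Agent.H703Z.Gab

/-- first column pattern -/
noncomputable def r0 (s : ℝ) : ℝ :=
  if 0 < s ∧ s ≤ 1 / 2 then 3 / 5 else if 1 / 2 < s ∧ s ≤ 1 then -4 / 5 else 0

/-- second column pattern -/
noncomputable def r1 (s : ℝ) : ℝ :=
  if 0 < s ∧ s ≤ 1 / 2 then 4 / 5 else if 1 / 2 < s ∧ s ≤ 1 then 3 / 5 else 0

/-- the window, real valued -/
noncomputable def gr (x : E) : ℝ :=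
  if 0 < x 0 ∧ x 0 ≤ 1 then r0 (x 1) else if 1 < x 0 ∧ x 0 ≤ 2 then r1 (x 1) else 0

/-- the window -/
noncomputable def g (x : E) : ℂ := (gr x : ℂ)

/-- first basis vector -/
noncomputable def e0 : E := WithLp.toLp 2 ![1, 0]

/-- time shifts -/
noncomputable def tv (a b : ℤ) : E := WithLp.toLp 2 ![2 * (a : ℝ), (b : ℝ) / 2]

lemma meas_r0 : Measurable r0 := by
  unfold r0
  refine Measurable.ite ?_ measurable_const (Measurable.ite ?_ measurable_const measurable_const)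
  · exact measurableSet_Ioc
  · exact measurableSet_Ioc

lemma meas_r1 : Measurable r1 := by
  unfold r1
  refine Measurable.ite ?_ measurable_const (Measurable.ite ?_ measurable_const measurable_const)
  · exact measurableSet_Ioc
  · exact measurableSet_Ioc

lemma abs_r0 (s : ℝ) : |r0 s| ≤ 1 := by
  unfold r0; split_ifs <;> norm_num [abs_le]

lemma abs_r1 (s : ℝ) : |r1 s| ≤ 1 := by
  unfold r1; split_ifs <;> norm_num [abs_le]

lemma meas_gr : Measurable gr := by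
  unfold gr
  have h0 : Measurable fun x : E => x 0 := by fun_prop
  have h1 : Measurable fun x : E => x 1 := by fun_prop
  refine Measurable.ite ?_ (meas_r0.comp h1) (Measurable.ite ?_ (meas_r1.comp h1) measurable_const)
  · exact measurableSet_Ioc.preimage h0
  · exact measurableSet_Ioc.preimage h0

lemma meas_g : Measurable g := Complex.measurable_ofReal.comp meas_gr

lemma norm_g (x : E) : ‖g x‖ ≤ 1 := by
  rw [g, Complex.norm_real, Real.norm_eq_abs]
  unfold gr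
  split_ifs
  · exact abs_r0 _
  · exact abs_r1 _
  · simp

lemma norm_ex (s x : E) : ‖ex s x‖ = 1 := by
  rw [ex, Complex.norm_exp]
  simp

lemma cont_ex (s : E) : Continuous (ex s) := by
  unfold ex; fun_prop

lemma ex_shift (n : Fin 2 → ℤ) (x : E) : ex (iv n) (x + e0) = ex (iv n) x := by
  rw [ex, ex, inner_iv, inner_iv]
  have h0 : (x + e0) 0 = x 0 + 1 := by simp [e0]
  have h1 : (x + e0) 1 = x 1 := by simp [e0]
  rw [h0, h1]
  have : (2 * π * Complex.I * (((n 0 : ℝ) * (x 0 + 1) + (n 1 : ℝ) * x 1 : ℝ) : ℂ)) =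
      2 * π * Complex.I * (((n 0 : ℝ) * x 0 + (n 1 : ℝ) * x 1 : ℝ) : ℂ) +
        (n 0 : ℂ) * (2 * π * Complex.I) := by
    push_cast; ring
  rw [this, Complex.exp_add, Complex.exp_int_mul_two_pi_mul_I, mul_one]

lemma r0_zero {s : ℝ} (h : ¬ (0 < s ∧ s ≤ 1)) : r0 s = 0 := by
  unfold r0
  rw [if_neg, if_neg]
  · rintro ⟨h1, h2⟩; exact h ⟨by linarith, h2⟩
  · rintro ⟨h1, h2⟩; exact h ⟨h1, by linarith⟩

lemma r1_zero {s : ℝ} (h : ¬ (0 < s ∧ s ≤ 1)) : r1 s = 0 := by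
  unfold r1
  rw [if_neg, if_neg]
  · rintro ⟨h1, h2⟩; exact h ⟨by linarith, h2⟩
  · rintro ⟨h1, h2⟩; exact h ⟨h1, by linarith⟩

lemma mem_Sq (a x : E) : x ∈ Sq a ↔
    (a 0 < x 0 ∧ x 0 ≤ a 0 + 1) ∧ (a 1 < x 1 ∧ x 1 ≤ a 1 + 1) := by
  simp [Sq, Fin.forall_fin_two]

lemma g_split (t x : E) : g (x - t) =
    (Sq t).indicator (fun y => (r0 (y 1 - t 1) : ℂ)) x +
      (Sq t).indicator (fun y => (r1 (y 1 - t 1) : ℂ)) (x - e0) := by
  have h0 : (x - e0) 0 = x 0 - 1 := by simp [e0]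
  have h1 : (x - e0) 1 = x 1 := by simp [e0]
  have h2 : (x - t) 0 = x 0 - t 0 := by simp
  have h3 : (x - t) 1 = x 1 - t 1 := by simp
  simp only [g, gr, indicator, mem_Sq, h0, h1, h2, h3]
  by_cases hy : 0 < x 1 - t 1 ∧ x 1 - t 1 ≤ 1
  · have hy' : t 1 < x 1 ∧ x 1 ≤ t 1 + 1 := ⟨by linarith [hy.1], by linarith [hy.2]⟩
    by_cases ha : 0 < x 0 - t 0 ∧ x 0 - t 0 ≤ 1
    · rw [if_pos ha, if_pos ⟨⟨by linarith [ha.1], by linarith [ha.2]⟩, hy'⟩, if_neg, add_zero]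
      rintro ⟨⟨h, -⟩, -⟩; linarith [ha.2]
    · rw [if_neg ha, if_neg (c := (t 0 < x 0 ∧ x 0 ≤ t 0 + 1) ∧ _), zero_add]
      · by_cases hb : 1 < x 0 - t 0 ∧ x 0 - t 0 ≤ 2
        · rw [if_pos hb, if_pos ⟨⟨by linarith [hb.1], by linarith [hb.2]⟩, hy'⟩]
        · rw [if_neg hb, if_neg]
          · simp
          · rintro ⟨⟨h4, h5⟩, -⟩; exact hb ⟨by linarith, by linarith⟩
      · rintro ⟨⟨h4, h5⟩, -⟩; exact ha ⟨by linarith, by linarith⟩
  · rw [r0_zero hy, r1_zero hy]; simp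

lemma memLp_bdd {μ : Measure E} (φ H : E → ℂ) (hφ : Measurable φ) (hb : ∀ x, ‖φ x‖ ≤ 1)
    (hH : MemLp H 2 μ) : MemLp (fun x => H x * φ x) 2 μ := by
  refine hH.of_le (hH.1.mul hφ.aestronglyMeasurable) (ae_of_all _ fun x => ?_)
  rw [norm_mul]
  exact mul_le_of_le_one_right (norm_nonneg _) (hb x)

lemma meas_c0 (t : E) : Measurable fun y : E => (r0 (y 1 - t 1) : ℂ) :=
  Complex.measurable_ofReal.comp (meas_r0.comp (by fun_prop))

lemma meas_c1 (t : E) : Measurable fun y : E => (r1 (y 1 - t 1) : ℂ) :=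
  Complex.measurable_ofReal.comp (meas_r1.comp (by fun_prop))

lemma nb0 (t y : E) : ‖(r0 (y 1 - t 1) : ℂ)‖ ≤ 1 := by
  rw [Complex.norm_real]; exact abs_r0 _

lemma nb1 (t y : E) : ‖(r1 (y 1 - t 1) : ℂ)‖ ≤ 1 := by
  rw [Complex.norm_real]; exact abs_r1 _

lemma memLp_shift (H : E → ℂ) (hH : MemLp H 2 volume) (c : E) :
    MemLp (fun x => H (x + c)) 2 volume :=
  hH.comp_measurePreserving (measurePreserving_add_right volume c)

lemma memLp_fold (H : E → ℂ) (hH : MemLp H 2 volume) (t : E) :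
    MemLp (fun x => H x * (r0 (x 1 - t 1) : ℂ) + H (x + e0) * (r1 (x 1 - t 1) : ℂ)) 2 volume :=
  (memLp_bdd _ _ (meas_c0 t) (nb0 t) hH).add
    (memLp_bdd _ _ (meas_c1 t) (nb1 t) (memLp_shift H hH e0))

lemma intOn (H : E → ℂ) (hH : MemLp H 2 volume) (t : E) : IntegrableOn H (Sq t) volume := by
  have : IsFiniteMeasure (volume.restrict (Sq t)) := ⟨by simp [vol_Sq]⟩
  exact (hH.restrict (Sq t)).integrable (by norm_num)

lemma fold (H : E → ℂ) (hH : MemLp H 2 volume) (t : E) (n : Fin 2 → ℤ) :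
    ∫ x, H x * conj (g (x - t) * ex (iv n) x) =
      ∫ x in Sq t, (H x * (r0 (x 1 - t 1) : ℂ) + H (x + e0) * (r1 (x 1 - t 1) : ℂ)) *
        conj (ex (iv n) x) := by
  have hm : Measurable fun x : E => conj (ex (iv n) x) :=
    (Complex.continuous_conj.comp (cont_ex _)).measurable
  have hb : ∀ x : E, ‖conj (ex (iv n) x)‖ ≤ 1 := fun x => by
    rw [Complex.norm_conj, norm_ex]
  let A : E → ℂ := fun x => H x * (r0 (x 1 - t 1) : ℂ) * conj (ex (iv n) x)
  let B : E → ℂ := fun x => H (x + e0) * (r1 (x 1 - t 1) : ℂ) * conj (ex (iv n) x)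
  have hA : IntegrableOn A (Sq t) volume :=
    intOn _ (memLp_bdd _ _ hm hb (memLp_bdd _ _ (meas_c0 t) (nb0 t) hH)) t
  have hB : IntegrableOn B (Sq t) volume :=
    intOn _ (memLp_bdd _ _ hm hb (memLp_bdd _ _ (meas_c1 t) (nb1 t) (memLp_shift H hH e0))) t
  have hA' := (integrable_indicator_iff (measurableSet_Sq t)).2 hA
  have hB' := (integrable_indicator_iff (measurableSet_Sq t)).2 hB
  have key : ∀ x, H x * conj (g (x - t) * ex (iv n) x) =
      (Sq t).indicator A x + (Sq t).indicator B (x - e0) := by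
    intro x
    rw [g_split]
    have h1 : (x - e0) 1 = x 1 := by simp [e0]
    have h2 : ex (iv n) (x - e0) = ex (iv n) x := by
      rw [← ex_shift n (x - e0), sub_add_cancel]
    by_cases ha : x ∈ Sq t <;> by_cases hb : x - e0 ∈ Sq t <;>
      simp [A, B, indicator, ha, hb, h1, h2] <;> ring
  simp_rw [key]
  rw [integral_add hA' (hB'.comp_sub_right e0), integral_sub_right_eq_self _ e0,
    integral_indicator (measurableSet_Sq t), integral_indicator (measurableSet_Sq t),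
    ← integral_add hA hB]
  congr 1
  funext x
  simp only [A, B]
  ring

lemma rr (b : ℤ) (s : ℝ) (h0 : 0 < s) (h1 : s ≤ 1) :
    r0 (s + b / 2) * r0 s + r1 (s + b / 2) * r1 s = if b = 0 then 1 else 0 := by
  by_cases hb : b = 0
  · subst hb
    simp only [Int.cast_zero, zero_div, add_zero, if_true]
    unfold r0 r1
    by_cases h : s ≤ 1 / 2
    · rw [if_pos ⟨h0, h⟩, if_pos ⟨h0, h⟩]; norm_num
    · rw [if_neg (fun h' => h h'.2), if_pos ⟨not_le.1 h, h1⟩, if_neg (fun h' => h h'.2),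
        if_pos ⟨not_le.1 h, h1⟩]; norm_num
  · rw [if_neg hb]
    by_cases hs : 0 < s + b / 2 ∧ s + b / 2 ≤ 1
    · have hb1 : (b : ℝ) < 2 := by linarith [hs.2]
      have hb2 : (-2 : ℝ) < b := by linarith [hs.1]
      have hb3 : b < 2 := by exact_mod_cast hb1
      have hb4 : -2 < b := by exact_mod_cast hb2
      have : b = 1 ∨ b = -1 := by omega
      rcases this with rfl | rfl
      · push_cast at hs ⊢
        have a1 : 0 < s ∧ s ≤ 1 / 2 := ⟨h0, by linarith [hs.2]⟩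
        have a2 : ¬ (0 < s + 1 / 2 ∧ s + 1 / 2 ≤ 1 / 2) := fun h => by linarith [h.2]
        have a3 : 1 / 2 < s + 1 / 2 ∧ s + 1 / 2 ≤ 1 := ⟨by linarith, hs.2⟩
        unfold r0 r1
        rw [if_neg a2, if_pos a3, if_pos a1, if_neg a2, if_pos a3, if_pos a1]; norm_num
      · push_cast at hs ⊢
        have a1 : 0 < s + -1 / 2 ∧ s + -1 / 2 ≤ 1 / 2 := ⟨hs.1, by linarith⟩
        have a2 : ¬ (0 < s ∧ s ≤ 1 / 2) := fun h => by linarith [h.2, hs.1]
        have a3 : 1 / 2 < s ∧ s ≤ 1 := ⟨by linarith [hs.1], h1⟩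
        unfold r0 r1
        rw [if_pos a1, if_neg a2, if_pos a3, if_pos a1, if_neg a2, if_pos a3]; norm_num
    · rw [r0_zero hs, r1_zero hs]; simp

lemma point (a b a' b' : ℤ) (x : E) (hx : x ∈ Sq (tv a b)) :
    gr (x - tv a' b') * r0 (x 1 - tv a b 1) + gr (x + e0 - tv a' b') * r1 (x 1 - tv a b 1) =
      if a = a' ∧ b = b' then 1 else 0 := by
  rw [mem_Sq] at hx
  have t0 : ∀ c d : ℤ, tv c d 0 = 2 * (c : ℝ) := fun c d => by simp [tv]
  have t1 : ∀ c d : ℤ, tv c d 1 = (d : ℝ) / 2 := fun c d => by simp [tv]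
  have h0 : (x - tv a' b') 0 = x 0 - 2 * a' := by simp [t0]
  have h1 : (x - tv a' b') 1 = x 1 - b' / 2 := by simp [t1]
  have h2 : (x + e0 - tv a' b') 0 = x 0 + 1 - 2 * a' := by simp [t0, e0]
  have h3 : (x + e0 - tv a' b') 1 = x 1 - b' / 2 := by simp [t1, e0]
  rw [t0, t1] at hx
  obtain ⟨⟨x1, x2⟩, x3, x4⟩ := hx
  rw [t1]
  unfold gr
  rw [h0, h1, h2, h3]
  by_cases ha : a = a'
  · subst ha
    rw [if_pos ⟨by linarith, by linarith⟩, if_neg (fun h => by linarith [h.2]),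
      if_pos ⟨by linarith, by linarith⟩]
    have h := rr (b - b') (x 1 - b / 2) (by linarith) (by linarith)
    have e : x 1 - (b : ℝ) / 2 + ((b - b' : ℤ) : ℝ) / 2 = x 1 - b' / 2 := by push_cast; ring
    rw [e] at h
    rw [h]
    simp [sub_eq_zero]
  · rw [if_neg (c := a = a' ∧ b = b') (fun h => ha h.1)]
    rcases lt_or_gt_of_ne ha with h | h
    · have : (a : ℝ) + 1 ≤ a' := by exact_mod_cast h
      rw [if_neg (fun h => by linarith [h.1]), if_neg (fun h => by linarith [h.1]),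
        if_neg (fun h => by linarith [h.1]), if_neg (fun h => by linarith [h.1])]
      simp
    · have : (a' : ℝ) + 1 ≤ a := by exact_mod_cast h
      rw [if_neg (fun h => by linarith [h.2]), if_neg (fun h => by linarith [h.2]),
        if_neg (fun h => by linarith [h.2]), if_neg (fun h => by linarith [h.2])]
      simp

lemma g_supp : HasCompactSupport g := by
  refine HasCompactSupport.intro (isCompact_closedBall (0 : E) 3) fun x hx => ?_
  by_contra hne
  apply hx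
  have hne' : gr x ≠ 0 := fun h => hne (by simp [g, h])
  have h1 : 0 < x 1 ∧ x 1 ≤ 1 := by
    by_contra h
    apply hne'
    unfold gr
    rw [r0_zero h, r1_zero h]; simp
  have h0 : 0 < x 0 ∧ x 0 ≤ 2 := by
    by_contra h
    apply hne'
    unfold gr
    rw [if_neg (fun h' => h ⟨h'.1, by linarith [h'.2]⟩),
      if_neg (fun h' => h ⟨by linarith [h'.1], h'.2⟩)]
  rw [mem_closedBall_zero_iff, EuclideanSpace.norm_eq, Fin.sum_univ_two]
  rw [Real.sqrt_le_iff]
  refine ⟨by norm_num, ?_⟩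
  simp only [Real.norm_eq_abs, sq_abs]
  nlinarith [h0.1, h0.2, h1.1, h1.2]

lemma g_memLp : MemLp g 2 volume :=
  g_supp.memLp_of_bound meas_g.aestronglyMeasurable 1 (ae_of_all _ norm_g)

lemma gram (a b a' b' : ℤ) (m n : Fin 2 → ℤ) :
    ∫ x, (g (x - tv a' b') * ex (iv m) x) * conj (g (x - tv a b) * ex (iv n) x) =
      if (a = a' ∧ b = b') ∧ m = n then 1 else 0 := by
  have hg : MemLp (fun x => g (x - tv a' b')) 2 volume := by
    simpa [sub_eq_add_neg] using memLp_shift g g_memLp (-tv a' b')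
  have hH : MemLp (fun x => g (x - tv a' b') * ex (iv m) x) 2 volume :=
    memLp_bdd _ _ (cont_ex _).measurable (fun x => (norm_ex _ x).le) hg
  rw [fold _ hH]
  have : ∀ x ∈ Sq (tv a b),
      (g (x - tv a' b') * ex (iv m) x * (r0 (x 1 - tv a b 1) : ℂ) +
        g (x + e0 - tv a' b') * ex (iv m) (x + e0) * (r1 (x 1 - tv a b 1) : ℂ)) *
        conj (ex (iv n) x) =
      (if a = a' ∧ b = b' then 1 else 0) * (ex (iv m) x * conj (ex (iv n) x)) := by
    intro x hx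
    have h := congrArg (fun r : ℝ => (r : ℂ)) (point a b a' b' x hx)
    simp only [Complex.ofReal_add, Complex.ofReal_mul] at h
    have h2 : (((if a = a' ∧ b = b' then 1 else 0 : ℝ)) : ℂ) =
        if a = a' ∧ b = b' then 1 else 0 := by split_ifs <;> simp
    rw [h2] at h
    rw [ex_shift, ← h, g, g]
    ring
  rw [setIntegral_congr_fun (measurableSet_Sq _) this, integral_const_mul, int_ex]
  by_cases h1 : a = a' ∧ b = b' <;> by_cases h2 : m = n <;> simp [h1, h2]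

lemma complete (f : E → ℂ) (hf : MemLp f 2 volume)
    (h : ∀ a b : ℤ, ∀ n : Fin 2 → ℤ, ∫ x, f x * conj (g (x - tv a b) * ex (iv n) x) = 0) :
    f =ᵐ[volume] 0 := by
  have h1 : ∀ a b : ℤ, ∀ᵐ x ∂volume, x ∈ Sq (tv a b) →
      f x * (r0 (x 1 - tv a b 1) : ℂ) + f (x + e0) * (r1 (x 1 - tv a b 1) : ℂ) = 0 := by
    intro a b
    refine uniq _ _ ((memLp_fold f hf _).restrict _) fun n => ?_
    rw [← fold f hf, h]
  have h2 : ∀ᵐ x ∂(volume : Measure E), ∀ a : ℤ, 2 * (a : ℝ) < x 0 → x 0 ≤ 2 * (a : ℝ) + 1 →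
      f x = 0 ∧ f (x + e0) = 0 := by
    filter_upwards [ae_all_iff.2 fun a => ae_all_iff.2 fun b => h1 a b] with x hx a x1 x2
    have t0 : ∀ c d : ℤ, tv c d 0 = 2 * (c : ℝ) := fun c d => by simp [tv]
    have t1 : ∀ c d : ℤ, tv c d 1 = (d : ℝ) / 2 := fun c d => by simp [tv]
    set b : ℤ := ⌈2 * x 1⌉ - 1 with hb
    have b1 : (b : ℝ) < 2 * x 1 := by
      rw [hb]; push_cast; linarith [Int.ceil_lt_add_one (2 * x 1)]
    have b2 : 2 * x 1 ≤ b + 1 := by
      rw [hb]; push_cast; linarith [Int.le_ceil (2 * x 1)]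
    have u1 := hx a b (by
      rw [mem_Sq, t0, t1]; exact ⟨⟨x1, x2⟩, by linarith, by linarith⟩)
    have u2 := hx a (b - 1) (by
      rw [mem_Sq, t0, t1]; push_cast; exact ⟨⟨x1, x2⟩, by linarith, by linarith⟩)
    rw [t1] at u1 u2
    have a1 : 0 < x 1 - (b : ℝ) / 2 ∧ x 1 - (b : ℝ) / 2 ≤ 1 / 2 := ⟨by linarith, by linarith⟩
    have a2 : ¬ (0 < x 1 - ((b - 1 : ℤ) : ℝ) / 2 ∧ x 1 - ((b - 1 : ℤ) : ℝ) / 2 ≤ 1 / 2) := by
      push_cast; intro h; linarith [h.2]
    have a3 : 1 / 2 < x 1 - ((b - 1 : ℤ) : ℝ) / 2 ∧ x 1 - ((b - 1 : ℤ) : ℝ) / 2 ≤ 1 := by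
      push_cast; exact ⟨by linarith, by linarith⟩
    unfold r0 r1 at u1 u2
    rw [if_pos a1, if_pos a1] at u1
    rw [if_neg a2, if_pos a3, if_neg a2, if_pos a3] at u2
    push_cast at u1 u2
    constructor
    · linear_combination (3 / 5 : ℂ) * u1 - (4 / 5 : ℂ) * u2
    · linear_combination (4 / 5 : ℂ) * u1 + (3 / 5 : ℂ) * u2
  have h3 := (measurePreserving_sub_right (volume : Measure E) e0).quasiMeasurePreserving.ae h2
  filter_upwards [h2, h3] with x hx hy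
  have h0 : (x - e0) 0 = x 0 - 1 := by simp [e0]
  set a : ℤ := ⌈x 0 / 2⌉ - 1 with ha
  have a1 : 2 * (a : ℝ) < x 0 := by
    rw [ha]; push_cast; linarith [Int.ceil_lt_add_one (x 0 / 2)]
  have a2 : x 0 ≤ 2 * a + 2 := by
    rw [ha]; push_cast; linarith [Int.le_ceil (x 0 / 2)]
  by_cases hc : x 0 ≤ 2 * a + 1
  · exact (hx a a1 hc).1
  · have := (hy a (by rw [h0]; linarith) (by rw [h0]; linarith)).2
    rwa [sub_add_cancel] at this

lemma box_pos (p q : Fin 2 → ℝ) (h : ∀ i, p i < q i) (P : E → Prop) (hP : ∀ᵐ x ∂volume, P x) :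
    ∃ x : E, (∀ i, p i < x i ∧ x i < q i) ∧ P x := by
  have hopen : IsOpen {x : E | ∀ i, p i < x i ∧ x i < q i} := by
    have : {x : E | ∀ i, p i < x i ∧ x i < q i} = ⋂ i, (fun x : E => x i) ⁻¹' Ioo (p i) (q i) := by
      ext x; simp
    rw [this]
    exact isOpen_iInter_of_finite fun i => isOpen_Ioo.preimage (by fun_prop)
  have hne : {x : E | ∀ i, p i < x i ∧ x i < q i}.Nonempty :=
    ⟨WithLp.toLp 2 fun i => (p i + q i) / 2, fun i => by
      constructor <;> simp <;> linarith [h i]⟩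
  obtain ⟨x, hx, hx'⟩ := (Measure.dense_of_ae hP).inter_open_nonempty _ hopen hne
  exact ⟨x, hx, hx'⟩

lemma not_flat (Ω : Set E) (c : ℝ)
    (h : ∀ᵐ x ∂(volume : Measure E), ‖g x‖ = c * Ω.indicator (fun _ => (1 : ℝ)) x) : False := by
  obtain ⟨x, hx, hx'⟩ := box_pos ![0, 0] ![1, 1 / 2] (by simp [Fin.forall_fin_two]) _ h
  obtain ⟨y, hy, hy'⟩ := box_pos ![1, 0] ![2, 1 / 2] (by simp [Fin.forall_fin_two]) _ h
  have x0 := hx 0
  have x1 := hx 1
  have y0 := hy 0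
  have y1 := hy 1
  simp only [Matrix.cons_val_zero, Matrix.cons_val_one] at x0 x1 y0 y1
  have gx : gr x = 3 / 5 := by
    unfold gr r0
    rw [if_pos ⟨x0.1, x0.2.le⟩, if_pos ⟨x1.1, x1.2.le⟩]
  have gy : gr y = 4 / 5 := by
    unfold gr r1
    rw [if_neg (fun h => by linarith [h.2, y0.1]), if_pos ⟨y0.1, y0.2.le⟩,
      if_pos ⟨y1.1, y1.2.le⟩]
  rw [g, gx, Complex.norm_real] at hx'
  rw [g, gy, Complex.norm_real] at hy'
  rw [Real.norm_eq_abs, abs_of_pos (by norm_num)] at hx' hy'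
  by_cases h1 : x ∈ Ω <;> by_cases h2 : y ∈ Ω <;>
    simp only [indicator, h1, h2, if_true, if_false] at hx' hy' <;> linarith

end Pool.Agent.H703Z.Gab
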