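import Mathlib

set_option autoImplicit false
open Finset

namespace Pool.Agent.H703Z.Sp

/-- additive character of order `2 k` -/
noncomputable def ch (k : ℕ) (z : ℤ) : ℂ :=
  Complex.exp (2 * (Real.pi : ℂ) * Complex.I * (z : ℂ) / (2 * (k : ℂ)))

/-- the window `[0, 2k)` -/
noncomputable def II (k : ℕ) : Finset ℤ := Finset.Ico 0 (2 * (k : ℤ))

/-- sign of the parity -/
def sg (z : ℤ) : ℂ := if Even z then 1 else -1

/-- the pattern: complement of an anisotropic graph in `F_2^4` -/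
def wt (x0 x1 y0 y1 : ℤ) : ℂ := if Even (x0 + y0 + y1) ∧ Even (x1 + y1) then 0 else 1

variable {k : ℕ}

lemma ch_add (a b : ℤ) : ch k (a + b) = ch k a * ch k b := by
  rw [ch, ch, ch, ← Complex.exp_add]; congr 1; push_cast; ring

lemma ch_zero : ch k 0 = 1 := by simp [ch]

lemma ch_ne (a : ℤ) : ch k a ≠ 0 := Complex.exp_ne_zero _

lemma ch_nat_mul (j : ℕ) (a : ℤ) : ch k (j * a) = ch k a ^ j := by
  rw [ch, ch, ← Complex.exp_nat_mul]; congr 1; push_cast; ring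

lemma ch_eq_one (hk : 0 < k) (a : ℤ) : ch k a = 1 ↔ (2 * (k : ℤ)) ∣ a := by
  have hk' : (k : ℂ) ≠ 0 := by exact_mod_cast hk.ne'
  have hc : (2 * (Real.pi : ℂ) * Complex.I) ≠ 0 := by simp [Real.pi_ne_zero]
  rw [ch, Complex.exp_eq_one_iff]
  constructor
  · rintro ⟨n, hn⟩
    refine ⟨n, ?_⟩
    have : (a : ℂ) = 2 * k * n := by
      field_simp at hn
      linear_combination hn
    exact_mod_cast this
  · rintro ⟨n, rfl⟩
    refine ⟨n, ?_⟩
    push_cast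
    field_simp

lemma ch_k (hk : 0 < k) : ch k k = -1 := by
  have hk' : (k : ℂ) ≠ 0 := by exact_mod_cast hk.ne'
  rw [ch, ← Complex.exp_pi_mul_I]; congr 1; push_cast; field_simp

lemma ch_k_mul (hk : 0 < k) (z : ℤ) : ch k (k * z) = sg z := by
  unfold sg
  split_ifs with h
  · obtain ⟨m, rfl⟩ := h
    rw [ch_eq_one hk]; exact ⟨m, by ring⟩
  · obtain ⟨m, rfl⟩ := Int.not_even_iff_odd.1 h
    have : (k : ℤ) * (2 * m + 1) = 2 * k * m + k := by ring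
    rw [this, ch_add, ch_k hk, (ch_eq_one hk _).2 ⟨m, rfl⟩, one_mul]

lemma sumI_range (G : ℤ → ℂ) : ∑ x ∈ II k, G x = ∑ j ∈ range (2 * k), G j := by
  symm
  refine Finset.sum_bij (fun j _ => (j : ℤ)) ?_ ?_ ?_ ?_
  · intro j hj
    simp only [II, mem_Ico, mem_range] at hj ⊢
    omega
  · intro a _ b _ h
    exact_mod_cast h
  · intro x hx
    simp only [II, mem_Ico] at hx
    exact ⟨x.toNat, by simp only [mem_range]; omega, by omega⟩
  · intro _ _; rfl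

lemma sumI (G : ℤ → ℂ) : ∑ x ∈ II k, G x = ∑ j ∈ range k, (G (2 * j) + G (2 * j + 1)) := by
  rw [sumI_range]
  induction k with
  | zero => simp
  | succ n ih =>
    rw [show 2 * (n + 1) = 2 * n + 1 + 1 by ring, sum_range_succ, sum_range_succ, ih,
      sum_range_succ]
    push_cast; ring

lemma geo (n : ℕ) (a : ℤ) (h1 : ch k (n * a) = 1) (h2 : ch k a ≠ 1) :
    ∑ j ∈ range n, ch k (j * a) = 0 := by
  simp_rw [ch_nat_mul] at h1 ⊢
  rw [geom_sum_eq h2, h1]; simp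

lemma geoI (hk : 0 < k) (a : ℤ) :
    ∑ x ∈ II k, ch k (x * a) = if (2 * (k : ℤ)) ∣ a then 2 * (k : ℂ) else 0 := by
  rw [sumI_range (fun x => ch k (x * a))]
  split_ifs with h
  · rw [sum_congr rfl (fun j _ => (ch_eq_one hk _).2 (h.mul_left _))]; simp
  · refine geo _ _ ((ch_eq_one hk _).2 ⟨a, by push_cast; ring⟩) ?_
    rwa [Ne, ch_eq_one hk]

lemma dft (hk : 0 < k) (G : ℤ → ℂ) (h : ∀ s : ℤ, ∑ y ∈ II k, G y * ch k (s * y) = 0) :
    ∀ y ∈ II k, G y = 0 := by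
  intro y0 hy0
  have h1 : ∑ s ∈ II k, ch k (s * (-y0)) * ∑ y ∈ II k, G y * ch k (s * y) = 0 := by
    simp [h]
  simp_rw [mul_sum] at h1
  rw [sum_comm] at h1
  have h2 : ∀ y ∈ II k, ∑ s ∈ II k, ch k (s * (-y0)) * (G y * ch k (s * y)) =
      if y = y0 then G y * (2 * (k : ℂ)) else 0 := by
    intro y hy
    have : ∀ s : ℤ, ch k (s * (-y0)) * (G y * ch k (s * y)) = G y * ch k (s * (y - y0)) := by
      intro s
      rw [show s * (y - y0) = s * (-y0) + s * y by ring, ch_add]; ring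
    simp_rw [this]
    rw [← mul_sum, geoI hk]
    simp only [II, mem_Ico] at hy hy0
    by_cases hyy : y = y0
    · simp [hyy]
    · rw [if_neg hyy, if_neg, mul_zero]
      intro hd
      exact hyy (sub_eq_zero.1 (Int.eq_zero_of_abs_lt_dvd hd (by rw [abs_lt]; omega)))
  rw [sum_congr rfl h2, sum_ite_eq', if_pos hy0] at h1
  have hk' : (2 * (k : ℂ)) ≠ 0 := by
    have : (k : ℂ) ≠ 0 := by exact_mod_cast hk.ne'
    simp [this]
  exact (mul_eq_zero.1 h1).resolve_right hk'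

lemma dft2 (hk : 0 < k) (G : ℤ → ℤ → ℂ)
    (h : ∀ s0 s1 : ℤ, ∑ y0 ∈ II k, ∑ y1 ∈ II k, G y0 y1 * (ch k (s0 * y0) * ch k (s1 * y1)) = 0) :
    ∀ y0 ∈ II k, ∀ y1 ∈ II k, G y0 y1 = 0 := by
  intro y0 hy0
  refine dft hk _ fun s1 => ?_
  refine dft hk (fun y0 => ∑ y1 ∈ II k, G y0 y1 * ch k (s1 * y1)) (fun s0 => ?_) y0 hy0
  rw [← h s0 s1]
  refine sum_congr rfl fun a _ => ?_
  rw [sum_mul]
  refine sum_congr rfl fun b _ => ?_
  ring

/-- sums of `2`-periodic functions against a character -/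
lemma par (ψ : ℤ → ℂ) (hψ : ∀ x j : ℤ, ψ (2 * j + x) = ψ x) (a : ℤ) :
    ∑ x ∈ II k, ψ x * ch k (a * x) =
      (ψ 0 + ψ 1 * ch k a) * ∑ j ∈ range k, ch k (j * (2 * a)) := by
  rw [sumI (fun x => ψ x * ch k (a * x)), mul_sum]
  refine sum_congr rfl fun j _ => ?_
  have h0 := hψ 0 j
  rw [add_zero] at h0
  rw [h0, hψ 1 j, show a * (2 * (j : ℤ) + 1) = j * (2 * a) + a by ring, ch_add,
    show a * (2 * (j : ℤ)) = j * (2 * a) by ring]
  ring

lemma geoK (hk : 0 < k) (a : ℤ) (h : ¬ (k : ℤ) ∣ a) : ∑ j ∈ range k, ch k (j * (2 * a)) = 0 := by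
  refine geo _ _ ((ch_eq_one hk _).2 ⟨a, by ring⟩) ?_
  rw [Ne, ch_eq_one hk]
  rintro ⟨m, hm⟩
  exact h ⟨m, by linarith⟩

lemma par2 (ψ : ℤ → ℤ → ℂ) (h0 : ∀ x y j : ℤ, ψ (2 * j + x) y = ψ x y)
    (h1 : ∀ x y j : ℤ, ψ x (2 * j + y) = ψ x y) (a b : ℤ) :
    ∑ x ∈ II k, ∑ y ∈ II k, ψ x y * (ch k (a * x) * ch k (b * y)) =
      (ψ 0 0 + ψ 0 1 * ch k b + (ψ 1 0 + ψ 1 1 * ch k b) * ch k a) *
        ((∑ j ∈ range k, ch k (j * (2 * a))) * ∑ j ∈ range k, ch k (j * (2 * b))) := by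
  have e : ∀ x, ∑ y ∈ II k, ψ x y * (ch k (a * x) * ch k (b * y)) =
      ((ψ x 0 + ψ x 1 * ch k b) * ∑ j ∈ range k, ch k (j * (2 * b))) * ch k (a * x) := by
    intro x
    rw [← par (ψ x) (fun y j => h1 x y j) b, sum_mul]
    refine sum_congr rfl fun y _ => ?_
    ring
  simp_rw [e]
  rw [par (fun x => (ψ x 0 + ψ x 1 * ch k b) * ∑ j ∈ range k, ch k (j * (2 * b)))
    (fun x j => by simp only [h0]) a]
  ring

lemma wt_per0 (x0 x1 y0 y1 j : ℤ) : wt (2 * j + x0) x1 y0 y1 = wt x0 x1 y0 y1 := by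
  unfold wt; simp [parity_simps]

lemma wt_per1 (x0 x1 y0 y1 j : ℤ) : wt x0 (2 * j + x1) y0 y1 = wt x0 x1 y0 y1 := by
  unfold wt; simp [parity_simps]

lemma wt_congr {x0 x1 y0 y1 z0 z1 : ℤ} (h0 : Even (y0 - z0)) (h1 : Even (y1 - z1)) :
    wt x0 x1 y0 y1 = wt x0 x1 z0 z1 := by
  obtain ⟨a, ha⟩ := h0
  obtain ⟨b, hb⟩ := h1
  have e0 : y0 = z0 + 2 * a := by linarith
  have e1 : y1 = z1 + 2 * b := by linarith
  subst e0 e1
  unfold wt; simp [parity_simps]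

/-- column orthogonality of the signed pattern -/
lemma col (y0 y1 s0 s1 : ℤ) :
    wt 0 0 y0 y1 * wt 0 0 (y0 + s0) (y1 + s1) + wt 0 1 y0 y1 * wt 0 1 (y0 + s0) (y1 + s1) * sg s1 +
      (wt 1 0 y0 y1 * wt 1 0 (y0 + s0) (y1 + s1) +
        wt 1 1 y0 y1 * wt 1 1 (y0 + s0) (y1 + s1) * sg s1) * sg s0 =
      if Even s0 ∧ Even s1 then 3 else 0 := by
  unfold wt sg
  by_cases a : Even y0 <;> by_cases b : Even y1 <;> by_cases c : Even s0 <;>
    by_cases e : Even s1 <;>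
    simp [parity_simps, a, b, c, e] <;> norm_num

lemma sg_congr {a b : ℤ} (h : Even (a - b)) : sg a = sg b := by
  unfold sg
  rw [Int.even_sub] at h
  simp only [h]

/-- discrete orthogonality -/
lemma disc_orth (hk : Odd k) (a0 a1 t0 t1 n0 n1 s0 s1 : ℤ) (h0 : Even (t0 - n0))
    (h1 : Even (t1 - n1))
    (h : ∑ y0 ∈ II k, ∑ y1 ∈ II k, ∑ x0 ∈ II k, ∑ x1 ∈ II k, wt x0 x1 y0 y1 *
      ((if x0 + 2 * k * a0 ∈ II k ∧ x1 + 2 * k * a1 ∈ II k ∧ y0 + k * t0 ∈ II k ∧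
          y1 + k * t1 ∈ II k then
          wt (x0 + 2 * k * a0) (x1 + 2 * k * a1) (y0 + k * t0) (y1 + k * t1) else 0) *
        (ch k (n0 * x0) * ch k (n1 * x1) * (ch k (s0 * y0) * ch k (s1 * y1)))) ≠ 0) :
    a0 = 0 ∧ a1 = 0 ∧ t0 = 0 ∧ t1 = 0 ∧ (2 * (k : ℤ)) ∣ n0 ∧ (2 * (k : ℤ)) ∣ n1 ∧
      (2 * (k : ℤ)) ∣ s0 ∧ (2 * (k : ℤ)) ∣ s1 := by
  have hk0 : 0 < k := hk.pos
  have hkz : Odd (k : ℤ) := by exact_mod_cast hk
  have hsh : ∀ x a : ℤ, x ∈ II k → x + 2 * k * a ∈ II k → a = 0 := by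
    intro x a hx hy
    simp only [II, mem_Ico] at hx hy
    have hd : (2 * (k : ℤ)) ∣ 2 * k * a := ⟨a, rfl⟩
    have := Int.eq_zero_of_abs_lt_dvd hd (by rw [abs_lt]; constructor <;> linarith [hx.1, hx.2, hy.1, hy.2])
    rcases mul_eq_zero.1 this with h | h
    · omega
    · exact h
  have ha : a0 = 0 ∧ a1 = 0 := by
    by_contra hne
    apply h
    refine sum_eq_zero fun y0 _ => sum_eq_zero fun y1 _ => sum_eq_zero fun x0 hx0 =>
      sum_eq_zero fun x1 hx1 => ?_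
    rw [if_neg, zero_mul, mul_zero]
    rintro ⟨u0, u1, -⟩
    exact hne ⟨hsh _ _ hx0 u0, hsh _ _ hx1 u1⟩
  obtain ⟨rfl, rfl⟩ := ha
  have inner : ∀ y0 y1 : ℤ, ∑ x0 ∈ II k, ∑ x1 ∈ II k, wt x0 x1 y0 y1 *
      ((if x0 + 2 * k * 0 ∈ II k ∧ x1 + 2 * k * 0 ∈ II k ∧ y0 + k * t0 ∈ II k ∧
          y1 + k * t1 ∈ II k then
          wt (x0 + 2 * k * 0) (x1 + 2 * k * 0) (y0 + k * t0) (y1 + k * t1) else 0) *
        (ch k (n0 * x0) * ch k (n1 * x1) * (ch k (s0 * y0) * ch k (s1 * y1)))) =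
      (if y0 + k * t0 ∈ II k ∧ y1 + k * t1 ∈ II k then 1 else 0) *
        (ch k (s0 * y0) * ch k (s1 * y1)) *
        ((wt 0 0 y0 y1 * wt 0 0 (y0 + k * t0) (y1 + k * t1) +
          wt 0 1 y0 y1 * wt 0 1 (y0 + k * t0) (y1 + k * t1) * ch k n1 +
          (wt 1 0 y0 y1 * wt 1 0 (y0 + k * t0) (y1 + k * t1) +
            wt 1 1 y0 y1 * wt 1 1 (y0 + k * t0) (y1 + k * t1) * ch k n1) * ch k n0) *
        ((∑ j ∈ range k, ch k (j * (2 * n0))) * ∑ j ∈ range k, ch k (j * (2 * n1)))) := by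
    intro y0 y1
    rw [← par2 (fun x0 x1 => wt x0 x1 y0 y1 * wt x0 x1 (y0 + k * t0) (y1 + k * t1))
      (fun x y j => by simp only [wt_per0]) (fun x y j => by simp only [wt_per1]) n0 n1, mul_sum]
    refine sum_congr rfl fun x0 hx0 => ?_
    rw [mul_sum]
    refine sum_congr rfl fun x1 hx1 => ?_
    simp only [mul_zero, add_zero, hx0, hx1, true_and]
    split_ifs <;> ring
  simp_rw [inner] at h
  have hn0 : (k : ℤ) ∣ n0 := by
    by_contra hc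
    exact h (by simp [geoK hk0 _ hc])
  have hn1 : (k : ℤ) ∣ n1 := by
    by_contra hc
    exact h (by simp [geoK hk0 _ hc])
  obtain ⟨m0, rfl⟩ := hn0
  obtain ⟨m1, rfl⟩ := hn1
  have hkne : ¬ Even (k : ℤ) := Int.not_even_iff_odd.2 hkz
  have e0 : sg m0 = sg (k * t0) := sg_congr (by
    simp only [parity_simps, hkne, false_or] at h0 ⊢; exact h0.symm)
  have e1 : sg m1 = sg (k * t1) := sg_congr (by
    simp only [parity_simps, hkne, false_or] at h1 ⊢; exact h1.symm)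
  simp_rw [ch_k_mul hk0, e0, e1, col] at h
  have ht : Even (k * t0) ∧ Even (k * t1) := by
    by_contra hc
    exact h (by simp [hc])
  simp only [ht, and_self, if_true] at h
  simp only [parity_simps, hkne, false_or] at h0 h1 ht
  obtain ⟨c0, hc0⟩ := ht.1
  obtain ⟨c1, hc1⟩ := ht.2
  have ht' : t0 = 0 ∧ t1 = 0 := by
    by_contra hne
    apply h
    refine sum_eq_zero fun y0 hy0 => sum_eq_zero fun y1 hy1 => ?_
    rw [if_neg, zero_mul, zero_mul]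
    rintro ⟨u0, u1⟩
    have v0 := hsh y0 c0 hy0 (by rw [hc0] at u0; convert u0 using 2; ring)
    have v1 := hsh y1 c1 hy1 (by rw [hc1] at u1; convert u1 using 2; ring)
    exact hne ⟨by rw [hc0, v0]; rfl, by rw [hc1, v1]; rfl⟩
  obtain ⟨rfl, rfl⟩ := ht'
  obtain ⟨p0, hp0⟩ := h0.1 ht.1
  obtain ⟨p1, hp1⟩ := h1.1 ht.2
  have e2 : ∀ C : ℂ, ∑ y0 ∈ II k, ∑ y1 ∈ II k,
      (if y0 + k * 0 ∈ II k ∧ y1 + k * 0 ∈ II k then 1 else 0) *
        (ch k (s0 * y0) * ch k (s1 * y1)) * C =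
      (∑ y0 ∈ II k, ch k (y0 * s0)) * (∑ y1 ∈ II k, ch k (y1 * s1)) * C := by
    intro C
    rw [sum_mul_sum, sum_mul]
    refine sum_congr rfl fun y0 hy0 => ?_
    rw [sum_mul]
    refine sum_congr rfl fun y1 hy1 => ?_
    simp only [mul_zero, add_zero, hy0, hy1, and_self, if_true, one_mul, mul_comm s0, mul_comm s1]
  rw [e2, geoI hk0, geoI hk0] at h
  refine ⟨rfl, rfl, rfl, rfl, ⟨p0, by rw [hp0]; ring⟩, ⟨p1, by rw [hp1]; ring⟩, ?_, ?_⟩
  · by_contra hc; exact h (by simp [hc])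
  · by_contra hc; exact h (by simp [hc])

lemma exists_win (hk : 0 < k) (Y n : ℤ) : ∃ t : ℤ, Even (t - n) ∧ Y - k * t ∈ II k := by
  have hk' : (0 : ℤ) < k := by exact_mod_cast hk
  have h1 := Int.emod_nonneg Y hk'.ne'
  have h2 := Int.emod_lt_of_pos Y hk'
  have h3 := Int.emod_add_mul_ediv Y k
  by_cases h : Even (Y / k - n)
  · refine ⟨Y / k, h, ?_⟩
    simp only [II, mem_Ico]
    constructor <;> linarith
  · refine ⟨Y / k - 1, ?_, ?_⟩
    · simp only [parity_simps] at h ⊢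
      tauto
    · simp only [II, mem_Ico]
      constructor <;> nlinarith

/-- row orthogonality of the signed pattern -/
lemma row (x0 x1 i0 i1 y0 y1 : ℤ) :
    wt x0 x1 y0 y1 * wt i0 i1 y0 y1 +
      wt x0 x1 (y0 + 1) y1 * wt i0 i1 (y0 + 1) y1 * (sg x0 * sg i0) +
      wt x0 x1 y0 (y1 + 1) * wt i0 i1 y0 (y1 + 1) * (sg x1 * sg i1) +
      wt x0 x1 (y0 + 1) (y1 + 1) * wt i0 i1 (y0 + 1) (y1 + 1) * (sg x0 * sg i0 * (sg x1 * sg i1)) =
      if Even (x0 - i0) ∧ Even (x1 - i1) then 3 else 0 := by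
  unfold wt sg
  by_cases a : Even y0 <;> by_cases b : Even y1 <;> by_cases c : Even x0 <;>
    by_cases e : Even x1 <;> by_cases f : Even i0 <;> by_cases g : Even i1 <;>
    simp only [Int.even_add, Int.even_sub, Int.not_even_one, a, b, c, e, f, g] <;> norm_num

/-- discrete completeness -/
lemma disc_comp (hk : Odd k) (F : ℤ → ℤ → ℤ → ℤ → ℂ)
    (h : ∀ a0 a1 t0 t1 n0 n1 s0 s1 : ℤ, Even (t0 - n0) → Even (t1 - n1) →
      ∑ y0 ∈ II k, ∑ y1 ∈ II k, ∑ x0 ∈ II k, ∑ x1 ∈ II k, wt x0 x1 y0 y1 *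
        (F (x0 + 2 * k * a0) (x1 + 2 * k * a1) (y0 + k * t0) (y1 + k * t1) *
          (ch k (n0 * x0) * ch k (n1 * x1) * (ch k (s0 * y0) * ch k (s1 * y1)))) = 0) :
    ∀ X0 X1 Y0 Y1, F X0 X1 Y0 Y1 = 0 := by
  have hk0 : 0 < k := hk.pos
  have hkz : Odd (k : ℤ) := by exact_mod_cast hk
  have hkne : ¬ Even (k : ℤ) := Int.not_even_iff_odd.2 hkz
  have step1 : ∀ a0 a1 Y0 Y1 n0 n1 : ℤ, ∑ x0 ∈ II k, ∑ x1 ∈ II k,
      wt x0 x1 (Y0 + n0) (Y1 + n1) * F (x0 + 2 * k * a0) (x1 + 2 * k * a1) Y0 Y1 *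
        (ch k (n0 * x0) * ch k (n1 * x1)) = 0 := by
    intro a0 a1 Y0 Y1 n0 n1
    obtain ⟨t0, e0, m0⟩ := exists_win hk0 Y0 n0
    obtain ⟨t1, e1, m1⟩ := exists_win hk0 Y1 n1
    have h2 := dft2 hk0 (fun y0 y1 => ∑ x0 ∈ II k, ∑ x1 ∈ II k, wt x0 x1 y0 y1 *
        F (x0 + 2 * k * a0) (x1 + 2 * k * a1) (y0 + k * t0) (y1 + k * t1) *
          (ch k (n0 * x0) * ch k (n1 * x1))) (fun s0 s1 => by
      rw [← h a0 a1 t0 t1 n0 n1 s0 s1 e0 e1]
      refine sum_congr rfl fun y0 _ => sum_congr rfl fun y1 _ => ?_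
      rw [sum_mul]
      refine sum_congr rfl fun x0 _ => ?_
      rw [sum_mul]
      refine sum_congr rfl fun x1 _ => ?_
      ring) _ m0 _ m1
    simp only [sub_add_cancel] at h2
    rw [← h2]
    refine sum_congr rfl fun x0 _ => sum_congr rfl fun x1 _ => ?_
    rw [wt_congr (z0 := Y0 - k * t0) (z1 := Y1 - k * t1)]
    · simp only [parity_simps, hkne, false_or] at e0 ⊢; tauto
    · simp only [parity_simps, hkne, false_or] at e1 ⊢; tauto
  have step2 : ∀ a0 a1 Y0 Y1 : ℤ, ∀ x0 ∈ II k, ∀ x1 ∈ II k,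
      F (x0 + 2 * k * a0) (x1 + 2 * k * a1) Y0 Y1 = 0 := by
    intro a0 a1 Y0 Y1 i0 hi0 i1 hi1
    have h3 := dft2 hk0 (fun x0 x1 => (if Even (x0 - i0) ∧ Even (x1 - i1) then 3 else 0) *
        F (x0 + 2 * k * a0) (x1 + 2 * k * a1) Y0 Y1) (fun n0 n1 => by
      have u00 := step1 a0 a1 Y0 Y1 n0 n1
      have u10 := step1 a0 a1 Y0 Y1 (n0 + k) n1
      have u01 := step1 a0 a1 Y0 Y1 n0 (n1 + k)
      have u11 := step1 a0 a1 Y0 Y1 (n0 + k) (n1 + k)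
      have c0 : Even (Y0 + (n0 + k) - (Y0 + n0 + 1)) := by
        simp only [parity_simps, hkne]; tauto
      have c1 : Even (Y1 + (n1 + k) - (Y1 + n1 + 1)) := by
        simp only [parity_simps, hkne]; tauto
      have z0 : Even (Y0 + n0 - (Y0 + n0)) := by simp
      have z1 : Even (Y1 + n1 - (Y1 + n1)) := by simp
      simp only [wt_congr c0 z1, wt_congr z0 c1, wt_congr c0 c1, add_mul, ch_add,
        ch_k_mul hk0] at u10 u01 u11
      have tot : wt i0 i1 (Y0 + n0) (Y1 + n1) * 0 +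
          wt i0 i1 (Y0 + n0 + 1) (Y1 + n1) * sg i0 * 0 +
          wt i0 i1 (Y0 + n0) (Y1 + n1 + 1) * sg i1 * 0 +
          wt i0 i1 (Y0 + n0 + 1) (Y1 + n1 + 1) * (sg i0 * sg i1) * 0 = 0 := by ring
      nth_rewrite 1 [← u00] at tot
      nth_rewrite 1 [← u10] at tot
      nth_rewrite 1 [← u01] at tot
      nth_rewrite 1 [← u11] at tot
      refine Eq.trans ?_ tot
      simp only [mul_sum, ← sum_add_distrib]
      refine sum_congr rfl fun x0 _ => sum_congr rfl fun x1 _ => ?_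
      rw [← row x0 x1 i0 i1 (Y0 + n0) (Y1 + n1)]
      ring) i0 hi0 i1 hi1
    simpa using h3
  intro X0 X1 Y0 Y1
  have hk2 : (0 : ℤ) < 2 * k := by positivity
  have m : ∀ X : ℤ, X % (2 * k) ∈ II k := fun X => by
    simp only [II, mem_Ico]
    exact ⟨Int.emod_nonneg X hk2.ne', Int.emod_lt_of_pos X hk2⟩
  have := step2 (X0 / (2 * k)) (X1 / (2 * k)) Y0 Y1 _ (m X0) _ (m X1)
  rwa [Int.emod_add_mul_ediv, Int.emod_add_mul_ediv] at this

end Pool.Agent.H703Z.Sp
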