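import Pool.Agent.H703Z.SpGrid
import Pool.Agent.H703Z.SpDisc

set_option autoImplicit false
open MeasureTheory Real ComplexConjugate Set
open scoped ENNReal

namespace Pool.Agent.H703Z.Sp

/-- the cells of the window set -/
noncomputable def AA (k : ℕ) : Finset (Fin 4 → ℤ) :=
  (Fintype.piFinset fun _ => II k).filter
    (fun n => ¬ (Even (n 0 + n 2 + n 3) ∧ Even (n 1 + n 3)))

/-- frequencies -/
noncomputable def fr (k : ℕ) (n : Fin 4 → ℤ) : EuclideanSpace ℝ (Fin 4) :=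
  WithLp.toLp 2 (fun i => (n i : ℝ) / (2 * k))

/-- the time-frequency lattice -/
def SS (k : ℕ) : Set (EuclideanSpace ℝ (Fin 4) × EuclideanSpace ℝ (Fin 4)) :=
  {p | ∃ a0 a1 t0 t1 n0 n1 s0 s1 : ℤ, Even (t0 - n0) ∧ Even (t1 - n1) ∧
    p = (iv ![2 * k * a0, 2 * k * a1, k * t0, k * t1], fr k ![n0, n1, s0, s1])}

variable {k : ℕ}

lemma sum4 (I : Finset ℤ) (G : (Fin 4 → ℤ) → ℂ) :
    ∑ n ∈ Fintype.piFinset (fun _ : Fin 4 => I), G n =
      ∑ y0 ∈ I, ∑ y1 ∈ I, ∑ x0 ∈ I, ∑ x1 ∈ I, G ![x0, x1, y0, y1] := by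
  have : ∑ y0 ∈ I, ∑ y1 ∈ I, ∑ x0 ∈ I, ∑ x1 ∈ I, G ![x0, x1, y0, y1] =
      ∑ p ∈ I ×ˢ I ×ˢ I ×ˢ I, G ![p.2.2.1, p.2.2.2, p.1, p.2.1] := by
    simp only [Finset.sum_product]
  rw [this]
  refine Finset.sum_nbij' (fun n => (n 2, n 3, n 0, n 1))
    (fun p => ![p.2.2.1, p.2.2.2, p.1, p.2.1]) ?_ ?_ ?_ ?_ ?_
  · intro n hn
    simp only [Fintype.mem_piFinset] at hn
    simp [hn]
  · intro p hp
    simp only [Finset.mem_product] at hp
    simp only [Fintype.mem_piFinset]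
    intro i
    fin_cases i <;> simp [hp]
  · intro n _
    funext i
    fin_cases i <;> rfl
  · intro p _
    rfl
  · intro n _
    congr 1
    funext i
    fin_cases i <;> rfl

lemma sumA (G : (Fin 4 → ℤ) → ℂ) : ∑ n ∈ AA k, G n =
    ∑ y0 ∈ II k, ∑ y1 ∈ II k, ∑ x0 ∈ II k, ∑ x1 ∈ II k, wt x0 x1 y0 y1 * G ![x0, x1, y0, y1] := by
  rw [AA, Finset.sum_filter, sum4]
  refine Finset.sum_congr rfl fun y0 _ => Finset.sum_congr rfl fun y1 _ =>
    Finset.sum_congr rfl fun x0 _ => Finset.sum_congr rfl fun x1 _ => ?_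
  unfold wt
  simp only [Matrix.cons_val_zero, Matrix.cons_val_one, Matrix.cons_val]
  by_cases h : Even (x0 + y0 + y1) ∧ Even (x1 + y1)
  · rw [if_pos h, if_neg (not_not.2 h), zero_mul]
  · rw [if_neg h, if_pos h, one_mul]

lemma memA (n : Fin 4 → ℤ) : (if n ∈ AA k then 1 else 0 : ℂ) =
    if n 0 ∈ II k ∧ n 1 ∈ II k ∧ n 2 ∈ II k ∧ n 3 ∈ II k then wt (n 0) (n 1) (n 2) (n 3) else 0 := by
  have e : (∀ i, n i ∈ II k) ↔ n 0 ∈ II k ∧ n 1 ∈ II k ∧ n 2 ∈ II k ∧ n 3 ∈ II k := by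
    simp [Fin.forall_fin_succ]
  simp only [AA, Finset.mem_filter, Fintype.mem_piFinset, e, wt]
  split_ifs <;> tauto

lemma en_fr (hk : 0 < k) (v n : Fin 4 → ℤ) : en (fr k v) (iv n) =
    ch k (-v 0 * n 0) * ch k (-v 1 * n 1) * (ch k (-v 2 * n 2) * ch k (-v 3 * n 3)) := by
  have hk' : (k : ℂ) ≠ 0 := by exact_mod_cast hk.ne'
  rw [← ch_add, ← ch_add, ← ch_add, en, ch, inner_eq, Fin.sum_univ_four]
  congr 1
  simp only [iv_apply, fr]
  push_cast
  field_simp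
  ring

lemma conj_ch (a : ℤ) : conj (ch k a) = ch k (-a) := by
  rw [ch, ch, ← Complex.exp_conj]
  congr 1
  simp only [map_div₀, map_mul, Complex.conj_ofReal, Complex.conj_I, map_ofNat, map_intCast,
    map_natCast]
  push_cast; ring

lemma fr_sub (v v' : Fin 4 → ℤ) : fr k v - fr k v' = fr k (v - v') := by
  ext i; simp [fr]; ring

lemma gab_orth (hk : Odd k) : ∀ p ∈ SS k, ∀ q ∈ SS k, p ≠ q →
    ∫ x, ((Om (AA k)).indicator (fun _ => (1 : ℂ)) (x - p.1) * en p.2 x) *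
      conj ((Om (AA k)).indicator (fun _ => (1 : ℂ)) (x - q.1) * en q.2 x) = 0 := by
  have hk0 : 0 < k := hk.pos
  rintro _ ⟨a0, a1, t0, t1, n0, n1, s0, s1, e0, e1, rfl⟩
    _ ⟨a0', a1', t0', t1', n0', n1', s0', s1', e0', e1', rfl⟩ hne
  rw [amb, fr_sub]
  by_contra hc
  have h1 := right_ne_zero_of_mul (left_ne_zero_of_mul hc)
  have h2 := right_ne_zero_of_mul hc
  rw [sumA] at h1
  obtain ⟨u1, u2, u3, u4, ⟨m0, u5⟩, ⟨m1, u6⟩, ⟨m2, u7⟩, ⟨m3, u8⟩⟩ :=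
    disc_orth hk (a0 - a0') (a1 - a1') (t0 - t0') (t1 - t1') (-(n0 - n0')) (-(n1 - n1'))
    (-(s0 - s0')) (-(s1 - s1'))
    (by simp only [even_neg, Int.even_sub] at e0 e0' ⊢; tauto)
    (by simp only [even_neg, Int.even_sub] at e1 e1' ⊢; tauto)
    (by
      intro hz
      apply h1
      refine Eq.trans ?_ hz
      refine Finset.sum_congr rfl fun y0 _ => Finset.sum_congr rfl fun y1 _ =>
        Finset.sum_congr rfl fun x0 _ => Finset.sum_congr rfl fun x1 _ => ?_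
      rw [memA, en_fr hk0]
      simp only [Pi.add_apply, Pi.sub_apply, Matrix.cons_val_zero, Matrix.cons_val_one,
        Matrix.cons_val, mul_sub])
  have hkr : (2 * (k : ℝ)) ≠ 0 := by positivity
  have key : ∀ (i : Fin 4) (m : ℤ), -((![n0, n1, s0, s1] - ![n0', n1', s0', s1'] : Fin 4 → ℤ) i) =
      2 * k * m → (![n0, n1, s0, s1] - ![n0', n1', s0', s1'] : Fin 4 → ℤ) i = 0 := by
    intro i m hm
    by_contra hz
    apply h2
    refine Finset.prod_eq_zero (Finset.mem_univ i) ?_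
    have hm' : (![n0, n1, s0, s1] - ![n0', n1', s0', s1'] : Fin 4 → ℤ) i = 2 * k * (-m) := by
      linarith
    have : fr k (![n0, n1, s0, s1] - ![n0', n1', s0', s1']) i = ((-m : ℤ) : ℝ) := by
      simp only [fr]
      rw [hm']; push_cast; field_simp
    rw [this]
    refine ph_int _ fun h0 => hz ?_
    rw [hm', h0, mul_zero]
  have v0 := key 0 m0 u5
  have v1 := key 1 m1 u6
  have v2 := key 2 m2 u7
  have v3 := key 3 m3 u8
  simp only [Pi.sub_apply, Matrix.cons_val_zero, Matrix.cons_val_one, Matrix.cons_val,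
    sub_eq_zero] at v0 v1 v2 v3 u1 u2 u3 u4
  apply hne
  rw [u1, u2, u3, u4, v0, v1, v2, v3]

lemma gab_comp (hk : Odd k) (f : EuclideanSpace ℝ (Fin 4) → ℂ) (hf : MemLp f 2 volume)
    (h : ∀ p ∈ SS k, ∫ x, f x *
      conj ((Om (AA k)).indicator (fun _ => (1 : ℂ)) (x - p.1) * en p.2 x) = 0) :
    f =ᵐ[volume] 0 := by
  have hk0 : 0 < k := hk.pos
  refine complete_of (AA k) (J := Fin 8 → ℤ)
    (fun j => ![2 * k * j 0, 2 * k * j 1, k * j 2, k * j 3])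
    (fun j => fr k ![j 2 + 2 * j 4, j 3 + 2 * j 5, j 6, j 7]) ?_ f hf ?_
  · intro F hF n
    have := disc_comp hk (fun a b c e => F ![a, b, c, e]) (by
      intro a0 a1 t0 t1 n0 n1 s0 s1 ⟨c0, hc0⟩ ⟨c1, hc1⟩
      have h1 := hF ![a0, a1, t0, t1, -c0, -c1, s0, s1]
      simp only [Matrix.cons_val_zero, Matrix.cons_val_one, Matrix.cons_val] at h1
      have e0 : t0 + 2 * -c0 = n0 := by linarith
      have e1 : t1 + 2 * -c1 = n1 := by linarith
      rw [e0, e1] at h1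
      set T : Fin 4 → ℤ := ![2 * k * a0, 2 * k * a1, k * t0, k * t1] with hT
      have h5 : conj (en (fr k ![n0, n1, s0, s1]) (iv T)) ≠ 0 := by
        rw [← norm_ne_zero_iff, Complex.norm_conj, norm_en]; exact one_ne_zero
      apply mul_left_cancel₀ h5
      rw [mul_zero, ← h1, sumA]
      simp only [Finset.mul_sum]
      refine Finset.sum_congr rfl fun y0 _ => Finset.sum_congr rfl fun y1 _ =>
        Finset.sum_congr rfl fun x0 _ => Finset.sum_congr rfl fun x1 _ => ?_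
      have e2 : (![x0, x1, y0, y1] + T : Fin 4 → ℤ) =
          ![x0 + 2 * k * a0, x1 + 2 * k * a1, y0 + k * t0, y1 + k * t1] := by
        funext i; fin_cases i <;> simp [hT]
      rw [iv_add, en_add_right, map_mul, en_fr hk0 _ ![x0, x1, y0, y1], e2]
      simp only [map_mul, conj_ch, Matrix.cons_val_zero, Matrix.cons_val_one, Matrix.cons_val,
        neg_mul, neg_neg]
      ring) (n 0) (n 1) (n 2) (n 3)
    have e : n = ![n 0, n 1, n 2, n 3] := by funext i; fin_cases i <;> rfl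
    rw [e]; exact this
  · intro j m
    refine h (_, _) ⟨j 0, j 1, j 2, j 3, j 2 + 2 * j 4 + 2 * k * m 0, j 3 + 2 * j 5 + 2 * k * m 1,
      j 6 + 2 * k * m 2, j 7 + 2 * k * m 3, ⟨-(j 4 + k * m 0), by ring⟩,
      ⟨-(j 5 + k * m 1), by ring⟩, ?_⟩
    congr 1
    have hkr : (2 * (k : ℝ)) ≠ 0 := by positivity
    ext i
    fin_cases i <;> simp [fr] <;> field_simp

lemma parX (χ ψ : ℤ → ℂ) (hχ : ∀ a b, χ (a + b) = χ a * χ b) (h0 : χ 0 = 1)
    (hψ : ∀ x j : ℤ, ψ (2 * j + x) = ψ x) :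
    ∑ x ∈ II k, ψ x * χ x = (ψ 0 + ψ 1 * χ 1) * ∑ j ∈ Finset.range k, χ (2 * j) := by
  rw [sumI (fun x => ψ x * χ x), Finset.mul_sum]
  refine Finset.sum_congr rfl fun j _ => ?_
  have h1 := hψ 0 j
  rw [add_zero] at h1
  rw [h1, hψ 1 j, hχ]
  have := h0
  ring

lemma wt_per2 (x0 x1 y0 y1 j : ℤ) : wt x0 x1 (2 * j + y0) y1 = wt x0 x1 y0 y1 :=
  wt_congr ⟨j, by ring⟩ ⟨0, by ring⟩

lemma wt_per3 (x0 x1 y0 y1 j : ℤ) : wt x0 x1 y0 (2 * j + y1) = wt x0 x1 y0 y1 :=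
  wt_congr ⟨0, by ring⟩ ⟨j, by ring⟩

/-- the symbol of the pattern -/
def PP (a b c e : ℂ) : ℂ := (1 + a) * (1 + b) * (1 + c) * (1 + e) - (1 + a * c + a * b * e + b * c * e)

lemma sumA_char (χ : Fin 4 → ℤ → ℂ) (hχ : ∀ i a b, χ i (a + b) = χ i a * χ i b)
    (h0 : ∀ i, χ i 0 = 1) :
    ∑ n ∈ AA k, χ 0 (n 0) * χ 1 (n 1) * χ 2 (n 2) * χ 3 (n 3) =
      PP (χ 0 1) (χ 1 1) (χ 2 1) (χ 3 1) * ∏ i, ∑ j ∈ Finset.range k, χ i (2 * j) := by
  rw [sumA]
  simp only [Matrix.cons_val_zero, Matrix.cons_val_one, Matrix.cons_val]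
  set G : Fin 4 → ℂ := fun i => ∑ j ∈ Finset.range k, χ i (2 * j) with hG
  have e1 : ∀ x0 y0 y1, ∑ x1 ∈ II k, wt x0 x1 y0 y1 * (χ 0 x0 * χ 1 x1 * χ 2 y0 * χ 3 y1) =
      ((wt x0 0 y0 y1 + wt x0 1 y0 y1 * χ 1 1) * G 1 * χ 2 y0 * χ 3 y1) * χ 0 x0 := by
    intro x0 y0 y1
    simp only [hG]
    rw [← parX (χ 1) (fun x1 => wt x0 x1 y0 y1) (hχ 1) (h0 1) (fun x j => wt_per1 ..)]
    simp only [Finset.sum_mul]
    refine Finset.sum_congr rfl fun x1 _ => by ring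
  simp_rw [e1]
  have e2 : ∀ y0 y1, ∑ x0 ∈ II k,
      ((wt x0 0 y0 y1 + wt x0 1 y0 y1 * χ 1 1) * G 1 * χ 2 y0 * χ 3 y1) * χ 0 x0 =
      (((wt 0 0 y0 y1 + wt 0 1 y0 y1 * χ 1 1) + (wt 1 0 y0 y1 + wt 1 1 y0 y1 * χ 1 1) * χ 0 1) *
        G 0 * G 1 * χ 2 y0) * χ 3 y1 := by
    intro y0 y1
    rw [parX (χ 0) _ (hχ 0) (h0 0) (fun x j => by simp only [wt_per0])]
    simp only [hG]; ring
  simp_rw [e2]
  have e3 : ∀ y0, ∑ y1 ∈ II k,
      (((wt 0 0 y0 y1 + wt 0 1 y0 y1 * χ 1 1) + (wt 1 0 y0 y1 + wt 1 1 y0 y1 * χ 1 1) * χ 0 1) *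
        G 0 * G 1 * χ 2 y0) * χ 3 y1 =
      ((((wt 0 0 y0 0 + wt 0 1 y0 0 * χ 1 1) + (wt 1 0 y0 0 + wt 1 1 y0 0 * χ 1 1) * χ 0 1) +
        ((wt 0 0 y0 1 + wt 0 1 y0 1 * χ 1 1) + (wt 1 0 y0 1 + wt 1 1 y0 1 * χ 1 1) * χ 0 1) *
          χ 3 1) * G 0 * G 1 * G 3) * χ 2 y0 := by
    intro y0
    rw [parX (χ 3) _ (hχ 3) (h0 3) (fun x j => by simp only [wt_per3])]
    simp only [hG]; ring
  simp_rw [e3]
  rw [parX (χ 2) _ (hχ 2) (h0 2) (fun x j => by simp only [wt_per2]), Fin.prod_univ_four]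
  simp only [wt, PP, hG, Int.even_add, Int.not_even_one, Even.zero]
  norm_num
  ring

lemma cardA : ((AA k).card : ℂ) = 12 * (k : ℂ) ^ 4 := by
  have := sumA_char (k := k) (fun _ _ => 1) (by simp) (by simp)
  simp only [mul_one, Finset.sum_const, nsmul_eq_mul, Finset.card_range, Finset.prod_const,
    Finset.card_univ, Fintype.card_fin, PP] at this
  rw [this]; norm_num

/-- scalar exponential -/
noncomputable def ee (s : ℝ) : ℂ := Complex.exp (-2 * (Real.pi : ℂ) * Complex.I * s)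

lemma ee_add (s t : ℝ) : ee (s + t) = ee s * ee t := by
  rw [ee, ee, ee, ← Complex.exp_add]; congr 1; push_cast; ring

lemma norm_ee (s : ℝ) : ‖ee s‖ = 1 := by
  rw [ee, Complex.norm_exp]; simp

lemma ee_half (m : ℤ) : ee (m / 2) = sg m := by
  have h := ch_k_mul (k := 1) one_pos (-m)
  rw [sg_congr (a := m) (b := -m) ⟨m, by ring⟩, ← h, ee, ch]
  congr 1
  push_cast; ring

lemma ee_near (s : ℝ) (hs : |s| < 1 / 100) : ‖ee s - 1‖ ≤ 1 / 10 := by
  have h := Real.norm_exp_I_mul_ofReal_sub_one_le (x := -2 * π * s)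
  have e : ee s = Complex.exp (Complex.I * ((-2 * π * s : ℝ) : ℂ)) := by
    rw [ee]; congr 1; push_cast; ring
  rw [e]
  refine h.trans ?_
  rw [Real.norm_eq_abs, abs_mul, abs_mul, abs_of_pos Real.pi_pos]
  norm_num
  nlinarith [Real.pi_lt_four, Real.pi_pos, abs_nonneg s]

lemma near_mul {a b : ℂ} {r t : ℝ} (ha : ‖a‖ = 1) (h1 : ‖a - 1‖ ≤ r) (h2 : ‖b - 1‖ ≤ t) :
    ‖a * b - 1‖ ≤ r + t := by
  have : a * b - 1 = a * (b - 1) + (a - 1) := by ring
  rw [this]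
  refine (norm_add_le _ _).trans ?_
  rw [norm_mul, ha]; linarith

lemma PP_ne (a b c e : ℂ) (ha : ‖a‖ = 1) (hb : ‖b‖ = 1) (hc : ‖c‖ = 1) (he : ‖e‖ = 1)
    (ha' : ‖a - 1‖ ≤ 1 / 10) (hb' : ‖b - 1‖ ≤ 1 / 10) (hc' : ‖c - 1‖ ≤ 1 / 10)
    (he' : ‖e - 1‖ ≤ 1 / 10) (m : ℤ) : PP a (sg m * b) c (sg m * e) ≠ 0 := by
  have low : ∀ u : ℂ, ‖u - 1‖ ≤ 1 / 10 → 19 / 10 ≤ ‖1 + u‖ := by
    intro u hu
    have h := norm_sub_le (1 + u) (u - 1)
    have e : 1 + u - (u - 1) = 2 := by ring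
    rw [e] at h
    norm_num at h ⊢
    linarith
  have up : ∀ u : ℂ, ‖u‖ = 1 → ‖1 + u‖ ≤ 2 := by
    intro u hu
    have h := norm_add_le 1 u
    rw [hu, norm_one] at h
    linarith
  have n1 := near_mul ha ha' hc'
  have n2 := near_mul (by rw [norm_mul, ha, hb, mul_one]) (near_mul ha ha' hb') he'
  have n3 := near_mul (by rw [norm_mul, hb, hc, mul_one]) (near_mul hb hb' hc') he'
  have tri : ‖(1 + a * c + a * b * e + b * c * e) - 4‖ ≤ 8 / 10 := by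
    have e1 : (1 + a * c + a * b * e + b * c * e) - 4 =
        (a * c - 1) + (a * b * e - 1) + (b * c * e - 1) := by ring
    rw [e1]
    refine (norm_add₃_le).trans ?_
    linarith
  have t1 := norm_sub_norm_le (1 + a * c + a * b * e + b * c * e) 4
  have t2 := norm_sub_norm_le 4 (1 + a * c + a * b * e + b * c * e)
  rw [norm_sub_rev] at t2
  have n4 : ‖(4 : ℂ)‖ = 4 := by simp
  rw [n4] at t1 t2
  intro h
  unfold PP sg at h
  split_ifs at h
  · simp only [one_mul, sub_eq_zero] at h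
    have h2 := congrArg norm h
    simp only [norm_mul] at h2
    have p1 : (19 / 10 : ℝ) * (19 / 10) * (19 / 10) * (19 / 10) ≤
        ‖1 + a‖ * ‖1 + b‖ * ‖1 + c‖ * ‖1 + e‖ := by
      gcongr
      · exact low a ha'
      · exact low b hb'
      · exact low c hc'
      · exact low e he'
    linarith
  · have h1 : (1 + a) * (b - 1) * (1 + c) * (e - 1) = 1 + a * c + a * b * e + b * c * e := by
      linear_combination h
    have h2 := congrArg norm h1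
    simp only [norm_mul] at h2
    have p1 : ‖1 + a‖ * ‖b - 1‖ * ‖1 + c‖ * ‖e - 1‖ ≤ 2 * (1 / 10) * 2 * (1 / 10) := by
      gcongr
      · exact up a ha
      · exact up c hc
    linarith

lemma geo_ne (m : ℤ) (s : ℝ) (hs : |s| < 1 / 100) :
    ∑ j ∈ Finset.range 47, ee (((2 * (j : ℤ) : ℤ) : ℝ) * (m / 2 + s)) ≠ 0 := by
  have e : ∀ j : ℕ, ee (((2 * (j : ℤ) : ℤ) : ℝ) * (m / 2 + s)) = ee (2 * s) ^ j := by
    intro j
    have e1 : ((2 * (j : ℤ) : ℤ) : ℝ) * (m / 2 + s) = ((2 * (j * m) : ℤ) : ℝ) / 2 + j * (2 * s) := by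
      push_cast; ring
    rw [e1, ee_add, ee_half, sg, if_pos (by simp), one_mul, ee, ee, ← Complex.exp_nat_mul]
    congr 1
    push_cast; ring
  simp_rw [e]
  by_cases h0 : s = 0
  · simp [h0, ee]
  · intro h
    have h1 := geom_sum_mul (ee (2 * s)) 47
    rw [h, zero_mul, eq_comm, sub_eq_zero, ee, ← Complex.exp_nat_mul] at h1
    refine exp_ne_one (94 * s) (by simpa using h0) (by rw [abs_mul]; norm_num; linarith) ?_
    rw [← h1]
    congr 1
    push_cast; ring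

lemma ft_ne (w : EuclideanSpace ℝ (Fin 4)) (m : ℤ) (hm : |m| ≤ 1) (s : Fin 4 → ℝ)
    (hs : ∀ i, |s i| < 1 / 100) (hw : ∀ i, w i = ((![0, m, 0, m] : Fin 4 → ℤ) i : ℝ) / 2 + s i) :
    ∫ x in Om (AA 47), en w x ≠ 0 := by
  rw [ft_Om]
  refine mul_ne_zero ?_ (Finset.prod_ne_zero_iff.2 fun i _ => ph_ne _ ?_)
  · have e : ∀ n : Fin 4 → ℤ, en w (iv n) =
        ee (n 0 * w 0) * ee (n 1 * w 1) * ee (n 2 * w 2) * ee (n 3 * w 3) := by
      intro n
      rw [← ee_add, ← ee_add, ← ee_add, en, ee, inner_eq, Fin.sum_univ_four]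
      rfl
    simp_rw [e]
    rw [sumA_char (fun i z => ee (z * w i)) (fun i a b => by rw [← ee_add]; congr 1; push_cast; ring)
      (fun i => by simp [ee])]
    refine mul_ne_zero ?_ (Finset.prod_ne_zero_iff.2 fun i _ => ?_)
    · simp only [Int.cast_one, one_mul, hw, ee_add, ee_half, Matrix.cons_val_zero,
        Matrix.cons_val_one, Matrix.cons_val]
      have : sg 0 = 1 := by simp [sg]
      rw [this, one_mul, one_mul]
      exact PP_ne _ _ _ _ (norm_ee _) (norm_ee _) (norm_ee _) (norm_ee _) (ee_near _ (hs 0))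
        (ee_near _ (hs 1)) (ee_near _ (hs 2)) (ee_near _ (hs 3)) m
    · rw [hw]
      exact geo_ne _ _ (hs i)
  · have hm' : |(m : ℝ)| ≤ 1 := by exact_mod_cast hm
    have h1 := abs_lt.1 (hs i)
    have h2 := abs_le.1 hm'
    rw [hw, abs_lt]
    fin_cases i <;> simp at h1 ⊢ <;> constructor <;> linarith [h1.1, h1.2, h2.1, h2.2]

/-- small boxes -/
def bx (m : ℤ) : Set (EuclideanSpace ℝ (Fin 4)) :=
  {x | ∀ i, x i ∈ Ioo (((![0, m, 0, m] : Fin 4 → ℤ) i : ℝ) / 2)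
    (((![0, m, 0, m] : Fin 4 → ℤ) i : ℝ) / 2 + 1 / 100)}

lemma meas_bx (m : ℤ) : MeasurableSet (bx m) := by
  have : bx m = ⋂ i, (fun x : EuclideanSpace ℝ (Fin 4) => x i) ⁻¹'
      Ioo (((![0, m, 0, m] : Fin 4 → ℤ) i : ℝ) / 2)
        (((![0, m, 0, m] : Fin 4 → ℤ) i : ℝ) / 2 + 1 / 100) := by
    ext x; simp only [bx, mem_ofPred_eq, mem_iInter, mem_preimage]
  rw [this]
  exact MeasurableSet.iInter fun i => measurableSet_Ioo.preimage (by fun_prop)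

lemma vol_bx (m : ℤ) : volume (bx m) = ENNReal.ofReal ((1 / 100) ^ 4) := by
  rw [← (PiLp.volume_preserving_toLp (Fin 4)).measure_preimage (meas_bx m).nullMeasurableSet]
  have : (WithLp.toLp 2) ⁻¹' (bx m) = Set.pi univ (fun i =>
      Ioo (((![0, m, 0, m] : Fin 4 → ℤ) i : ℝ) / 2)
        (((![0, m, 0, m] : Fin 4 → ℤ) i : ℝ) / 2 + 1 / 100)) := by
    ext x; simp only [bx, mem_preimage, mem_ofPred_eq, mem_pi, mem_univ, forall_true_left]
  rw [this, Real.volume_pi_Ioo]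
  simp only [add_sub_cancel_left, Finset.prod_const, Finset.card_univ, Fintype.card_fin]
  rw [ENNReal.ofReal_pow (by norm_num)]

lemma vol_OmA : volume (Om (AA 47)) = ENNReal.ofReal (12 * 47 ^ 4) := by
  rw [vol_Om]
  have h := cardA (k := 47)
  have h2 : (AA 47).card = 12 * 47 ^ 4 := by exact_mod_cast h
  rw [h2, ← ENNReal.ofReal_natCast]
  norm_num

lemma mem_AA (hk : 0 < k) : (![0, 1, 0, 0] : Fin 4 → ℤ) ∈ AA k := by
  simp only [AA, Finset.mem_filter, Fintype.mem_piFinset, II, Finset.mem_Ico]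
  refine ⟨fun i => ?_, by simp⟩
  fin_cases i <;> simp <;> omega

lemma mem_Om (hk : 0 < k) (x : EuclideanSpace ℝ (Fin 4)) (e : cell x = ![0, 1, 0, 0]) :
    x ∈ Om (AA k) := by
  show cell x ∈ AA k
  rw [e]
  exact mem_AA hk

lemma ball_sub (hk : 0 < k) :
    Metric.ball (WithLp.toLp 2 ![1 / 2, 3 / 2, 1 / 2, 1 / 2] : EuclideanSpace ℝ (Fin 4)) (1 / 2) ⊆
      Om (AA k) := by
  intro x hx
  have hc : ∀ i, |x i - (![1 / 2, 3 / 2, 1 / 2, 1 / 2] : Fin 4 → ℝ) i| < 1 / 2 := by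
    intro i
    rw [Metric.mem_ball, dist_eq_norm] at hx
    exact lt_of_le_of_lt (PiLp.norm_apply_le
      (x - WithLp.toLp 2 (![1 / 2, 3 / 2, 1 / 2, 1 / 2] : Fin 4 → ℝ)) i) hx
  have e : cell x = ![0, 1, 0, 0] := by
    funext i
    have := abs_lt.1 (hc i)
    simp only [cell, sub_eq_iff_eq_add, Int.ceil_eq_iff]
    fin_cases i <;> simp at this ⊢ <;> constructor <;> linarith [this.1, this.2]
  exact mem_Om hk x e

lemma not_spectral (B : Set (EuclideanSpace ℝ (Fin 4)))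
    (h0 : ∀ b ∈ B, ∀ b' ∈ B, b ≠ b' → ∫ x in Om (AA 47), en b x * conj (en b' x) = 0)
    (hcomp : ∀ f : EuclideanSpace ℝ (Fin 4) → ℂ, MemLp f 2 (volume.restrict (Om (AA 47))) →
      (∀ b ∈ B, ∫ x in Om (AA 47), f x * conj (en b x) = 0) →
        f =ᵐ[volume.restrict (Om (AA 47))] 0) : False := by
  have hdis : Disjoint (bx 0) (bx 1) := by
    rw [Set.disjoint_left]
    intro x h1 h2
    have a := (h1 1).2
    have b := (h2 1).1
    simp at a b
    linarith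
  have hvol : volume (bx 0 ∪ bx 1) = ENNReal.ofReal (2 * (1 / 100) ^ 4) := by
    rw [measure_union hdis (meas_bx 1), vol_bx, vol_bx, ← ENNReal.ofReal_add (by norm_num)
      (by norm_num)]
    congr 1; ring
  have h := packing (Om (AA 47)) (measurableSet_Om _) (by rw [vol_OmA]; exact ENNReal.ofReal_lt_top)
    (WithLp.toLp 2 ![1 / 2, 3 / 2, 1 / 2, 1 / 2]) (1 / 2) (by norm_num)
    (ball_sub (k := 47) (by norm_num)) B h0 hcomp
    (bx 0 ∪ bx 1) ((meas_bx 0).union (meas_bx 1)) (by rw [hvol]; norm_num) ?_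
  · rw [hvol, vol_OmA, ← ENNReal.ofReal_mul (by norm_num), ENNReal.ofReal_le_one] at h
    norm_num at h
  · have key : ∀ m m' : ℤ, |m - m'| ≤ 1 → ∀ p ∈ bx m, ∀ q ∈ bx m',
        ∫ x in Om (AA 47), en (p - q) x ≠ 0 := by
      intro m m' hm p hp q hq
      refine ft_ne _ (m - m') hm
        (fun i => (p - q) i - ((![0, m - m', 0, m - m'] : Fin 4 → ℤ) i : ℝ) / 2) (fun i => ?_)
        (fun i => by ring)
      have a := hp i
      have b := hq i
      rw [abs_lt]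
      fin_cases i <;> simp at a b ⊢ <;> constructor <;> linarith [a.1, a.2, b.1, b.2]
    rintro p (hp | hp) q (hq | hq) <;> exact key _ _ (by norm_num) p hp q hq

end Pool.Agent.H703Z.Sp
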