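import Pool.Agent.H703Z.GbDens
import Pool.Agent.H703Z.SpMain

set_option autoImplicit false
open MeasureTheory Real ComplexConjugate Set
open scoped ENNReal

namespace Pool.Agent.H703Z.Sp

variable {d : ℕ}

lemma ee_ne (s : ℝ) : ee s ≠ 0 := Complex.exp_ne_zero _

lemma ee_int (m : ℤ) : ee m = 1 := by
  rw [ee, Complex.exp_eq_one_iff]
  exact ⟨-m, by push_cast; ring⟩

lemma ee_nat_mul (j : ℕ) (s : ℝ) : ee (j * s) = ee s ^ j := by
  rw [ee, ee, ← Complex.exp_nat_mul]; congr 1; push_cast; ring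

lemma en_prod (w x : EuclideanSpace ℝ (Fin d)) : en w x = ∏ i, ee (x i * w i) := by
  rw [en, inner_eq]
  simp only [ee]
  rw [← Complex.exp_sum]
  congr 1
  push_cast
  rw [Finset.mul_sum]

lemma iv_zero : iv (0 : Fin d → ℤ) = 0 := by ext i; simp

/-- completeness of exponentials on a union of cells -/
lemma complete_on (A : Finset (Fin d → ℤ)) {J : Type} [Countable J]
    (w : J → EuclideanSpace ℝ (Fin d))
    (hdisc : ∀ F : (Fin d → ℤ) → ℂ,
      (∀ j, ∑ n ∈ A, F n * conj (en (w j) (iv n)) = 0) → ∀ n ∈ A, F n = 0)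
    (f0 : EuclideanSpace ℝ (Fin d) → ℂ) (hf0 : MemLp f0 2 (volume.restrict (Om A)))
    (h : ∀ j, ∀ m : Fin d → ℤ, ∫ x in Om A, f0 x * conj (en (w j + iv m) x) = 0) :
    f0 =ᵐ[volume.restrict (Om A)] 0 := by
  set f := (Om A).indicator f0 with hfdef
  have hf : MemLp f 2 volume := (memLp_indicator_iff_restrict (measurableSet_Om A)).2 hf0
  have hsh : ∀ n : Fin d → ℤ, MemLp (fun u => f (u + iv n)) 2 (volume.restrict (Q d)) := fun n =>
    (hf.comp_measurePreserving (measurePreserving_add_right volume (iv n))).restrict _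
  have hcm : ∀ v c : EuclideanSpace ℝ (Fin d), Measurable fun u => conj (en v (u + c)) :=
    fun v c => (Complex.continuous_conj.comp ((cont_en v).comp (by fun_prop))).measurable
  have hcb : ∀ v x : EuclideanSpace ℝ (Fin d), ‖conj (en v x)‖ ≤ 1 := fun v x => by
    rw [Complex.norm_conj, norm_en]
  have h1 : ∀ j, ∀ᵐ u ∂volume, u ∈ Q d →
      ∑ n ∈ A, f (u + iv n) * conj (en (w j) (u + iv n)) = 0 := by
    intro j
    refine uniq _ (memLp_finsetSum _ fun n _ =>
      memLp_bdd _ _ (hcm _ _) (fun x => hcb _ _) (hsh _)) fun m => ?_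
    have h2 := fold A 0 (fun x => f x * conj (en (w j + iv m) x)) (fun n =>
      intOn _ (memLp_bdd _ _ (hcm _ _) (fun x => hcb _ _) (hsh n)))
    have h3 := h j m
    rw [← integral_indicator (measurableSet_Om A)] at h3
    have e : (Om A).indicator (fun x => f0 x * conj (en (w j + iv m) x)) =
        fun x => f x * conj (en (w j + iv m) x) *
          (Om A).indicator (fun _ => (1 : ℂ)) (x - iv 0) := by
      funext x
      rw [iv_zero, sub_zero, hfdef]
      simp only [indicator]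
      split_ifs <;> simp
    rw [e, h2] at h3
    rw [← h3]
    congr 1
    funext u
    rw [Finset.sum_mul]
    refine Finset.sum_congr rfl fun n _ => ?_
    rw [add_zero, en_add_left, en_add_right (iv m), en_iv_iv, mul_one, map_mul, mul_assoc]
  have h2 : ∀ᵐ u ∂(volume : Measure (EuclideanSpace ℝ (Fin d))), u ∈ Q d →
      ∀ n ∈ A, f (u + iv n) = 0 := by
    filter_upwards [ae_all_iff.2 h1] with u hu huQ
    refine hdisc (fun n => f (u + iv n)) fun j => ?_
    have h4 := hu j huQ
    have h5 : conj (en (w j) u) ≠ 0 := by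
      rw [← norm_ne_zero_iff, Complex.norm_conj, norm_en]; exact one_ne_zero
    apply mul_left_cancel₀ h5
    rw [mul_zero, ← h4, Finset.mul_sum]
    refine Finset.sum_congr rfl fun n _ => ?_
    rw [en_add_right, map_mul]; ring
  have h3 : ∀ n : Fin d → ℤ, ∀ᵐ x ∂(volume : Measure (EuclideanSpace ℝ (Fin d))),
      x - iv n ∈ Q d → ∀ m ∈ A, f (x - iv n + iv m) = 0 := fun n =>
    (measurePreserving_sub_right volume (iv n)).quasiMeasurePreserving.ae h2
  refine (ae_restrict_iff' (measurableSet_Om A)).2 ?_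
  filter_upwards [ae_all_iff.2 h3] with x hx hxA
  have := hx (cell x) ((sub_mem_Q _ _).2 rfl) (cell x) hxA
  rwa [sub_add_cancel, hfdef, indicator_of_mem hxA] at this

lemma int1_ne (α s : ℝ) (hα : |α| < 1) (hs : |s| < 1) :
    ∫ u in Ioc (0 : ℝ) (0 + 1), (Ioc (0 : ℝ) (0 + 1)).indicator (fun _ => (1 : ℂ)) (u + α) *
      ee (u * s) ≠ 0 := by
  obtain ⟨a1, a2⟩ := abs_lt.1 hα
  set lo := max 0 (-α) with hlo
  set hi := min 1 (1 - α) with hhi
  have hlt : lo < hi := by
    rw [hlo, hhi, max_lt_iff, lt_min_iff, lt_min_iff]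
    refine ⟨⟨?_, ?_⟩, ?_, ?_⟩ <;> linarith
  have hle : hi - lo ≤ 1 := by
    have := le_max_left 0 (-α)
    have := min_le_left 1 (1 - α)
    linarith
  have e : ∫ u in Ioc (0 : ℝ) (0 + 1),
      (Ioc (0 : ℝ) (0 + 1)).indicator (fun _ => (1 : ℂ)) (u + α) * ee (u * s) =
      ∫ u in lo..hi, ee (u * s) := by
    rw [intervalIntegral.integral_of_le hlt.le, ← integral_indicator measurableSet_Ioc,
      ← integral_indicator measurableSet_Ioc]
    congr 1
    funext u
    have : u ∈ Ioc lo hi ↔ u ∈ Ioc (0 : ℝ) (0 + 1) ∧ u + α ∈ Ioc (0 : ℝ) (0 + 1) := by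
      simp only [mem_Ioc, hlo, hhi, max_lt_iff, le_min_iff]
      constructor
      · rintro ⟨⟨b1, b2⟩, b3, b4⟩
        exact ⟨⟨b1, by linarith⟩, by linarith, by linarith⟩
      · rintro ⟨⟨b1, b2⟩, b3, b4⟩
        exact ⟨⟨b1, by linarith⟩, by linarith, by linarith⟩
    by_cases c1 : u ∈ Ioc (0 : ℝ) (0 + 1) <;> by_cases c2 : u + α ∈ Ioc (0 : ℝ) (0 + 1)
    · rw [indicator_of_mem c1, indicator_of_mem c2, indicator_of_mem (this.2 ⟨c1, c2⟩), one_mul]
    · rw [indicator_of_mem c1, indicator_of_notMem c2,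
        indicator_of_notMem (fun h => c2 (this.1 h).2), zero_mul]
    · rw [indicator_of_notMem c1, indicator_of_notMem (fun h => c1 (this.1 h).1)]
    · rw [indicator_of_notMem c1, indicator_of_notMem (fun h => c1 (this.1 h).1)]
  rw [e]
  by_cases h0 : s = 0
  · subst h0
    simp only [mul_zero, ee, Complex.ofReal_zero, Complex.exp_zero, intervalIntegral.integral_const,
      Complex.real_smul, mul_one, ne_eq, Complex.ofReal_eq_zero]
    linarith
  · have hc : (-2 * (Real.pi : ℂ) * Complex.I * s) ≠ 0 := by simp [h0, Real.pi_ne_zero]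
    have h1 := integral_exp_mul_complex (a := lo) (b := hi) hc
    have e2 : ∀ u : ℝ, ee (u * s) = Complex.exp (-2 * (Real.pi : ℂ) * Complex.I * s * u) := by
      intro u
      rw [ee]; congr 1; push_cast; ring
    simp_rw [e2]
    rw [h1, ← e2, ← e2]
    refine div_ne_zero (sub_ne_zero.2 fun h => ?_) hc
    have h2 : ee (hi * s) = ee ((hi - lo) * s) * ee (lo * s) := by
      rw [← ee_add]; congr 1; ring
    rw [h2] at h
    have h3 : ee ((hi - lo) * s) = 1 := by
      apply mul_right_cancel₀ (ee_ne (lo * s))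
      rw [h, one_mul]
    refine exp_ne_one ((hi - lo) * s) (mul_ne_zero (by linarith) h0) ?_ h3
    rw [abs_mul, abs_of_pos (by linarith : 0 < hi - lo)]
    nlinarith [abs_nonneg s]

lemma intQQ (α w : EuclideanSpace ℝ (Fin d)) (hα : ∀ i, |α i| < 1) (hw : ∀ i, |w i| < 1) :
    ∫ u in Q d, (Q d).indicator (fun _ => (1 : ℂ)) (u + α) * en w u ≠ 0 := by
  rw [setInt]
  have h1 : {x : Fin d → ℝ | ∀ i, x i ∈ Ioc (0 : ℝ) (0 + 1)} =
      Set.pi univ (fun _ => Ioc (0 : ℝ) (0 + 1)) := by
    ext x; simp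
  have h2 : ∀ x : Fin d → ℝ,
      (Q d).indicator (fun _ => (1 : ℂ)) (WithLp.toLp 2 x + α) * en w (WithLp.toLp 2 x) =
      ∏ i, (Ioc (0 : ℝ) (0 + 1)).indicator (fun _ => (1 : ℂ)) (x i + α i) * ee (x i * w i) := by
    intro x
    rw [en_prod, Finset.prod_mul_distrib]
    congr 1
    simp only [indicator]
    rw [Finset.prod_boole]
    simp [Q]
  simp_rw [h2]
  rw [h1, volume_pi, Measure.restrict_pi_pi, integral_fintype_prod_eq_prod
    (fun i (u : ℝ) => (Ioc (0 : ℝ) (0 + 1)).indicator (fun _ => (1 : ℂ)) (u + α i) * ee (u * w i))]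
  exact Finset.prod_ne_zero_iff.2 fun i _ => int1_ne _ _ (hα i) (hw i)

/-- ambiguity function of a union of cells at even positions -/
lemma amb2 (A : Finset (Fin d → ℤ)) (hA : ∀ n ∈ A, ∀ i, Even (n i))
    (a a' w w' α : EuclideanSpace ℝ (Fin d)) (N : Fin d → ℤ) (hα : ∀ i, |α i| < 1)
    (hτ : a - a' = iv (fun i => 2 * N i) + α) :
    ∫ x, ((Om A).indicator (fun _ => (1 : ℂ)) (x - a) * en w x) *
      conj ((Om A).indicator (fun _ => (1 : ℂ)) (x - a') * en w' x) =
      en (w - w') a *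
        (∑ n ∈ A, (if n + (fun i => 2 * N i) ∈ A then 1 else 0) * en (w - w') (iv n)) *
        ∫ u in Q d, (Q d).indicator (fun _ => (1 : ℂ)) (u + α) * en (w - w') u := by
  classical
  let H : EuclideanSpace ℝ (Fin d) → ℂ := fun x =>
    (Om A).indicator (fun _ => (1 : ℂ)) (x + (a - a')) * en (w - w') (x + a)
  have hm : Measurable H :=
    ((measurable_const.indicator (measurableSet_Om A)).comp (by fun_prop)).mul
      ((cont_en _).measurable.comp (by fun_prop))
  have hb : ∀ x, ‖H x‖ ≤ 1 := by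
    intro x
    simp only [H, norm_mul, norm_en, mul_one, indicator]
    split_ifs <;> simp
  have h := fold A 0 H (fun n => intOn_bdd _ (hm.comp (by fun_prop)) (fun x => hb _))
  have e : ∀ x, ((Om A).indicator (fun _ => (1 : ℂ)) (x + a - a) * en w (x + a)) *
      conj ((Om A).indicator (fun _ => (1 : ℂ)) (x + a - a') * en w' (x + a)) =
      H x * (Om A).indicator (fun _ => (1 : ℂ)) (x - iv 0) := by
    intro x
    rw [add_sub_cancel_right, iv_zero, sub_zero, add_sub_assoc]
    simp only [H, map_mul, ← en_mul_conj, indicator]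
    split_ifs <;> simp
  rw [← integral_add_right_eq_self _ a]
  simp_rw [e]
  rw [h, ← integral_const_mul]
  refine setIntegral_congr_fun measurableSet_Q fun u hu => ?_
  simp only [H]
  rw [Finset.mul_sum, Finset.sum_mul]
  refine Finset.sum_congr rfl fun n hn => ?_
  have hc : cell (u + iv (n + 0) + (a - a')) = cell (u + α) + (n + fun i => 2 * N i) := by
    rw [hτ, ← cell_add, add_zero, iv_add]
    congr 1
    abel
  have hiff : u + iv (n + 0) + (a - a') ∈ Om A ↔
      (u + α ∈ Q d ∧ n + (fun i => 2 * N i) ∈ A) := by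
    rw [Om, mem_ofPred_eq, hc, mem_Q]
    constructor
    · intro hmem
      have h0 : cell (u + α) = 0 := by
        funext i
        have e1 := hA _ hmem i
        have e2 := hA _ hn i
        simp only [Pi.add_apply, Int.even_add, e2, even_two, Even.mul_right, iff_true] at e1
        have b1 := (hu i).1
        have b2 := (hu i).2
        obtain ⟨b3, b4⟩ := abs_lt.1 (hα i)
        have c1 : -1 < ⌈(u + α) i⌉ := by
          rw [Int.lt_ceil]; simp only [PiLp.add_apply]; push_cast; linarith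
        have c2 : ⌈(u + α) i⌉ ≤ 2 := by
          rw [Int.ceil_le]; simp only [PiLp.add_apply]; push_cast; linarith
        obtain ⟨r, hr⟩ := e1
        simp only [cell] at hr ⊢
        simp only [Pi.zero_apply]
        omega
      rw [h0, zero_add] at hmem
      exact ⟨h0, hmem⟩
    · rintro ⟨h0, hmem⟩
      rw [h0, zero_add]; exact hmem
  rw [en_add_right, en_add_right, add_zero]
  rw [add_zero] at hiff
  simp only [indicator, hiff]
  by_cases h1 : u + α ∈ Q d <;> by_cases h2 : n + (fun i => 2 * N i) ∈ A <;>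
    simp only [h1, h2, and_self, and_true, and_false, if_true, if_false] <;> ring

lemma geo_win (k : ℕ) (L m : ℤ) (hL : |L| < k) (s t : ℝ) (hs : 6 * s = m + t) (ht : |t| * k < 1) :
    ∑ x : Fin k, (if 0 ≤ ((x : ℕ) : ℤ) + L ∧ ((x : ℕ) : ℤ) + L < k then 1 else 0) *
      ee (((6 * ((x : ℕ) : ℤ) : ℤ) : ℝ) * s) ≠ 0 := by
  obtain ⟨l1, l2⟩ := abs_lt.1 hL
  set lo : ℕ := (-L).toNat with hlo
  set hi : ℕ := min k (k - L).toNat with hhi
  have hlt : lo < hi := by omega
  have hle : hi - lo ≤ k := by omega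
  have e : ∀ x : ℕ, ee (((6 * (x : ℤ) : ℤ) : ℝ) * s) = ee t ^ x := by
    intro x
    have : ((6 * (x : ℤ) : ℤ) : ℝ) * s = ((x * m : ℤ) : ℝ) + x * t := by
      push_cast; linear_combination (x : ℝ) * hs
    rw [this, ee_add, ee_int, one_mul, ee_nat_mul]
  simp_rw [e]
  rw [Fin.sum_univ_eq_sum_range
    (fun x : ℕ => (if 0 ≤ (x : ℤ) + L ∧ (x : ℤ) + L < k then (1 : ℂ) else 0) * ee t ^ x) k]
  simp only [ite_mul, one_mul, zero_mul]
  rw [← Finset.sum_filter]
  have e2 : (Finset.range k).filter (fun x : ℕ => 0 ≤ (x : ℤ) + L ∧ (x : ℤ) + L < k) =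
      Finset.Ico lo hi := by
    ext x
    simp only [Finset.mem_filter, Finset.mem_range, Finset.mem_Ico]
    omega
  rw [e2]
  by_cases h0 : t = 0
  · simp only [h0, ee, Complex.ofReal_zero, mul_zero, Complex.exp_zero, one_pow, Finset.sum_const,
      Nat.card_Ico, nsmul_eq_mul, mul_one, ne_eq, Nat.cast_eq_zero]
    omega
  · intro h
    have h1 := geom_sum_Ico_mul (ee t) hlt.le
    rw [h, zero_mul, eq_comm, sub_eq_zero] at h1
    have h2 : ee t ^ hi = ee t ^ (hi - lo) * ee t ^ lo := by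
      rw [← pow_add]; congr 1; omega
    rw [h2] at h1
    have h3 : ee t ^ (hi - lo) = 1 := by
      apply mul_right_cancel₀ (pow_ne_zero lo (ee_ne t))
      rw [h1, one_mul]
    rw [← ee_nat_mul] at h3
    have hp : (0 : ℝ) < ((hi - lo : ℕ) : ℝ) := by exact_mod_cast (by omega : 0 < hi - lo)
    have hq : ((hi - lo : ℕ) : ℝ) ≤ k := by exact_mod_cast hle
    refine exp_ne_one _ (mul_ne_zero hp.ne' h0) ?_ h3
    rw [abs_mul, abs_of_pos hp]
    nlinarith [abs_nonneg t]

end Pool.Agent.H703Z.Sp
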