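import Pool.Agent.H703Z.SpGrid

set_option autoImplicit false
open MeasureTheory Real ComplexConjugate Set
open scoped ENNReal

namespace Pool.Agent.H703Z.Sp

variable {d : ℕ}

lemma iv_inj {m n : Fin d → ℤ} (h : iv m = iv n) : m = n := by
  funext i
  have := congrArg (fun x : EuclideanSpace ℝ (Fin d) => x i) h
  simpa using this

lemma int_en_iv (m n : Fin d → ℤ) :
    ∫ u in Q d, en (iv m) u * conj (en (iv n) u) = if m = n then 1 else 0 := by
  simp only [en_mul_conj, ← iv_sub, int_en]
  split_ifs with h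
  · subst h
    simp [ph_zero]
  · obtain ⟨i, hi⟩ := Function.ne_iff.1 h
    refine Finset.prod_eq_zero (Finset.mem_univ i) ?_
    rw [iv_apply]
    exact ph_int _ (sub_ne_zero.2 hi)

lemma parseval_Q (F : EuclideanSpace ℝ (Fin d) → ℂ) (hF : MemLp F 2 (volume.restrict (Q d))) :
    HasSum (fun m : Fin d → ℤ => ‖∫ u in Q d, F u * conj (en (iv m) u)‖ ^ 2)
      (∫ u in Q d, ‖F u‖ ^ 2) := by
  have : IsFiniteMeasure (volume.restrict (Q d)) := ⟨by simp [vol_Q]⟩
  have h := parseval (volume.restrict (Q d)) (fun m : Fin d → ℤ => en (iv m)) 1 one_pos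
    (fun m => MemLp.of_bound (cont_en _).aestronglyMeasurable 1
      (ae_of_all _ fun x => (norm_en _ x).le))
    (fun i j hij => by rw [int_en_iv, if_neg hij])
    (fun i => by rw [int_en_iv, if_pos rfl]; simp)
    (fun f hf h => (ae_restrict_iff' measurableSet_Q).2 (uniq f hf h)) F hF
  rwa [one_mul] at h

lemma lint_cells (G : EuclideanSpace ℝ (Fin d) → ℝ≥0∞) (hG : Measurable G) :
    ∫⁻ b, G b = ∫⁻ η in Q d, ∑' m : Fin d → ℤ, G (η - iv m) := by
  let C : (Fin d → ℤ) → Set (EuclideanSpace ℝ (Fin d)) := fun m => (fun x => x + iv m) ⁻¹' Q d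
  have hm : ∀ m, MeasurableSet (C m) := fun m => measurableSet_Q.preimage (by fun_prop)
  have hd : Pairwise (Function.onFun Disjoint C) := by
    intro m n hne
    rw [Function.onFun, Set.disjoint_left]
    intro x h1 h2
    simp only [C, mem_preimage, mem_Q, cell_add] at h1 h2
    exact hne (add_left_cancel (h1.trans h2.symm))
  have hu : ⋃ m, C m = univ := by
    rw [eq_univ_iff_forall]
    intro x
    refine mem_iUnion.2 ⟨-cell x, ?_⟩
    simp only [C, mem_preimage, mem_Q, cell_add, add_neg_cancel]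
  rw [lintegral_tsum (f := fun m η => G (η - iv m))
    fun m => (hG.comp (by fun_prop)).aemeasurable, ← setLIntegral_univ, ← hu,
    lintegral_iUnion hm hd]
  congr 1
  funext m
  have := (measurePreserving_add_right volume (iv m)).setLIntegral_comp_preimage_emb
    (measurableEmbedding_addRight _) (fun ζ => G (ζ - iv m)) (Q d)
  rw [← this]
  simp [C]

/-- short-time transform of an indicator against the unit cube -/
noncomputable def cf (E : Set (EuclideanSpace ℝ (Fin d)))
    (z : EuclideanSpace ℝ (Fin d) × EuclideanSpace ℝ (Fin d)) : ℂ :=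
  ∫ u in Q d, E.indicator (fun _ => (1 : ℂ)) (u + z.1) * en z.2 u

lemma meas_cf (E : Set (EuclideanSpace ℝ (Fin d))) (hE : MeasurableSet E) : Measurable (cf E) := by
  have h : Measurable fun p : (EuclideanSpace ℝ (Fin d) × EuclideanSpace ℝ (Fin d)) ×
      EuclideanSpace ℝ (Fin d) =>
      E.indicator (fun _ => (1 : ℂ)) (p.2 + p.1.1) * en p.1.2 p.2 := by
    refine ((measurable_const.indicator hE).comp (by fun_prop)).mul ?_
    unfold en
    fun_prop
  exact (h.stronglyMeasurable.integral_prod_right' (ν := volume.restrict (Q d))).measurable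

lemma ind_norm (E : Set (EuclideanSpace ℝ (Fin d))) (x : EuclideanSpace ℝ (Fin d)) :
    ‖E.indicator (fun _ => (1 : ℂ)) x‖ ≤ 1 := by
  simp only [indicator]; split_ifs <;> simp

lemma moyal (E : Set (EuclideanSpace ℝ (Fin d))) (hE : MeasurableSet E) :
    ∫⁻ z, ENNReal.ofReal (‖cf E z‖ ^ 2) = volume E := by
  have : IsFiniteMeasure (volume.restrict (Q d)) := ⟨by simp [vol_Q]⟩
  have hm : Measurable fun z => ENNReal.ofReal (‖cf E z‖ ^ 2) :=
    ENNReal.measurable_ofReal.comp ((meas_cf E hE).norm.pow_const 2)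
  rw [Measure.volume_eq_prod, lintegral_prod _ hm.aemeasurable]
  have h1 : ∀ a, ∫⁻ b, ENNReal.ofReal (‖cf E (a, b)‖ ^ 2) =
      ∫⁻ u in Q d, E.indicator (fun _ => (1 : ℝ≥0∞)) (u + a) := by
    intro a
    rw [lint_cells (fun b => ENNReal.ofReal (‖cf E (a, b)‖ ^ 2)) (hm.comp (by fun_prop))]
    have h2 : ∀ η, ∑' m : Fin d → ℤ, ENNReal.ofReal (‖cf E (a, η - iv m)‖ ^ 2) =
        ∫⁻ u in Q d, E.indicator (fun _ => (1 : ℝ≥0∞)) (u + a) := by
      intro η
      have hmF : Measurable fun u => E.indicator (fun _ => (1 : ℂ)) (u + a) * en η u :=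
        ((measurable_const.indicator hE).comp (by fun_prop)).mul (cont_en η).measurable
      have hF : MemLp (fun u => E.indicator (fun _ => (1 : ℂ)) (u + a) * en η u) 2
          (volume.restrict (Q d)) :=
        MemLp.of_bound hmF.aestronglyMeasurable 1 (ae_of_all _ fun x => by
          rw [norm_mul, norm_en, mul_one]; exact ind_norm E _)
      have hp := parseval_Q _ hF
      simp only [mul_assoc, en_mul_conj] at hp
      have e : ∀ m : Fin d → ℤ, cf E (a, η - iv m) =
        ∫ u in Q d, E.indicator (fun _ => (1 : ℂ)) (u + a) * en (η - iv m) u := fun m => rfl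
      simp only [e]
      rw [← ENNReal.ofReal_tsum_of_nonneg (fun _ => by positivity) hp.summable, hp.tsum_eq,
        ofReal_integral_eq_lintegral_ofReal (hF.integrable_norm_pow (by norm_num))
          (ae_of_all _ fun x => by positivity)]
      congr 1
      funext u
      rw [norm_mul, norm_en, mul_one]
      simp only [indicator]
      split_ifs <;> simp
    simp only [h2]
    rw [setLIntegral_const, vol_Q, mul_one]
  simp only [h1]
  rw [lintegral_lintegral_swap]
  · have h3 : ∀ u : EuclideanSpace ℝ (Fin d),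
        ∫⁻ a, E.indicator (fun _ => (1 : ℝ≥0∞)) (u + a) = volume E := by
      intro u
      rw [lintegral_add_left_eq_self (E.indicator (fun _ => (1 : ℝ≥0∞))) u,
        lintegral_indicator_const hE, one_mul]
    simp only [h3]
    rw [setLIntegral_const, vol_Q, mul_one]
  · exact ((measurable_const.indicator hE).comp (by fun_prop)).aemeasurable

lemma memLp_ind (E : Set (EuclideanSpace ℝ (Fin d))) (hE : MeasurableSet E) (hfin : volume E < ⊤)
    (a b : EuclideanSpace ℝ (Fin d)) :
    MemLp (fun x => E.indicator (fun _ => (1 : ℂ)) (x - a) * en b x) 2 volume := by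
  have h1 : MemLp (E.indicator (fun _ => (1 : ℂ))) 2 volume :=
    memLp_indicator_const 2 hE 1 (Or.inr hfin.ne)
  exact memLp_bdd _ _ (cont_en b).measurable (fun x => (norm_en b x).le)
    (h1.comp_measurePreserving (measurePreserving_sub_right volume a))

lemma int_ind_sq (E : Set (EuclideanSpace ℝ (Fin d))) (hE : MeasurableSet E)
    (a b : EuclideanSpace ℝ (Fin d)) :
    ∫ x, ‖E.indicator (fun _ => (1 : ℂ)) (x - a) * en b x‖ ^ 2 = (volume E).toReal := by
  have e : ∀ x, ‖E.indicator (fun _ => (1 : ℂ)) (x - a) * en b x‖ ^ 2 =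
      E.indicator (fun _ => (1 : ℝ)) (x - a) := by
    intro x
    rw [norm_mul, norm_en, mul_one]
    simp only [indicator]
    split_ifs <;> simp
  simp_rw [e]
  rw [integral_sub_right_eq_self (E.indicator (fun _ => (1 : ℝ))) a, integral_indicator hE]
  simp [Measure.real]

/-- An orthogonal Gabor basis has density at least one. -/
lemma gabor_density (E : Set (EuclideanSpace ℝ (Fin d))) (hE : MeasurableSet E)
    (hpos : 0 < volume E) (hfin : volume E < ⊤)
    (S : Set (EuclideanSpace ℝ (Fin d) × EuclideanSpace ℝ (Fin d)))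
    (h0 : ∀ p ∈ S, ∀ q ∈ S, p ≠ q →
      ∫ x, (E.indicator (fun _ => (1 : ℂ)) (x - p.1) * en p.2 x) *
        conj (E.indicator (fun _ => (1 : ℂ)) (x - q.1) * en q.2 x) = 0)
    (hcomp : ∀ f : EuclideanSpace ℝ (Fin d) → ℂ, MemLp f 2 volume →
      (∀ p ∈ S, ∫ x, f x * conj (E.indicator (fun _ => (1 : ℂ)) (x - p.1) * en p.2 x) = 0) →
      f =ᵐ[volume] 0)
    (D : Set (EuclideanSpace ℝ (Fin d) × EuclideanSpace ℝ (Fin d))) (hD : MeasurableSet D)
    (U : Set (EuclideanSpace ℝ (Fin d) × EuclideanSpace ℝ (Fin d))) (hU : IsOpen U)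
    (hU' : U.Nonempty) (hUD : U ⊆ D)
    (M : ℕ) (hM : ∀ z, ∀ T : Finset (EuclideanSpace ℝ (Fin d) × EuclideanSpace ℝ (Fin d)),
      (∀ p ∈ T, p ∈ S ∧ z + p ∈ D) → T.card ≤ M) :
    volume D ≤ M := by
  classical
  have hinv : (volume : Measure (EuclideanSpace ℝ (Fin d) ×
      EuclideanSpace ℝ (Fin d))).IsAddRightInvariant := by
    rw [Measure.volume_eq_prod]; infer_instance
  have hc0 : 0 < (volume E).toReal := ENNReal.toReal_pos hpos.ne' hfin.ne
  let H : EuclideanSpace ℝ (Fin d) × EuclideanSpace ℝ (Fin d) → ℝ≥0∞ :=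
    fun z => ENNReal.ofReal (‖cf E z‖ ^ 2)
  have hHm : Measurable H := ENNReal.measurable_ofReal.comp ((meas_cf E hE).norm.pow_const 2)
  have hsum : ∀ z, ∑' s : S, H (z - s.1) = volume E := by
    intro z
    have hp := parseval volume
      (fun s : S => fun x => E.indicator (fun _ => (1 : ℂ)) (x - s.1.1) * en s.1.2 x)
      (volume E).toReal hc0 (fun s => memLp_ind E hE hfin _ _)
      (fun i j hij => h0 i i.2 j j.2 (fun h => hij (Subtype.ext h)))
      (fun i => by
        rw [← int_ind_sq E hE i.1.1 i.1.2, ← integral_complex_ofReal]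
        congr 1
        funext x
        rw [Complex.mul_conj']; push_cast; rfl)
      (fun g hg h => hcomp g hg fun b hb => h ⟨b, hb⟩) _
      (memLp_ind (Q d) measurableSet_Q (by simp [vol_Q]) z.1 z.2)
    rw [int_ind_sq _ measurableSet_Q, vol_Q, ENNReal.toReal_one, mul_one] at hp
    have e1 : ∀ s : EuclideanSpace ℝ (Fin d) × EuclideanSpace ℝ (Fin d),
        ‖∫ x, (Q d).indicator (fun _ => (1 : ℂ)) (x - z.1) * en z.2 x *
          conj (E.indicator (fun _ => (1 : ℂ)) (x - s.1) * en s.2 x)‖ = ‖cf E (z - s)‖ := by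
      intro s
      rw [← integral_add_right_eq_self _ z.1, cf, ← integral_indicator measurableSet_Q,
        ← one_mul ‖∫ _, (Q d).indicator _ _‖, ← norm_en (z.2 - s.2) z.1, ← norm_mul,
        ← integral_const_mul]
      congr 2
      funext u
      have e2 : u + z.1 - s.1 = u + (z - s).1 := by simp [add_sub_assoc]
      have e3 : en z.2 (u + z.1) * conj (en s.2 (u + z.1)) =
          en (z.2 - s.2) z.1 * en (z - s).2 u := by
        rw [en_mul_conj, en_add_right, mul_comm]; rfl
      rw [add_sub_cancel_right, e2, map_mul]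
      simp only [indicator]
      split_ifs <;> simp [e3]
    simp only [e1] at hp
    simp only [H]
    rw [← ENNReal.ofReal_tsum_of_nonneg (fun _ => by positivity) hp.summable, hp.tsum_eq,
      ENNReal.ofReal_toReal hfin.ne]
  have hcount : Countable S := by
    obtain ⟨C, hC, hCd⟩ := TopologicalSpace.exists_countable_dense
      (EuclideanSpace ℝ (Fin d) × EuclideanSpace ℝ (Fin d))
    have hfinite : ∀ η, {s | s ∈ S ∧ η + s ∈ D}.Finite := by
      intro η
      by_contra hinf
      obtain ⟨T, hT, hcard⟩ := Set.Infinite.exists_subset_card_eq hinf (M + 1)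
      have := hM η T fun p hp => hT hp
      omega
    have hsub : S ⊆ ⋃ η ∈ C, {s | s ∈ S ∧ η + s ∈ D} := by
      intro s hs
      obtain ⟨u, hu⟩ := hU'
      obtain ⟨η, h1, h2⟩ := hCd.inter_open_nonempty ((fun η => η + s) ⁻¹' U)
        (hU.preimage (by fun_prop)) ⟨u - s, by simpa using hu⟩
      exact mem_biUnion h2 ⟨hs, hUD h1⟩
    exact ((hC.biUnion fun η _ => (hfinite η).countable).mono hsub).to_subtype
  have hcnt : ∀ η, ∑' s : S, D.indicator (fun _ => (1 : ℝ≥0∞)) (η + s.1) ≤ M := by
    intro η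
    rw [ENNReal.tsum_eq_iSup_sum]
    refine iSup_le fun T => ?_
    have h1 : ∑ s ∈ T, D.indicator (fun _ => (1 : ℝ≥0∞)) (η + s.1) =
        ((T.filter fun s => η + s.1 ∈ D).card : ℝ≥0∞) := by
      simp only [indicator]
      rw [Finset.sum_boole]
    rw [h1]
    have h2 := hM η ((T.filter fun s => η + s.1 ∈ D).image Subtype.val) (by
      intro p hp
      obtain ⟨s, hs, rfl⟩ := Finset.mem_image.1 hp
      exact ⟨s.2, (Finset.mem_filter.1 hs).2⟩)
    rw [Finset.card_image_of_injective _ Subtype.val_injective] at h2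
    exact_mod_cast h2
  have key : volume E * volume D ≤ volume E * M := by
    calc volume E * volume D = ∫⁻ ζ in D, ∑' s : S, H (ζ - s.1) := by
          simp only [hsum]; rw [setLIntegral_const]
      _ = ∑' s : S, ∫⁻ ζ in D, H (ζ - s.1) :=
          lintegral_tsum fun b => (hHm.comp (by fun_prop)).aemeasurable
      _ = ∑' s : S, ∫⁻ η, D.indicator (fun _ => (1 : ℝ≥0∞)) (η + s.1) * H η := by
          congr 1
          funext s
          rw [← lintegral_indicator hD,
            ← lintegral_add_right_eq_self (D.indicator fun ζ => H (ζ - s.1)) s.1]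
          congr 1
          funext η
          simp only [indicator]
          split_ifs <;> simp
      _ = ∫⁻ η, ∑' s : S, D.indicator (fun _ => (1 : ℝ≥0∞)) (η + s.1) * H η :=
          (lintegral_tsum fun s => (((measurable_const.indicator hD).comp
            (by fun_prop)).mul hHm).aemeasurable).symm
      _ ≤ ∫⁻ η, M * H η := by
          refine lintegral_mono fun η => ?_
          rw [ENNReal.tsum_mul_right]
          exact mul_le_mul_left (hcnt η) _
      _ = volume E * M := by
          rw [lintegral_const_mul _ hHm, moyal E hE, mul_comm]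
  exact (ENNReal.mul_le_mul_iff_right hpos.ne' hfin.ne).1 key

end Pool.Agent.H703Z.Sp
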