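import Pool.Agent.H703Z.GbTao

set_option autoImplicit false
open MeasureTheory Real ComplexConjugate Set
open scoped ENNReal

namespace Pool.Agent.H703Z.Sp

/-- cells of the time window -/
noncomputable def BT (k : ℕ) : Finset (Fin 5 → ℤ) :=
  (Fintype.piFinset fun _ => Finset.Ico (0 : ℤ) (3 * k - 1)).image fun n i => 2 * n i

/-- one-dimensional frequency window -/
def F1 (k : ℕ) : Set ℝ := ⋃ b ∈ Finset.range 6, Ioo ((b : ℝ) / 6) ((b : ℝ) / 6 + 1 / (6 * k))

/-- frequency window -/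
def DF (k : ℕ) : Set (EuclideanSpace ℝ (Fin 5)) := {y | ∀ i, y i ∈ F1 k}

variable {k : ℕ}

lemma meas_F1 : MeasurableSet (F1 k) :=
  Finset.measurableSet_biUnion _ fun _ _ => measurableSet_Ioo

lemma vol_F1 (hk : 0 < k) : volume (F1 k) = ENNReal.ofReal (1 / k) := by
  have hk1 : (1 : ℝ) ≤ k := by exact_mod_cast hk
  have h6 : 1 / (6 * (k : ℝ)) ≤ 1 / 6 := by
    apply one_div_le_one_div_of_le <;> linarith
  rw [F1, measure_biUnion_finset _ (fun _ _ => measurableSet_Ioo)]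
  · simp only [Real.volume_Ioo, add_sub_cancel_left, Finset.sum_const, Finset.card_range,
      nsmul_eq_mul]
    rw [← ENNReal.ofReal_natCast, ← ENNReal.ofReal_mul (by positivity)]
    congr 1
    push_cast; field_simp
  · intro a _ b _ hab
    rw [Function.onFun, Set.disjoint_left]
    intro x h1 h2
    rcases lt_or_gt_of_ne hab with h | h
    · have : (a : ℝ) + 1 ≤ b := by exact_mod_cast h
      linarith [h1.2, h2.1]
    · have : (b : ℝ) + 1 ≤ a := by exact_mod_cast h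
      linarith [h1.1, h2.2]

lemma meas_DF : MeasurableSet (DF k) := by
  have : DF k = ⋂ i, (fun x : EuclideanSpace ℝ (Fin 5) => x i) ⁻¹' F1 k := by
    ext x; simp only [DF, mem_ofPred_eq, mem_iInter, mem_preimage]
  rw [this]
  exact MeasurableSet.iInter fun i => meas_F1.preimage (by fun_prop)

lemma vol_DF (hk : 0 < k) : volume (DF k) = ENNReal.ofReal ((1 / k) ^ 5) := by
  rw [← (PiLp.volume_preserving_toLp (Fin 5)).measure_preimage meas_DF.nullMeasurableSet]
  have : (WithLp.toLp 2) ⁻¹' (DF k) = Set.pi univ (fun _ => F1 k) := by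
    ext x; simp only [DF, mem_preimage, mem_ofPred_eq, mem_pi, mem_univ, forall_true_left]
  rw [this, volume_pi_pi]
  simp only [vol_F1 hk, Finset.prod_const, Finset.card_univ, Fintype.card_fin]
  rw [ENNReal.ofReal_pow (by positivity)]

lemma card_BT : (BT k).card = (3 * k - 1) ^ 5 := by
  rw [BT, Finset.card_image_of_injective, Fintype.card_piFinset]
  · simp only [Int.card_Ico, sub_zero, Finset.prod_const, Finset.card_univ, Fintype.card_fin]
    congr 1
    omega
  · intro m n h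
    funext i
    have := congrFun h i
    simp only at this
    omega

lemma F1_diff (hk : 0 < k) {y y' : ℝ} (h : y ∈ F1 k) (h' : y' ∈ F1 k) :
    |y - y'| < 1 ∧ ∃ m : ℤ, ∃ t : ℝ, 6 * (y - y') = m + t ∧ |t| * k < 1 := by
  have hk1 : (1 : ℝ) ≤ k := by exact_mod_cast hk
  have h6 : 1 / (6 * (k : ℝ)) ≤ 1 / 6 := by
    apply one_div_le_one_div_of_le <;> linarith
  simp only [F1, mem_iUnion, Finset.mem_range, mem_Ioo, exists_prop] at h h'
  obtain ⟨b, hb, h1, h2⟩ := h
  obtain ⟨b', hb', h3, h4⟩ := h'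
  have c1 : (b : ℝ) ≤ 5 := by exact_mod_cast (by omega : b ≤ 5)
  have c2 : (b' : ℝ) ≤ 5 := by exact_mod_cast (by omega : b' ≤ 5)
  have c3 : (0 : ℝ) ≤ b := by positivity
  have c4 : (0 : ℝ) ≤ b' := by positivity
  refine ⟨by rw [abs_lt]; constructor <;> linarith, (b : ℤ) - b', 6 * (y - y') - (b - b'),
    by push_cast; ring, ?_⟩
  have e : 1 / (6 * (k : ℝ)) = (1 / k) / 6 := by field_simp
  rw [e] at h2 h4
  have : |6 * (y - y') - (b - b')| < 1 / k := by
    rw [abs_lt]; constructor <;> linarith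
  rwa [lt_div_iff₀ (by linarith)] at this

lemma BT_data {x : EuclideanSpace ℝ (Fin 5)} (h : x ∈ Om (BT k)) (i : Fin 5) :
    cell x i = 2 * (cell x i / 2) ∧ 0 ≤ cell x i / 2 ∧ cell x i / 2 < 3 * k - 1 := by
  obtain ⟨n, hn, h2⟩ := Finset.mem_image.1 h
  have h3 := Fintype.mem_piFinset.1 hn i
  rw [Finset.mem_Ico] at h3
  have h4 : 2 * n i = cell x i := congrFun h2 i
  omega

/-- two points of an orthogonal system in one translate of the window -/
lemma pair (hk : 0 < k) (z p q : EuclideanSpace ℝ (Fin 5) × EuclideanSpace ℝ (Fin 5))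
    (hp : z + p ∈ Om (BT k) ×ˢ DF k) (hq : z + q ∈ Om (BT k) ×ˢ DF k)
    (h0 : ∫ x, ((Om (AT k)).indicator (fun _ => (1 : ℂ)) (x - p.1) * en p.2 x) *
      conj ((Om (AT k)).indicator (fun _ => (1 : ℂ)) (x - q.1) * en q.2 x) = 0)
    (j j' : Fin 6) (hd : ∀ i, 3 ∣ (cell (z + p).1 i / 2 - cell (z + q).1 i / 2) -
      (av j' i - av j i)) :
    j = j' ∧ ∑ r : Fin 6, en (p.2 - q.2) (iv fun i => 2 * av r i) = 0 := by
  set N : Fin 5 → ℤ := fun i => cell (z + p).1 i / 2 - cell (z + q).1 i / 2 with hN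
  set α : EuclideanSpace ℝ (Fin 5) :=
    ((z + p).1 - iv (cell (z + p).1)) - ((z + q).1 - iv (cell (z + q).1)) with hα
  have hα1 : ∀ i, |α i| < 1 := by
    intro i
    have a := (sub_mem_Q (z + p).1 _).2 rfl i
    have b := (sub_mem_Q (z + q).1 _).2 rfl i
    rw [hα, PiLp.sub_apply, abs_lt]
    constructor <;> linarith [a.1, a.2, b.1, b.2]
  have hτ : p.1 - q.1 = iv (fun i => 2 * N i) + α := by
    have e : (fun i => 2 * N i) = cell (z + p).1 - cell (z + q).1 := by
      funext i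
      have a := (BT_data hp.1 i).1
      have b := (BT_data hq.1 i).1
      simp only [hN, Pi.sub_apply]
      omega
    rw [e, iv_sub, hα, Prod.fst_add, Prod.fst_add]
    abel
  have hw : ∀ i, |(p.2 - q.2) i| < 1 ∧
      ∃ m : ℤ, ∃ t : ℝ, 6 * (p.2 - q.2) i = m + t ∧ |t| * k < 1 := by
    intro i
    have := F1_diff hk (hp.2 i) (hq.2 i)
    have e : (z + p).2 i - (z + q).2 i = (p.2 - q.2) i := by simp
    rwa [e] at this
  rw [amb2 (AT k) AT_even p.1 q.1 p.2 q.2 α N hα1 hτ] at h0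
  have n1 : ∀ w x : EuclideanSpace ℝ (Fin 5), en w x ≠ 0 := fun w x => by
    rw [← norm_ne_zero_iff, norm_en]; exact one_ne_zero
  have h1 := ((mul_eq_zero.1 ((mul_eq_zero.1 h0).resolve_right
    (intQQ α _ hα1 fun i => (hw i).1))).resolve_left (n1 _ _))
  choose L hL using hd
  have hL' : ∀ i, N i = av j' i - av j i + 3 * L i := fun i => by
    have := hL i
    simp only [hN]
    linarith
  have hgeo : ∏ i, ∑ x : Fin k,
      (if 0 ≤ ((x : ℕ) : ℤ) + L i ∧ ((x : ℕ) : ℤ) + L i < k then 1 else 0) *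
        ee (((6 * ((x : ℕ) : ℤ) : ℤ) : ℝ) * (p.2 - q.2) i) ≠ 0 := by
    refine Finset.prod_ne_zero_iff.2 fun i _ => ?_
    obtain ⟨m, t, a, b⟩ := (hw i).2
    refine geo_win k (L i) m ?_ _ t a b
    have c1 := (BT_data hp.1 i).2
    have c2 := (BT_data hq.1 i).2
    have c3 := av01 j i
    have c4 := av01 j' i
    have c5 := hL i
    rw [abs_lt]
    omega
  by_cases hj : j = j'
  · subst hj
    rw [sumB N L (fun i => by rw [hL']; ring)] at h1
    exact ⟨rfl, (mul_eq_zero.1 h1).resolve_right hgeo⟩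
  · rw [sumA' j j' hj N L hL'] at h1
    exact absurd h1 (mul_ne_zero (n1 _ _) hgeo)

lemma count (hk : 0 < k) (S : Set (EuclideanSpace ℝ (Fin 5) × EuclideanSpace ℝ (Fin 5)))
    (h0 : ∀ p ∈ S, ∀ q ∈ S, p ≠ q →
      ∫ x, ((Om (AT k)).indicator (fun _ => (1 : ℂ)) (x - p.1) * en p.2 x) *
        conj ((Om (AT k)).indicator (fun _ => (1 : ℂ)) (x - q.1) * en q.2 x) = 0)
    (z : EuclideanSpace ℝ (Fin 5) × EuclideanSpace ℝ (Fin 5))
    (T : Finset (EuclideanSpace ℝ (Fin 5) × EuclideanSpace ℝ (Fin 5)))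
    (hT : ∀ p ∈ T, p ∈ S ∧ z + p ∈ Om (BT k) ×ˢ DF k) : T.card ≤ 240 := by
  classical
  let cls : EuclideanSpace ℝ (Fin 5) × EuclideanSpace ℝ (Fin 5) → Fin 5 → ZMod 3 :=
    fun p i => ((cell (z + p).1 i / 2 : ℤ) : ZMod 3)
  let ac : Fin 6 → Fin 5 → ZMod 3 := fun j i => (av j i : ZMod 3)
  have key : ∀ p ∈ T, ∀ q ∈ T, p ≠ q → ∀ j j' : Fin 6, cls p + ac j = cls q + ac j' →
      j = j' ∧ ∑ r : Fin 6, en (p.2 - q.2) (iv fun i => 2 * av r i) = 0 := by
    intro p hp q hq hne j j' h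
    refine pair hk z p q (hT p hp).2 (hT q hq).2 (h0 p (hT p hp).1 q (hT q hq).1 hne) j j'
      fun i => ?_
    have h1 := congrFun h i
    simp only [cls, ac, Pi.add_apply] at h1
    have := (ZMod.intCast_zmod_eq_zero_iff_dvd ((cell (z + p).1 i / 2 - cell (z + q).1 i / 2) -
      (av j' i - av j i)) 3).1 (by push_cast; linear_combination h1)
    exact_mod_cast this
  have fib : ∀ c ∈ T.image cls, (T.filter fun p => cls p = c).card ≤ 6 := by
    intro c _
    let v : (T.filter fun p => cls p = c) → EuclideanSpace ℂ (Fin 6) :=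
      fun p => WithLp.toLp 2 fun r => en p.1.2 (iv fun i => 2 * av r i)
    have hli : LinearIndependent ℂ v := by
      refine linearIndependent_of_ne_zero_of_inner_eq_zero (fun p hp => ?_) fun p q hne => ?_
      · have h1 := congrArg (fun u : EuclideanSpace ℂ (Fin 6) => ‖u 0‖) hp
        simp only [v, norm_en] at h1
        simp at h1
      · have hp := Finset.mem_filter.1 p.2
        have hq := Finset.mem_filter.1 q.2
        have := (key q hq.1 p hp.1 (fun h => hne (Subtype.ext h.symm)) 0 0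
          (by rw [hp.2, hq.2])).2
        show inner ℂ (v p) (v q) = 0
        rw [← this, PiLp.inner_apply]
        refine Finset.sum_congr rfl fun r _ => ?_
        rw [← en_mul_conj]
        simp [v]
    have := hli.fintype_card_le_finrank
    simpa using this
  have h1 := Finset.card_le_mul_card_image T 6 fib
  have h2 : (T.image cls ×ˢ (Finset.univ : Finset (Fin 6))).card ≤
      (Finset.univ : Finset (Fin 5 → ZMod 3)).card := by
    refine Finset.card_le_card_of_injOn (fun c => c.1 + ac c.2) (fun _ _ => Finset.mem_univ _) ?_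
    rintro ⟨c, j⟩ hc ⟨c', j'⟩ hc' h
    simp only [Finset.coe_product, mem_prod, Finset.mem_coe] at hc hc'
    obtain ⟨p, hp, rfl⟩ := Finset.mem_image.1 hc.1
    obtain ⟨q, hq, rfl⟩ := Finset.mem_image.1 hc'.1
    have hj : j = j' := by
      by_cases hpq : p = q
      · subst hpq
        have h3 : ac j = ac j' := add_left_cancel h
        refine inj3 j j' fun i => ?_
        have h4 := congrFun h3 i
        simp only [ac] at h4
        have := (ZMod.intCast_zmod_eq_zero_iff_dvd (av j i - av j' i) 3).1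
          (by push_cast; linear_combination h4)
        exact_mod_cast this
      · exact (key p hp q hq hpq j j' h).1
    subst hj
    have h5 : cls p = cls q := add_right_cancel h
    rw [h5]
  rw [Finset.card_product] at h2
  simp only [Finset.card_univ, Fintype.card_fin, Fintype.card_pi, ZMod.card, Finset.prod_const] at h2
  omega

lemma vol_AT (hk : 0 < k) : 0 < volume (Om (AT k)) ∧ volume (Om (AT k)) < ⊤ := by
  rw [vol_Om]
  have : (AT k).Nonempty := ⟨_, Finset.mem_image_of_mem _ (Finset.mem_univ (0, fun _ => ⟨0, hk⟩))⟩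
  exact ⟨by exact_mod_cast this.card_pos, ENNReal.natCast_lt_top _⟩

lemma no_gabor (hk : k = 200) (S : Set (EuclideanSpace ℝ (Fin 5) × EuclideanSpace ℝ (Fin 5)))
    (h0 : ∀ p ∈ S, ∀ q ∈ S, p ≠ q →
      ∫ x, ((Om (AT k)).indicator (fun _ => (1 : ℂ)) (x - p.1) * en p.2 x) *
        conj ((Om (AT k)).indicator (fun _ => (1 : ℂ)) (x - q.1) * en q.2 x) = 0)
    (hcomp : ∀ f : EuclideanSpace ℝ (Fin 5) → ℂ, MemLp f 2 volume →
      (∀ p ∈ S, ∫ x, f x *
        conj ((Om (AT k)).indicator (fun _ => (1 : ℂ)) (x - p.1) * en p.2 x) = 0) →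
      f =ᵐ[volume] 0) : False := by
  have hk0 : 0 < k := by omega
  have hkr : (0 : ℝ) < 1 / (6 * k) := by positivity
  have hopen : ∀ c : ℝ, IsOpen {x : EuclideanSpace ℝ (Fin 5) | ∀ i, x i ∈ Ioo 0 c} := by
    intro c
    have : {x : EuclideanSpace ℝ (Fin 5) | ∀ i, x i ∈ Ioo 0 c} =
        ⋂ i, (fun x : EuclideanSpace ℝ (Fin 5) => x i) ⁻¹' Ioo 0 c := by
      ext x; simp only [mem_ofPred_eq, mem_iInter, mem_preimage]
    rw [this]
    exact isOpen_iInter_of_finite fun i => isOpen_Ioo.preimage (by fun_prop)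
  have hne : ∀ c : ℝ, 0 < c → {x : EuclideanSpace ℝ (Fin 5) | ∀ i, x i ∈ Ioo 0 c}.Nonempty :=
    fun c hc => ⟨WithLp.toLp 2 fun _ => c / 2, fun i => ⟨half_pos hc, half_lt_self hc⟩⟩
  have h := gabor_density (Om (AT k)) (measurableSet_Om _) (vol_AT hk0).1 (vol_AT hk0).2 S h0 hcomp
    (Om (BT k) ×ˢ DF k) ((measurableSet_Om _).prod meas_DF) _
    ((hopen 1).prod (hopen (1 / (6 * k)))) ((hne 1 one_pos).prod (hne _ hkr)) ?_ 240
    (count hk0 S h0)
  · rw [Measure.volume_eq_prod, Measure.prod_prod, vol_Om, card_BT, vol_DF hk0,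
      ← ENNReal.ofReal_natCast, ← ENNReal.ofReal_mul (by positivity), ← ENNReal.ofReal_natCast,
      ENNReal.ofReal_le_ofReal_iff (by positivity), hk] at h
    norm_num at h
  · rintro ⟨x, y⟩ ⟨hx, hy⟩
    refine ⟨?_, fun i => ?_⟩
    · have e : cell x = 0 := (mem_Q x).1 fun i => ⟨(hx i).1, by linarith [(hx i).2]⟩
      show cell x ∈ BT k
      rw [e]
      refine Finset.mem_image.2 ⟨0, ?_, by funext i; simp⟩
      simp only [Fintype.mem_piFinset, Finset.mem_Ico, Pi.zero_apply]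
      intro _
      omega
    · simp only [F1, mem_iUnion, Finset.mem_range, exists_prop]
      exact ⟨0, by norm_num, by simpa using hy i⟩

lemma spectral_AT (hk : 0 < k) : ∃ Λ : Set (EuclideanSpace ℝ (Fin 5)),
    (∀ l ∈ Λ, ∀ l' ∈ Λ, l ≠ l' → ∫ x in Om (AT k), en (l' - l) x = 0) ∧
    (∀ f : EuclideanSpace ℝ (Fin 5) → ℂ, MemLp f 2 (volume.restrict (Om (AT k))) →
      (∀ l ∈ Λ, ∫ x in Om (AT k), f x * en l x = 0) → f =ᵐ[volume.restrict (Om (AT k))] 0) := by
  refine ⟨{l | ∃ p m, l = -(frq k p + iv m)}, ?_, ?_⟩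
  · rintro _ ⟨p, m, rfl⟩ _ ⟨p', m', rfl⟩ hne
    rw [neg_sub_neg]
    exact spec_orth hk p p' m m' fun h => hne (by rw [h])
  · intro f hf h
    refine complete_on (AT k) (frq k) (disc_compT hk) f hf fun p m => ?_
    rw [← h _ ⟨p, m, rfl⟩]
    congr 1
    funext x
    have := en_mul_conj 0 (frq k p + iv m) x
    rw [en_zero, one_mul, zero_sub] at this
    rw [this]

lemma en_eq {d : ℕ} (b x : EuclideanSpace ℝ (Fin d)) :
    Complex.exp (-(2 * (Real.pi : ℂ) * Complex.I * ((inner ℝ x b : ℝ) : ℂ))) = en b x := by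
  rw [en]; congr 1; ring

lemma en_eq' {d : ℕ} (l l' x : EuclideanSpace ℝ (Fin d)) :
    Complex.exp (2 * (Real.pi : ℂ) * Complex.I * ((inner ℝ x (l - l') : ℝ) : ℂ)) =
      en (l' - l) x := by
  rw [en, inner_sub_right, inner_sub_right]; congr 1; push_cast; ring

lemma final : ∃ E : Set (EuclideanSpace ℝ (Fin 5)), MeasurableSet E ∧ 0 < volume E ∧
    volume E < ⊤ ∧ (∃ Λ : Set (EuclideanSpace ℝ (Fin 5)),
    (∀ l ∈ Λ, ∀ l' ∈ Λ, l ≠ l' → ∫ x in E, en (l' - l) x = 0) ∧
    (∀ f : EuclideanSpace ℝ (Fin 5) → ℂ, MemLp f 2 (volume.restrict E) →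
      (∀ l ∈ Λ, ∫ x in E, f x * en l x = 0) → f =ᵐ[volume.restrict E] 0)) ∧
    ∀ S : Set (EuclideanSpace ℝ (Fin 5) × EuclideanSpace ℝ (Fin 5)),
      (∀ p ∈ S, ∀ q ∈ S, p ≠ q →
      ∫ x, (E.indicator (fun _ => (1 : ℂ)) (x - p.1) * en p.2 x) *
        conj (E.indicator (fun _ => (1 : ℂ)) (x - q.1) * en q.2 x) = 0) →
      (∀ f : EuclideanSpace ℝ (Fin 5) → ℂ, MemLp f 2 volume →
      (∀ p ∈ S, ∫ x, f x *
        conj (E.indicator (fun _ => (1 : ℂ)) (x - p.1) * en p.2 x) = 0) →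
      f =ᵐ[volume] 0) → False := by
  obtain ⟨k, hk⟩ : ∃ k : ℕ, k = 200 := ⟨_, rfl⟩
  have hk0 : 0 < k := by omega
  exact ⟨Om (AT k), measurableSet_Om _, (vol_AT hk0).1, (vol_AT hk0).2, spectral_AT hk0,
    no_gabor hk⟩

end Pool.Agent.H703Z.Sp
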