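import Pool.Agent.H703Z.GbAmb

set_option autoImplicit false
open MeasureTheory Real ComplexConjugate Set
open scoped ENNReal

namespace Pool.Agent.H703Z.Sp

/-- the six points `0, e_1, ..., e_5` -/
def av (j : Fin 6) : Fin 5 → ℤ := fun i => if j = i.succ then 1 else 0

/-- logarithms of a complex Hadamard matrix of cube roots of unity -/
def bv : Fin 6 → Fin 5 → ℤ :=
  ![![0, 0, 0, 0, 0], ![0, 1, 1, 2, 2], ![1, 0, 2, 2, 1], ![1, 2, 0, 1, 2], ![2, 2, 1, 0, 1],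
    ![2, 1, 2, 1, 0]]

/-- positions of the cells -/
def pos (k : ℕ) (q : Fin 6 × (Fin 5 → Fin k)) : Fin 5 → ℤ :=
  fun i => 2 * (av q.1 i + 3 * ((q.2 i : ℕ) : ℤ))

/-- the cells -/
def AT (k : ℕ) : Finset (Fin 5 → ℤ) := Finset.univ.image (pos k)

/-- the frequencies -/
noncomputable def frq (k : ℕ) (p : Fin 6 × (Fin 5 → Fin k)) : EuclideanSpace ℝ (Fin 5) :=
  WithLp.toLp 2 fun i => ((k : ℝ) * bv p.1 i + ((p.2 i : ℕ) : ℝ)) / (6 * k)

variable {k : ℕ}

lemma inj3 : ∀ j j' : Fin 6, (∀ i, 3 ∣ av j i - av j' i) → j = j' := by decide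

lemma sid : ∀ j j' p p' : Fin 6, p ≠ p' →
    (∀ i, 3 ∣ (av j i - av j' i) - (av p i - av p' i)) → j = p := by decide

lemma av01 (j : Fin 6) (i : Fin 5) : 0 ≤ av j i ∧ av j i ≤ 1 := by
  unfold av; split_ifs <;> simp

lemma pos_inj : Function.Injective (pos k) := by
  rintro ⟨j, l⟩ ⟨j', l'⟩ h
  have h1 : ∀ i, av j i + 3 * ((l i : ℕ) : ℤ) = av j' i + 3 * ((l' i : ℕ) : ℤ) := by
    intro i
    have := congrFun h i
    simp only [pos] at this
    linarith
  have h2 : j = j' := inj3 j j' fun i => ⟨(l' i : ℕ) - (l i : ℕ), by linarith [h1 i]⟩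
  subst h2
  congr 1
  funext i
  apply Fin.ext
  have := h1 i
  omega

lemma sumT (G : (Fin 5 → ℤ) → ℂ) :
    ∑ n ∈ AT k, G n = ∑ j : Fin 6, ∑ l : Fin 5 → Fin k, G (pos k (j, l)) := by
  rw [AT, Finset.sum_image (fun a _ b _ h => pos_inj h), Fintype.sum_prod_type]

lemma AT_even : ∀ n ∈ AT k, ∀ i, Even (n i) := by
  intro n hn i
  obtain ⟨q, -, rfl⟩ := Finset.mem_image.1 hn
  exact even_two_mul _

lemma en_pos (w : EuclideanSpace ℝ (Fin 5)) (j : Fin 6) (l : Fin 5 → Fin k) :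
    en w (iv (pos k (j, l))) = en w (iv fun i => 2 * av j i) *
      ∏ i, ee (((6 * ((l i : ℕ) : ℤ) : ℤ) : ℝ) * w i) := by
  rw [en_prod, en_prod, ← Finset.prod_mul_distrib]
  refine Finset.prod_congr rfl fun i _ => ?_
  rw [← ee_add]
  congr 1
  simp only [iv_apply, pos]
  push_cast; ring

lemma sum_prod (g : Fin 5 → Fin k → ℂ) :
    ∑ l : Fin 5 → Fin k, ∏ i, g i (l i) = ∏ i, ∑ x, g i x := by
  rw [Finset.prod_univ_sum, Fintype.piFinset_univ]

lemma w3 : ee (1 / 3) ^ 2 + ee (1 / 3) + 1 = 0 := by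
  have h1 : ee (1 / 3) ^ 3 = 1 := by
    rw [← ee_nat_mul]
    have := ee_int 1
    norm_num at this ⊢
    exact this
  have h2 : ee (1 / 3) ≠ 1 := exp_ne_one _ (by norm_num) (by rw [abs_of_pos] <;> norm_num)
  apply mul_left_cancel₀ (sub_ne_zero.2 h2)
  linear_combination h1

lemma ee3 (m : ℤ) : ee (m / 3) = ee (1 / 3) ^ (m % 3).toNat := by
  rw [← ee_nat_mul]
  have h1 : ((m % 3).toNat : ℤ) = m % 3 := Int.toNat_of_nonneg (Int.emod_nonneg _ (by norm_num))
  have h2 : ((m % 3).toNat : ℝ) = ((m % 3 : ℤ) : ℝ) := by exact_mod_cast h1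
  have h3 : (m : ℝ) = 3 * ((m / 3 : ℤ) : ℝ) + ((m % 3 : ℤ) : ℝ) := by
    exact_mod_cast (Int.mul_ediv_add_emod m 3).symm
  have : (m : ℝ) / 3 = ((m / 3 : ℤ) : ℝ) + ((m % 3).toNat : ℝ) * (1 / 3) := by
    rw [h2]; linarith
  rw [this, ee_add, ee_int, one_mul]

lemma had (p p' : Fin 6) (h : p ≠ p') : 1 + ∑ i, ee (((bv p i - bv p' i : ℤ) : ℝ) / 3) = 0 := by
  simp only [ee3, Fin.sum_univ_five]
  have := w3
  generalize ee (1 / 3) = ω at this ⊢
  fin_cases p <;> fin_cases p' <;> simp [bv] at h ⊢ <;> linear_combination 2 * this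

lemma sum_av (w : EuclideanSpace ℝ (Fin 5)) :
    ∑ j : Fin 6, en w (iv fun i => 2 * av j i) = 1 + ∑ i, ee (2 * w i) := by
  have e0 : ee 0 = 1 := by simp [ee]
  simp only [en_prod, Fin.sum_univ_six, Fin.prod_univ_five, Fin.sum_univ_five, iv_apply, av]
  simp [e0, Fin.ext_iff]
  ring

lemma disc_orthT (hk : 0 < k) (p p' : Fin 6 × (Fin 5 → Fin k)) (h : p ≠ p') :
    ∑ n ∈ AT k, en (frq k p - frq k p') (iv n) = 0 := by
  obtain ⟨b, g⟩ := p
  obtain ⟨b', g'⟩ := p'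
  have hkr : (k : ℝ) ≠ 0 := by positivity
  rw [sumT]
  simp only [en_pos]
  simp only [← Finset.mul_sum]
  rw [← Finset.sum_mul, sum_prod (fun i x => ee (((6 * ((x : ℕ) : ℤ) : ℤ) : ℝ) *
    (frq k (b, g) - frq k (b', g')) i))]
  by_cases hg : g = g'
  · subst hg
    have hb : b ≠ b' := fun hb => h (by rw [hb])
    rw [sum_av]
    have : ∀ i, 2 * (frq k (b, g) - frq k (b', g)) i = ((bv b i - bv b' i : ℤ) : ℝ) / 3 := by
      intro i
      simp only [frq, PiLp.sub_apply]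
      push_cast; field_simp; ring
    simp only [this]
    rw [had b b' hb, zero_mul]
  · obtain ⟨i, hi⟩ := Function.ne_iff.1 hg
    rw [Finset.prod_eq_zero (Finset.mem_univ i), mul_zero]
    set t : ℝ := (((g i : ℕ) : ℝ) - ((g' i : ℕ) : ℝ)) / k with ht
    have e : ∀ x : ℕ, ee (((6 * (x : ℤ) : ℤ) : ℝ) * (frq k (b, g) - frq k (b', g')) i) =
        ee t ^ x := by
      intro x
      have : ((6 * (x : ℤ) : ℤ) : ℝ) * (frq k (b, g) - frq k (b', g')) i =
          ((x * (bv b i - bv b' i) : ℤ) : ℝ) + x * t := by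
        simp only [frq, PiLp.sub_apply, ht]
        push_cast; field_simp; ring
      rw [this, ee_add, ee_int, one_mul, ee_nat_mul]
    simp only [e]
    rw [Fin.sum_univ_eq_sum_range (fun x : ℕ => ee t ^ x) k]
    have h1 : ee t ≠ 1 := by
      refine exp_ne_one t ?_ ?_
      · rw [ht]
        refine div_ne_zero (sub_ne_zero.2 fun h => hi (Fin.ext ?_)) hkr
        exact_mod_cast h
      · have a1 : ((g i : ℕ) : ℝ) < k := by exact_mod_cast (g i).2
        have a2 : ((g' i : ℕ) : ℝ) < k := by exact_mod_cast (g' i).2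
        have a3 : (0 : ℝ) ≤ ((g i : ℕ) : ℝ) := by positivity
        have a4 : (0 : ℝ) ≤ ((g' i : ℕ) : ℝ) := by positivity
        rw [ht, abs_div, abs_of_pos (by positivity : (0 : ℝ) < k), div_lt_one (by positivity),
          abs_lt]
        constructor <;> linarith
    have h2 : ee t ^ k = 1 := by
      rw [← ee_nat_mul, ← ee_int (((g i : ℕ) : ℤ) - ((g' i : ℕ) : ℤ))]
      congr 1
      rw [ht]; push_cast; field_simp
    rw [geom_sum_eq h1, h2]; simp

lemma disc_compT (hk : 0 < k) (F : (Fin 5 → ℤ) → ℂ)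
    (h : ∀ p, ∑ n ∈ AT k, F n * conj (en (frq k p) (iv n)) = 0) : ∀ n ∈ AT k, F n = 0 := by
  classical
  let M : Matrix (Fin 6 × (Fin 5 → Fin k)) (Fin 6 × (Fin 5 → Fin k)) ℂ :=
    fun p q => conj (en (frq k p) (iv (pos k q)))
  let N : Matrix (Fin 6 × (Fin 5 → Fin k)) (Fin 6 × (Fin 5 → Fin k)) ℂ :=
    fun q p => ((AT k).card : ℂ)⁻¹ * en (frq k p) (iv (pos k q))
  have hc : ((AT k).card : ℂ) ≠ 0 := by
    have : (AT k).Nonempty := ⟨_, Finset.mem_image_of_mem _ (Finset.mem_univ (0, fun _ => ⟨0, hk⟩))⟩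
    exact_mod_cast this.card_pos.ne'
  have hs : ∀ G : (Fin 5 → ℤ) → ℂ, ∑ n ∈ AT k, G n = ∑ q, G (pos k q) := fun G => by
    rw [AT, Finset.sum_image (fun a _ b _ h => pos_inj h)]
  have h1 : M * N = 1 := by
    ext p p'
    have : (M * N) p p' = ((AT k).card : ℂ)⁻¹ * ∑ n ∈ AT k, en (frq k p' - frq k p) (iv n) := by
      rw [Matrix.mul_apply, hs, Finset.mul_sum]
      refine Finset.sum_congr rfl fun q _ => ?_
      simp only [M, N, ← en_mul_conj]
      ring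
    rw [this, Matrix.one_apply]
    split_ifs with hp
    · subst hp
      simp [en_zero, hc]
    · rw [disc_orthT hk _ _ (Ne.symm hp), mul_zero]
  have h2 : N * M = 1 := mul_eq_one_comm.1 h1
  have h3 : M.mulVec (fun q => F (pos k q)) = 0 := by
    funext p
    rw [Pi.zero_apply, ← h p, hs]
    simp only [Matrix.mulVec, dotProduct, M, mul_comm]
  have h4 : (fun q => F (pos k q)) = 0 := by
    rw [← Matrix.one_mulVec (fun q => F (pos k q)), ← h2, ← Matrix.mulVec_mulVec, h3,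
      Matrix.mulVec_zero]
  intro n hn
  obtain ⟨q, -, rfl⟩ := Finset.mem_image.1 hn
  exact congrFun h4 q

lemma spec_orth (hk : 0 < k) (p p' : Fin 6 × (Fin 5 → Fin k)) (m m' : Fin 5 → ℤ)
    (h : frq k p + iv m ≠ frq k p' + iv m') :
    ∫ x in Om (AT k), en (frq k p + iv m - (frq k p' + iv m')) x = 0 := by
  rw [ft_Om]
  have e : frq k p + iv m - (frq k p' + iv m') = frq k p - frq k p' + iv (m - m') := by
    rw [iv_sub]; abel
  rw [e]
  by_cases hp : p = p'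
  · subst hp
    have hm : m ≠ m' := fun hm => h (by rw [hm])
    obtain ⟨i, hi⟩ := Function.ne_iff.1 hm
    rw [Finset.prod_eq_zero (Finset.mem_univ i), mul_zero]
    rw [sub_self, zero_add, iv_apply]
    exact ph_int _ (sub_ne_zero.2 hi)
  · simp only [en_add_left, en_iv_iv, mul_one]
    rw [disc_orthT hk p p' hp, zero_mul]

lemma memT (j j' : Fin 6) (N L : Fin 5 → ℤ) (hN : ∀ i, N i = av j' i - av j i + 3 * L i)
    (l : Fin 5 → Fin k) : (pos k (j, l) + fun i => 2 * N i) ∈ AT k ↔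
      ∀ i, 0 ≤ ((l i : ℕ) : ℤ) + L i ∧ ((l i : ℕ) : ℤ) + L i < k := by
  constructor
  · intro h
    obtain ⟨⟨j2, l2⟩, -, h2⟩ := Finset.mem_image.1 h
    have h1 : ∀ i, av j2 i + 3 * ((l2 i : ℕ) : ℤ) = av j' i + 3 * (((l i : ℕ) : ℤ) + L i) := by
      intro i
      have := congrFun h2 i
      simp only [pos, Pi.add_apply, hN] at this
      linarith
    have h3 : j2 = j' :=
      inj3 _ _ fun i => ⟨((l i : ℕ) : ℤ) + L i - (l2 i : ℕ), by linarith [h1 i]⟩
    subst h3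
    intro i
    have := h1 i
    have := (l2 i).2
    omega
  · intro h
    refine Finset.mem_image.2 ⟨(j', fun i => ⟨(((l i : ℕ) : ℤ) + L i).toNat, by
      have := h i; omega⟩), Finset.mem_univ _, ?_⟩
    funext i
    have := h i
    simp only [pos, Pi.add_apply, hN, Int.toNat_of_nonneg this.1]
    ring

lemma inner_sum (j j' : Fin 6) (N L : Fin 5 → ℤ) (hN : ∀ i, N i = av j' i - av j i + 3 * L i)
    (w : EuclideanSpace ℝ (Fin 5)) :
    ∑ l : Fin 5 → Fin k, (if (pos k (j, l) + fun i => 2 * N i) ∈ AT k then 1 else 0) *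
      en w (iv (pos k (j, l))) = en w (iv fun i => 2 * av j i) *
      ∏ i, ∑ x : Fin k, (if 0 ≤ ((x : ℕ) : ℤ) + L i ∧ ((x : ℕ) : ℤ) + L i < k then 1 else 0) *
        ee (((6 * ((x : ℕ) : ℤ) : ℤ) : ℝ) * w i) := by
  rw [← sum_prod, Finset.mul_sum]
  refine Finset.sum_congr rfl fun l _ => ?_
  rw [en_pos, Finset.prod_mul_distrib, Finset.prod_boole]
  simp only [memT j j' N L hN, Finset.mem_univ, forall_true_left]
  split_ifs <;> ring

lemma sumB (N L : Fin 5 → ℤ) (hN : ∀ i, N i = 3 * L i) (w : EuclideanSpace ℝ (Fin 5)) :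
    ∑ n ∈ AT k, (if (n + fun i => 2 * N i) ∈ AT k then 1 else 0) * en w (iv n) =
      (∑ j : Fin 6, en w (iv fun i => 2 * av j i)) *
      ∏ i, ∑ x : Fin k, (if 0 ≤ ((x : ℕ) : ℤ) + L i ∧ ((x : ℕ) : ℤ) + L i < k then 1 else 0) *
        ee (((6 * ((x : ℕ) : ℤ) : ℤ) : ℝ) * w i) := by
  rw [sumT, Finset.sum_mul]
  exact Finset.sum_congr rfl fun j _ => inner_sum j j N L (fun i => by rw [hN]; ring) w

lemma sumA' (p p' : Fin 6) (hp : p ≠ p') (N L : Fin 5 → ℤ)
    (hN : ∀ i, N i = av p' i - av p i + 3 * L i) (w : EuclideanSpace ℝ (Fin 5)) :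
    ∑ n ∈ AT k, (if (n + fun i => 2 * N i) ∈ AT k then 1 else 0) * en w (iv n) =
      en w (iv fun i => 2 * av p i) *
      ∏ i, ∑ x : Fin k, (if 0 ≤ ((x : ℕ) : ℤ) + L i ∧ ((x : ℕ) : ℤ) + L i < k then 1 else 0) *
        ee (((6 * ((x : ℕ) : ℤ) : ℤ) : ℝ) * w i) := by
  rw [sumT, Finset.sum_eq_single p, inner_sum p p' N L hN w]
  · intro j _ hj
    refine Finset.sum_eq_zero fun l _ => ?_
    rw [if_neg, zero_mul]
    intro h
    obtain ⟨⟨j2, l2⟩, -, h2⟩ := Finset.mem_image.1 h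
    refine hj (sid j j2 p p' hp fun i => ?_)
    have := congrFun h2 i
    simp only [pos, Pi.add_apply, hN] at this
    exact ⟨((l2 i : ℕ) : ℤ) - (l i : ℕ) - L i, by linarith⟩
  · intro h; exact absurd (Finset.mem_univ p) h

end Pool.Agent.H703Z.Sp
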