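import Pool.Agent.H703Z.SpPack

set_option autoImplicit false
open MeasureTheory Real ComplexConjugate Set
open scoped ENNReal

namespace Pool.Agent.H703Z.Sp

variable {d : ℕ}

/-- the half-open unit cube -/
def Q (d : ℕ) : Set (EuclideanSpace ℝ (Fin d)) := {x | ∀ i, x i ∈ Ioc (0 : ℝ) (0 + 1)}

/-- integer vectors -/
noncomputable def iv (n : Fin d → ℤ) : EuclideanSpace ℝ (Fin d) :=
  WithLp.toLp 2 (fun i => (n i : ℝ))

/-- the index of the unit cell containing `x` -/
noncomputable def cell (x : EuclideanSpace ℝ (Fin d)) : Fin d → ℤ := fun i => ⌈x i⌉ - 1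

/-- the union of the unit cells indexed by `A` -/
def Om (A : Finset (Fin d → ℤ)) : Set (EuclideanSpace ℝ (Fin d)) := {x | cell x ∈ A}

@[simp] lemma iv_apply (n : Fin d → ℤ) (i : Fin d) : iv n i = n i := rfl

lemma iv_add (m n : Fin d → ℤ) : iv (m + n) = iv m + iv n := by
  ext i; simp

lemma iv_sub (m n : Fin d → ℤ) : iv (m - n) = iv m - iv n := by
  ext i; simp

lemma measurableSet_Q : MeasurableSet (Q d) := by
  have : Q d = ⋂ i, (fun x : EuclideanSpace ℝ (Fin d) => x i) ⁻¹' Ioc (0 : ℝ) (0 + 1) := by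
    ext x; simp [Q]
  rw [this]
  exact MeasurableSet.iInter fun i => measurableSet_Ioc.preimage (by fun_prop)

lemma cell_add (x : EuclideanSpace ℝ (Fin d)) (n : Fin d → ℤ) : cell (x + iv n) = cell x + n := by
  funext i
  simp only [cell, PiLp.add_apply, iv_apply, Int.ceil_add_intCast, Pi.add_apply]
  ring

lemma cell_sub (x : EuclideanSpace ℝ (Fin d)) (n : Fin d → ℤ) : cell (x - iv n) = cell x - n := by
  have := cell_add (x - iv n) n
  rw [sub_add_cancel] at this
  rw [this]; simp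

lemma mem_Q (x : EuclideanSpace ℝ (Fin d)) : x ∈ Q d ↔ cell x = 0 := by
  simp only [Q, mem_ofPred_eq, funext_iff, cell, Pi.zero_apply, sub_eq_zero, Int.ceil_eq_iff,
    mem_Ioc]
  simp

lemma sub_mem_Q (x : EuclideanSpace ℝ (Fin d)) (n : Fin d → ℤ) : x - iv n ∈ Q d ↔ cell x = n := by
  rw [mem_Q, cell_sub, sub_eq_zero]

lemma measurable_cell : Measurable (cell : EuclideanSpace ℝ (Fin d) → Fin d → ℤ) := by
  refine measurable_pi_lambda _ fun i => ?_
  have h : Measurable fun x : EuclideanSpace ℝ (Fin d) => x i := by fun_prop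
  exact (h.ceil).sub_const 1

lemma measurableSet_Om (A : Finset (Fin d → ℤ)) : MeasurableSet (Om A) :=
  measurable_cell (A.countable_toSet.measurableSet)

lemma setInt (F : EuclideanSpace ℝ (Fin d) → ℂ) :
    ∫ x in Q d, F x = ∫ x in {x : Fin d → ℝ | ∀ i, x i ∈ Ioc (0 : ℝ) (0 + 1)},
      F (WithLp.toLp 2 x) := by
  have h := (PiLp.volume_preserving_toLp (Fin d)).setIntegral_preimage_emb
    (MeasurableEquiv.toLp 2 (Fin d → ℝ)).measurableEmbedding F (Q d)
  rw [← h]
  rfl

lemma vol_Q : volume (Q d) = 1 := by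
  rw [← (PiLp.volume_preserving_toLp (Fin d)).measure_preimage
    measurableSet_Q.nullMeasurableSet]
  have : (WithLp.toLp 2) ⁻¹' (Q d) = Set.pi univ (fun _ => Ioc (0 : ℝ) (0 + 1)) := by
    ext x; simp [Q]
  rw [this, Real.volume_pi_Ioc]
  simp

lemma ind_Om {β : Type*} [AddCommMonoid β] (A : Finset (Fin d → ℤ))
    (x : EuclideanSpace ℝ (Fin d)) (c : β) :
    (Om A).indicator (fun _ => c) x = ∑ n ∈ A, (Q d).indicator (fun _ => c) (x - iv n) := by
  classical
  simp only [indicator, sub_mem_Q, Om, mem_ofPred_eq]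
  rw [Finset.sum_ite_eq]

lemma vol_Om (A : Finset (Fin d → ℤ)) : volume (Om A) = A.card := by
  rw [← lintegral_indicator_one (measurableSet_Om A)]
  have : ∀ x, (Om A).indicator (1 : EuclideanSpace ℝ (Fin d) → ℝ≥0∞) x =
      ∑ n ∈ A, (Q d).indicator (fun _ => (1 : ℝ≥0∞)) (x - iv n) := fun x => ind_Om A x 1
  simp_rw [this]
  rw [lintegral_finsetSum]
  · have : ∀ n ∈ A, ∫⁻ x, (Q d).indicator (fun _ => (1 : ℝ≥0∞)) (x - iv n) = 1 := by
      intro n _
      rw [lintegral_sub_right_eq_self ((Q d).indicator (fun _ => (1 : ℝ≥0∞))) (iv n),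
        lintegral_indicator_const measurableSet_Q, vol_Q, mul_one]
    rw [Finset.sum_congr rfl this]; simp
  · intro n _
    exact (measurable_const.indicator measurableSet_Q).comp (by fun_prop)

lemma fold (A : Finset (Fin d → ℤ)) (t : Fin d → ℤ) (H : EuclideanSpace ℝ (Fin d) → ℂ)
    (hH : ∀ n, IntegrableOn (fun u => H (u + iv n)) (Q d) volume) :
    ∫ x, H x * (Om A).indicator (fun _ => (1 : ℂ)) (x - iv t) =
      ∫ u in Q d, ∑ n ∈ A, H (u + iv (n + t)) := by
  have key : ∀ x, H x * (Om A).indicator (fun _ => (1 : ℂ)) (x - iv t) =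
      ∑ n ∈ A, (Q d).indicator (fun u => H (u + iv (n + t))) (x - iv (n + t)) := by
    intro x
    rw [ind_Om, Finset.mul_sum]
    refine Finset.sum_congr rfl fun n _ => ?_
    have e : x - iv t - iv n = x - iv (n + t) := by rw [iv_add]; abel
    rw [e]
    by_cases h : x - iv (n + t) ∈ Q d
    · simp [indicator, h]
    · simp [indicator, h]
  simp_rw [key]
  rw [integral_finsetSum, integral_finsetSum _ (fun n _ => hH _)]
  · refine Finset.sum_congr rfl fun n _ => ?_
    rw [integral_sub_right_eq_self _ (iv (n + t)), integral_indicator measurableSet_Q]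
  · intro n _
    exact ((integrable_indicator_iff measurableSet_Q).2 (hH _)).comp_sub_right _

/-- one-dimensional factor -/
noncomputable def ph (s : ℝ) : ℂ :=
  ∫ u in Ioc (0 : ℝ) (0 + 1), Complex.exp (-2 * (Real.pi : ℂ) * Complex.I * ((u * s : ℝ) : ℂ))

lemma inner_eq (x w : EuclideanSpace ℝ (Fin d)) : (inner ℝ x w : ℝ) = ∑ i, x i * w i := by
  simp [PiLp.inner_apply, mul_comm]

lemma int_en (w : EuclideanSpace ℝ (Fin d)) : ∫ u in Q d, en w u = ∏ i, ph (w i) := by
  rw [setInt]
  have h1 : {x : Fin d → ℝ | ∀ i, x i ∈ Ioc (0 : ℝ) (0 + 1)} =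
      Set.pi univ (fun _ => Ioc (0 : ℝ) (0 + 1)) := by
    ext x; simp
  have h2 : ∀ x : Fin d → ℝ, en w (WithLp.toLp 2 x) =
      ∏ i, Complex.exp (-2 * (Real.pi : ℂ) * Complex.I * ((x i * w i : ℝ) : ℂ)) := by
    intro x
    rw [en, inner_eq, ← Complex.exp_sum]
    congr 1
    push_cast
    rw [Finset.mul_sum]
  simp_rw [h2]
  rw [h1, volume_pi, Measure.restrict_pi_pi]
  exact integral_fintype_prod_eq_prod
    (fun i (u : ℝ) => Complex.exp (-2 * (Real.pi : ℂ) * Complex.I * ((u * w i : ℝ) : ℂ)))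

lemma ph_eq (s : ℝ) (hs : s ≠ 0) : ph s =
    (Complex.exp (-2 * (Real.pi : ℂ) * Complex.I * s) - 1) / (-2 * (Real.pi : ℂ) * Complex.I * s) := by
  have hc : (-2 * (Real.pi : ℂ) * Complex.I * s) ≠ 0 := by
    simp [hs, Real.pi_ne_zero]
  rw [ph, ← intervalIntegral.integral_of_le (by norm_num)]
  have := integral_exp_mul_complex (a := 0) (b := 0 + 1) hc
  simp only [zero_add, Complex.ofReal_one, mul_one, Complex.ofReal_zero, mul_zero,
    Complex.exp_zero] at this ⊢
  rw [← this]
  congr 1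
  funext u
  congr 1
  push_cast; ring

lemma ph_zero : ph 0 = 1 := by simp [ph]

lemma ph_int (m : ℤ) (hm : m ≠ 0) : ph m = 0 := by
  rw [ph_eq _ (by exact_mod_cast hm)]
  have : Complex.exp (-2 * (Real.pi : ℂ) * Complex.I * ((m : ℝ) : ℂ)) = 1 := by
    rw [Complex.exp_eq_one_iff]
    exact ⟨-m, by push_cast; ring⟩
  rw [this]; simp

lemma exp_ne_one (s : ℝ) (hs : s ≠ 0) (h1 : |s| < 1) :
    Complex.exp (-2 * (Real.pi : ℂ) * Complex.I * s) ≠ 1 := by
  intro h
  rw [Complex.exp_eq_one_iff] at h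
  obtain ⟨n, hn⟩ := h
  have hc : (2 * (Real.pi : ℂ) * Complex.I) ≠ 0 := by simp [Real.pi_ne_zero]
  have : (s : ℂ) = ((-n : ℤ) : ℂ) := by
    apply mul_left_cancel₀ hc
    push_cast
    linear_combination -hn
  have h2 : s = ((-n : ℤ) : ℝ) := by exact_mod_cast this
  rw [h2] at h1 hs
  have h3 : |(-n)| < 1 := by exact_mod_cast h1
  have h4 : -n = 0 := Int.abs_lt_one_iff.1 h3
  rw [h4] at hs
  simp at hs

lemma ph_ne (s : ℝ) (h1 : |s| < 1) : ph s ≠ 0 := by
  by_cases hs : s = 0
  · rw [hs, ph_zero]; exact one_ne_zero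
  · rw [ph_eq s hs]
    exact div_ne_zero (sub_ne_zero.2 (exp_ne_one s hs h1)) (by simp [hs, Real.pi_ne_zero])

lemma en_iv_iv (m n : Fin d → ℤ) : en (iv m) (iv n) = 1 := by
  rw [en, inner_eq, Complex.exp_eq_one_iff]
  refine ⟨-∑ i, n i * m i, ?_⟩
  simp only [iv_apply]
  push_cast; ring

lemma en_add_left (a b x : EuclideanSpace ℝ (Fin d)) : en (a + b) x = en a x * en b x := by
  rw [en, en, en, ← Complex.exp_add, inner_add_right]
  congr 1
  push_cast; ring

lemma mF (n : Fin d → ℤ) (x : Fin d → ℝ) :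
    UnitAddTorus.mFourier n (fun i => (x i : UnitAddCircle)) =
      conj (en (iv n) (WithLp.toLp 2 x)) := by
  rw [en, inner_eq, ← Complex.exp_conj]
  simp only [UnitAddTorus.mFourier, ContinuousMap.coe_mk, fourier_coe_apply]
  rw [← Complex.exp_sum]
  congr 1
  simp only [map_mul, map_neg, Complex.conj_ofReal, Complex.conj_I, map_ofNat, iv_apply]
  push_cast
  rw [Finset.mul_sum]
  refine Finset.sum_congr rfl fun i _ => ?_
  ring

lemma uniq (F : EuclideanSpace ℝ (Fin d) → ℂ) (hF : MemLp F 2 (volume.restrict (Q d)))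
    (h : ∀ n : Fin d → ℤ, ∫ x in Q d, F x * conj (en (iv n) x) = 0) :
    ∀ᵐ x ∂volume, x ∈ Q d → F x = 0 := by
  let b : Fin d → ℝ := fun _ => 0
  let φ : UnitAddTorus (Fin d) → EuclideanSpace ℝ (Fin d) := fun t =>
    WithLp.toLp 2 (UnitAddTorus.measurableEquivPiIoc b t).1
  have hS : MeasurableSet {x : Fin d → ℝ | ∀ i, x i ∈ Ioc (b i) (b i + 1)} :=
    MeasurableSet.univ_pi' (fun i => measurableSet_Ioc)
  have h1 := UnitAddTorus.measurePreserving_equivPiIoc b
  have h2 := measurePreserving_subtype_coe (μa := (volume : Measure (Fin d → ℝ))) hS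
  have h3 := (PiLp.volume_preserving_toLp (Fin d)).restrict_preimage (measurableSet_Q (d := d))
  have hφ : MeasurePreserving φ
      (Measure.pi fun _ : Fin d => (AddCircle.haarAddCircle : Measure UnitAddCircle))
      (volume.restrict (Q d)) := h3.comp (h2.comp h1)
  have hemb : MeasurableEmbedding φ :=
    (MeasurableEquiv.toLp 2 (Fin d → ℝ)).measurableEmbedding.comp
      ((MeasurableEmbedding.subtype_coe hS).comp
        (UnitAddTorus.measurableEquivPiIoc b).measurableEmbedding)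
  have hG : MemLp (F ∘ φ) 2
      (Measure.pi fun _ : Fin d => (AddCircle.haarAddCircle : Measure UnitAddCircle)) :=
    hF.comp_measurePreserving hφ
  have hc : ∀ t : UnitAddTorus (Fin d), ∀ n : Fin d → ℤ,
      UnitAddTorus.mFourier n t = conj (en (iv n) (φ t)) := by
    intro t n
    rw [← mF]
    congr 1
    funext i
    simp
  have hG1 : UnitAddTorus.mFourierBasis.repr (hG.toLp (F ∘ φ)) = 0 := by
    ext n
    have h1 := UnitAddTorus.mFourierBasis_repr (hG.toLp (F ∘ φ)) n
    rw [h1]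
    unfold UnitAddTorus.mFourierCoeff
    refine Eq.trans ?_ (h (-n))
    rw [← hφ.integral_comp hemb]
    apply integral_congr_ae
    filter_upwards [hG.coeFn_toLp] with t ht
    rw [smul_eq_mul, ht, hc, mul_comm]
    rfl
  have hG0 : hG.toLp (F ∘ φ) = 0 := (LinearIsometryEquiv.map_eq_zero_iff _).1 hG1
  have h4 := hG.coeFn_toLp
  rw [hG0] at h4
  have h5 : (F ∘ φ) =ᵐ[Measure.pi fun _ : Fin d =>
      (AddCircle.haarAddCircle : Measure UnitAddCircle)] 0 := h4.symm.trans (Lp.coeFn_zero _ _ _)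
  rw [← ae_restrict_iff' measurableSet_Q, ← hφ.map_eq, hemb.ae_map_iff]
  exact h5

lemma intOn (H : EuclideanSpace ℝ (Fin d) → ℂ) (hH : MemLp H 2 (volume.restrict (Q d))) :
    IntegrableOn H (Q d) volume := by
  have : IsFiniteMeasure (volume.restrict (Q d)) := ⟨by simp [vol_Q]⟩
  exact hH.integrable (by norm_num)

lemma memLp_bdd {μ : Measure (EuclideanSpace ℝ (Fin d))} (φ H : EuclideanSpace ℝ (Fin d) → ℂ)
    (hφ : Measurable φ) (hb : ∀ x, ‖φ x‖ ≤ 1)
    (hH : MemLp H 2 μ) : MemLp (fun x => H x * φ x) 2 μ := by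
  refine hH.of_le (hH.1.mul hφ.aestronglyMeasurable) (ae_of_all _ fun x => ?_)
  rw [norm_mul]
  exact mul_le_of_le_one_right (norm_nonneg _) (hb x)

lemma intOn_bdd (φ : EuclideanSpace ℝ (Fin d) → ℂ) (hφ : Measurable φ) (hb : ∀ x, ‖φ x‖ ≤ 1) :
    IntegrableOn φ (Q d) volume := by
  have : IsFiniteMeasure (volume.restrict (Q d)) := ⟨by simp [vol_Q]⟩
  exact intOn _ (MemLp.of_bound hφ.aestronglyMeasurable 1 (ae_of_all _ hb))

/-- Fourier transform of a union of cells -/
lemma ft_Om (A : Finset (Fin d → ℤ)) (w : EuclideanSpace ℝ (Fin d)) :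
    ∫ x in Om A, en w x = (∑ n ∈ A, en w (iv n)) * ∏ i, ph (w i) := by
  have h := fold A 0 (en w) (fun n => intOn_bdd _
    ((cont_en w).measurable.comp (by fun_prop)) (fun x => (norm_en _ _).le))
  have e : iv (0 : Fin d → ℤ) = 0 := by ext i; simp
  rw [← integral_indicator (measurableSet_Om A)]
  have e2 : (Om A).indicator (en w) =
      fun x => en w x * (Om A).indicator (fun _ => (1 : ℂ)) (x - iv 0) := by
    funext x
    rw [e, sub_zero]
    by_cases hx : x ∈ Om A <;> simp [indicator, hx]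
  rw [e2, h, ← int_en, ← integral_const_mul]
  congr 1
  funext u
  rw [Finset.sum_mul]
  refine Finset.sum_congr rfl fun n _ => ?_
  rw [add_zero, en_add_right, mul_comm]

/-- Cross ambiguity of two shifted cell unions -/
lemma amb (A : Finset (Fin d → ℤ)) (t t' : Fin d → ℤ) (w w' : EuclideanSpace ℝ (Fin d)) :
    ∫ x, ((Om A).indicator (fun _ => (1 : ℂ)) (x - iv t) * en w x) *
      conj ((Om A).indicator (fun _ => (1 : ℂ)) (x - iv t') * en w' x) =
      en (w - w') (iv t) * (∑ n ∈ A, (if n + (t - t') ∈ A then 1 else 0) * en (w - w') (iv n)) *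
        ∏ i, ph ((w - w') i) := by
  classical
  let H : EuclideanSpace ℝ (Fin d) → ℂ := fun x =>
    (Om A).indicator (fun _ => (1 : ℂ)) (x - iv t') * en (w - w') x
  have hm : Measurable H :=
    ((measurable_const.indicator (measurableSet_Om A)).comp (by fun_prop)).mul
      (cont_en _).measurable
  have hb : ∀ x, ‖H x‖ ≤ 1 := by
    intro x
    simp only [H, norm_mul, norm_en, mul_one, indicator]
    split_ifs <;> simp
  have h := fold A t H (fun n => intOn_bdd _ (hm.comp (by fun_prop)) (fun x => hb _))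
  have e : ∀ x, ((Om A).indicator (fun _ => (1 : ℂ)) (x - iv t) * en w x) *
      conj ((Om A).indicator (fun _ => (1 : ℂ)) (x - iv t') * en w' x) =
      H x * (Om A).indicator (fun _ => (1 : ℂ)) (x - iv t) := by
    intro x
    simp only [H, map_mul, ← en_mul_conj, indicator]
    split_ifs <;> simp
  simp_rw [e]
  rw [h, ← int_en, ← integral_const_mul]
  refine setIntegral_congr_fun measurableSet_Q fun u hu => ?_
  simp only [H]
  rw [Finset.mul_sum, Finset.sum_mul]
  refine Finset.sum_congr rfl fun n _ => ?_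
  have hc : cell (u + iv (n + t) - iv t') = n + (t - t') := by
    rw [cell_sub, cell_add, (mem_Q u).1 hu]; abel
  rw [iv_add, en_add_right, en_add_right, ← iv_add]
  simp only [indicator, Om, mem_ofPred_eq, hc]
  ring

/-- From discrete completeness to completeness in `L²`. -/
lemma complete_of (A : Finset (Fin d → ℤ)) {J : Type} [Countable J] (t : J → Fin d → ℤ)
    (w : J → EuclideanSpace ℝ (Fin d))
    (hdisc : ∀ F : (Fin d → ℤ) → ℂ,
      (∀ j, ∑ n ∈ A, F (n + t j) * conj (en (w j) (iv (n + t j))) = 0) → ∀ n, F n = 0)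
    (f : EuclideanSpace ℝ (Fin d) → ℂ) (hf : MemLp f 2 volume)
    (h : ∀ j, ∀ m : Fin d → ℤ, ∫ x, f x *
      conj ((Om A).indicator (fun _ => (1 : ℂ)) (x - iv (t j)) * en (w j + iv m) x) = 0) :
    f =ᵐ[volume] 0 := by
  have hsh : ∀ n : Fin d → ℤ, MemLp (fun u => f (u + iv n)) 2 (volume.restrict (Q d)) := fun n =>
    (hf.comp_measurePreserving (measurePreserving_add_right volume (iv n))).restrict _
  have hcm : ∀ v c : EuclideanSpace ℝ (Fin d), Measurable fun u => conj (en v (u + c)) :=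
    fun v c => (Complex.continuous_conj.comp ((cont_en v).comp (by fun_prop))).measurable
  have hcb : ∀ v x : EuclideanSpace ℝ (Fin d), ‖conj (en v x)‖ ≤ 1 := fun v x => by
    rw [Complex.norm_conj, norm_en]
  have h1 : ∀ j, ∀ᵐ u ∂volume, u ∈ Q d →
      ∑ n ∈ A, f (u + iv (n + t j)) * conj (en (w j) (u + iv (n + t j))) = 0 := by
    intro j
    refine uniq _ (memLp_finsetSum _ fun n _ =>
      memLp_bdd _ _ (hcm _ _) (fun x => hcb _ _) (hsh _)) fun m => ?_
    have h2 := fold A (t j) (fun x => f x * conj (en (w j + iv m) x)) (fun n =>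
      intOn _ (memLp_bdd _ _ (hcm _ _) (fun x => hcb _ _) (hsh n)))
    have e : ∀ x, f x *
        conj ((Om A).indicator (fun _ => (1 : ℂ)) (x - iv (t j)) * en (w j + iv m) x) =
        f x * conj (en (w j + iv m) x) *
          (Om A).indicator (fun _ => (1 : ℂ)) (x - iv (t j)) := by
      intro x
      simp only [map_mul, indicator]
      split_ifs <;> simp
    have h3 := h j m
    simp_rw [e] at h3
    rw [h2] at h3
    rw [← h3]
    congr 1
    funext u
    rw [Finset.sum_mul]
    refine Finset.sum_congr rfl fun n _ => ?_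
    rw [en_add_left, en_add_right (iv m), en_iv_iv, mul_one, map_mul, mul_assoc]
  have h2 : ∀ᵐ u ∂(volume : Measure (EuclideanSpace ℝ (Fin d))), u ∈ Q d →
      ∀ n, f (u + iv n) = 0 := by
    filter_upwards [ae_all_iff.2 h1] with u hu huQ
    refine hdisc (fun n => f (u + iv n)) fun j => ?_
    have h4 := hu j huQ
    have h5 : conj (en (w j) u) ≠ 0 := by
      rw [← norm_ne_zero_iff, Complex.norm_conj, norm_en]; exact one_ne_zero
    apply mul_left_cancel₀ h5
    rw [mul_zero, ← h4, Finset.mul_sum]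
    refine Finset.sum_congr rfl fun n _ => ?_
    rw [en_add_right, map_mul]; ring
  have h3 : ∀ n : Fin d → ℤ, ∀ᵐ x ∂(volume : Measure (EuclideanSpace ℝ (Fin d))),
      x - iv n ∈ Q d → ∀ m, f (x - iv n + iv m) = 0 := fun n =>
    (measurePreserving_sub_right volume (iv n)).quasiMeasurePreserving.ae h2
  filter_upwards [ae_all_iff.2 h3] with x hx
  have := hx (cell x) ((sub_mem_Q _ _).2 rfl) (cell x)
  rwa [sub_add_cancel] at this

end Pool.Agent.H703Z.Sp
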