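import Mathlib

set_option autoImplicit false
open MeasureTheory Real ComplexConjugate Set
open scoped ENNReal FourierTransform SchwartzMap

namespace Pool.Agent.H703Z.Sp

/-- Parseval for a complete orthogonal family of functions of equal norm. -/
lemma parseval {α ι : Type*} [MeasurableSpace α] (μ : Measure α) (φ : ι → α → ℂ) (c : ℝ)
    (hc : 0 < c) (hφ : ∀ i, MemLp (φ i) 2 μ)
    (h0 : ∀ i j, i ≠ j → ∫ x, φ i x * conj (φ j x) ∂μ = 0)
    (h1 : ∀ i, ∫ x, φ i x * conj (φ i x) ∂μ = c)
    (hcomp : ∀ f : α → ℂ, MemLp f 2 μ → (∀ i, ∫ x, f x * conj (φ i x) ∂μ = 0) → f =ᵐ[μ] 0)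
    (F : α → ℂ) (hF : MemLp F 2 μ) :
    HasSum (fun i => ‖∫ x, F x * conj (φ i x) ∂μ‖ ^ 2) (c * ∫ x, ‖F x‖ ^ 2 ∂μ) := by
  classical
  set s : ℝ := √c with hs
  have hs0 : 0 < s := Real.sqrt_pos.2 hc
  have hss : (s : ℂ) * s = c := by
    rw [← Complex.ofReal_mul, hs, Real.mul_self_sqrt hc.le]
  have hsne : (s : ℂ) ≠ 0 := by exact_mod_cast hs0.ne'
  let v : ι → Lp ℂ 2 μ := fun i => ((s : ℂ)⁻¹) • (hφ i).toLp (φ i)
  have hin : ∀ i (G : Lp ℂ 2 μ), inner ℂ (v i) G = (s : ℂ)⁻¹ * ∫ x, G x * conj (φ i x) ∂μ := by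
    intro i G
    simp only [v]
    rw [inner_smul_left, L2.inner_def]
    congr 1
    · simp
    · apply integral_congr_ae
      filter_upwards [(hφ i).coeFn_toLp] with x hx
      rw [hx]; simp
  have hin2 : ∀ i j, inner ℂ (v i) (v j) =
      (s : ℂ)⁻¹ * ((s : ℂ)⁻¹ * ∫ x, φ j x * conj (φ i x) ∂μ) := by
    intro i j
    rw [hin, ← integral_const_mul ((s : ℂ)⁻¹) (fun x => φ j x * conj (φ i x))]
    congr 1
    apply integral_congr_ae
    filter_upwards [(hφ j).coeFn_toLp, Lp.coeFn_smul ((s : ℂ)⁻¹) ((hφ j).toLp (φ j))] with x hx hy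
    simp only [v]
    rw [hy, Pi.smul_apply, hx, smul_eq_mul, mul_assoc]
  have hv : Orthonormal ℂ v := by
    rw [orthonormal_iff_ite]
    intro i j
    rw [hin2]
    split_ifs with h
    · subst h
      rw [h1, ← hss]; field_simp
    · rw [h0 j i (Ne.symm h)]; simp
  have hsp : (Submodule.span ℂ (Set.range v))ᗮ = ⊥ := by
    rw [eq_bot_iff]
    intro G hG
    rw [Submodule.mem_bot]
    have hG' : ∀ i, ∫ x, G x * conj (φ i x) ∂μ = 0 := by
      intro i
      have := (Submodule.mem_orthogonal _ G).1 hG (v i) (Submodule.subset_span ⟨i, rfl⟩)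
      rw [hin] at this
      exact (mul_eq_zero.1 this).resolve_left (inv_ne_zero hsne)
    have := hcomp G (Lp.memLp G) hG'
    exact Lp.eq_zero_iff_ae_eq_zero.2 this
  let b := HilbertBasis.mkOfOrthogonalEqBot hv hsp
  have hb : ⇑b = v := HilbertBasis.coe_mkOfOrthogonalEqBot hv hsp
  let G := hF.toLp F
  have h2 := b.hasSum_inner_mul_inner G G
  rw [hb] at h2
  have h3 : ∀ i, inner ℂ (v i) G = (s : ℂ)⁻¹ * ∫ x, F x * conj (φ i x) ∂μ := by
    intro i
    rw [hin]
    congr 1
    apply integral_congr_ae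
    filter_upwards [hF.coeFn_toLp] with x hx
    rw [hx]
  have h4 : inner ℂ G G = ((∫ x, ‖F x‖ ^ 2 ∂μ : ℝ) : ℂ) := by
    rw [L2.inner_def, ← integral_complex_ofReal]
    apply integral_congr_ae
    filter_upwards [hF.coeFn_toLp] with x hx
    rw [hx, inner_self_eq_norm_sq_to_K]; simp
  have h5 : ∀ i, inner ℂ G (v i) * inner ℂ (v i) G =
      ((c⁻¹ * ‖∫ x, F x * conj (φ i x) ∂μ‖ ^ 2 : ℝ) : ℂ) := by
    intro i
    rw [← inner_conj_symm, h3, Complex.conj_mul', norm_mul, norm_inv, Complex.norm_real,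
      Real.norm_eq_abs, abs_of_pos hs0]
    push_cast
    rw [← hss]; field_simp
  simp_rw [h5, h4] at h2
  have h6 := (Complex.hasSum_ofReal.1 h2).mul_left c
  simpa only [mul_inv_cancel_left₀ hc.ne'] using h6

variable {d : ℕ}

/-- the exponential used in the frozen statements -/
noncomputable def en (b x : EuclideanSpace ℝ (Fin d)) : ℂ :=
  Complex.exp (-2 * (Real.pi : ℂ) * Complex.I * ((inner ℝ x b : ℝ) : ℂ))

lemma norm_en (b x : EuclideanSpace ℝ (Fin d)) : ‖en b x‖ = 1 := by
  rw [en, Complex.norm_exp]; simp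

lemma cont_en (b : EuclideanSpace ℝ (Fin d)) : Continuous (en b) := by
  unfold en; fun_prop

lemma en_mul_conj (a b x : EuclideanSpace ℝ (Fin d)) : en a x * conj (en b x) = en (a - b) x := by
  rw [en, en, en, ← Complex.exp_conj, ← Complex.exp_add, inner_sub_right]
  congr 1
  simp only [map_mul, map_neg, Complex.conj_ofReal, Complex.conj_I, map_ofNat]
  push_cast; ring

lemma en_add_right (a x y : EuclideanSpace ℝ (Fin d)) : en a (x + y) = en a x * en a y := by
  rw [en, en, en, ← Complex.exp_add, inner_add_left]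
  congr 1
  push_cast; ring

lemma en_zero (x : EuclideanSpace ℝ (Fin d)) : en 0 x = 1 := by simp [en]

/-- A spectral set admits no large orthogonal packing region. -/
lemma packing (Ω : Set (EuclideanSpace ℝ (Fin d))) (hΩ : MeasurableSet Ω) (hfin : volume Ω < ⊤)
    (z : EuclideanSpace ℝ (Fin d)) (r : ℝ) (hr : 0 < r) (hball : Metric.ball z r ⊆ Ω)
    (B : Set (EuclideanSpace ℝ (Fin d)))
    (h0 : ∀ b ∈ B, ∀ b' ∈ B, b ≠ b' → ∫ x in Ω, en b x * conj (en b' x) = 0)
    (hcomp : ∀ f : EuclideanSpace ℝ (Fin d) → ℂ, MemLp f 2 (volume.restrict Ω) →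
      (∀ b ∈ B, ∫ x in Ω, f x * conj (en b x) = 0) → f =ᵐ[volume.restrict Ω] 0)
    (D : Set (EuclideanSpace ℝ (Fin d))) (hD : MeasurableSet D) (hD0 : 0 < volume D)
    (hDD : ∀ p ∈ D, ∀ q ∈ D, ∫ x in Ω, en (p - q) x ≠ 0) :
    volume Ω * volume D ≤ 1 := by
  have hpos : 0 < volume Ω :=
    lt_of_lt_of_le (Metric.measure_ball_pos volume z hr) (measure_mono hball)
  have : IsFiniteMeasure (volume.restrict Ω) := ⟨by simpa using hfin⟩
  set c : ℝ := (volume Ω).toReal with hc
  have hc0 : 0 < c := ENNReal.toReal_pos hpos.ne' hfin.ne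
  -- the test function
  let ψ : ContDiffBump z := ⟨r / 4, r / 2, by linarith, by linarith⟩
  let f0 : EuclideanSpace ℝ (Fin d) → ℂ := fun x => (ψ x : ℂ)
  have hf0c : HasCompactSupport f0 := ψ.hasCompactSupport.comp_left (g := fun t : ℝ => (t : ℂ)) (by simp)
  have hf0s : ContDiff ℝ ((⊤ : ℕ∞) : WithTop ℕ∞) f0 := Complex.ofRealCLM.contDiff.comp ψ.contDiff
  let f : 𝓢(EuclideanSpace ℝ (Fin d), ℂ) := hf0c.toSchwartzMap hf0s
  have hfsupp : ∀ x, x ∉ Ω → f x = 0 := by
    intro x hx
    have : ψ x = 0 := by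
      apply ψ.zero_of_le_dist
      by_contra h
      apply hx
      apply hball
      rw [Metric.mem_ball]
      have : ψ.rOut = r / 2 := rfl
      linarith [not_le.1 h]
    show (ψ x : ℂ) = 0
    rw [this]; simp
  set I : ℝ := ∫ x, ‖f x‖ ^ 2 with hI
  have hfi : Integrable (fun x => ‖f x‖ ^ 2) volume :=
    (f.memLp 2 volume).integrable_norm_pow (by norm_num)
  have hI0 : 0 < I := by
    rw [hI, integral_pos_iff_support_of_nonneg (fun x => by positivity) hfi]
    refine lt_of_lt_of_le (Metric.measure_ball_pos volume z (show 0 < r / 4 by linarith))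
      (measure_mono fun x hx => ?_)
    have : ψ x = 1 := ψ.one_of_mem_closedBall (Metric.ball_subset_closedBall hx)
    show ‖(ψ x : ℂ)‖ ^ 2 ≠ 0
    rw [this]; simp
  let H : EuclideanSpace ℝ (Fin d) → ℝ≥0∞ := fun η => ENNReal.ofReal (‖𝓕 f η‖ ^ 2)
  have hHm : Measurable H := ENNReal.measurable_ofReal.comp
    (((𝓕 f).continuous.norm.pow 2).measurable)
  have hH : ∫⁻ η, H η = ENNReal.ofReal I := by
    rw [hI, ← f.integral_norm_sq_fourier]
    exact (ofReal_integral_eq_lintegral_ofReal
      (((𝓕 f).memLp 2 volume).integrable_norm_pow (by norm_num))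
      (ae_of_all _ fun x => by positivity)).symm
  have hsum : ∀ ζ, ∑' b : B, H (ζ - b) = ENNReal.ofReal (c * I) := by
    intro ζ
    have hm : ∀ b : EuclideanSpace ℝ (Fin d), MemLp (en b) 2 (volume.restrict Ω) := fun b =>
      MemLp.of_bound (cont_en b).aestronglyMeasurable 1 (ae_of_all _ fun x => (norm_en b x).le)
    have hF : MemLp (fun x => f x * en ζ x) 2 (volume.restrict Ω) := by
      refine ((f.memLp 2 volume).restrict Ω).of_le
        ((f.continuous.mul (cont_en ζ)).aestronglyMeasurable) (ae_of_all _ fun x => ?_)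
      rw [norm_mul, norm_en, mul_one]
    have hp := parseval (volume.restrict Ω) (fun b : B => en (b : EuclideanSpace ℝ (Fin d))) c hc0
      (fun b => hm b) (fun i j hij => h0 i i.2 j j.2 (fun h => hij (Subtype.ext h)))
      (fun i => by
        simp only [en_mul_conj, sub_self, en_zero]
        simp [hc, Measure.real])
      (fun g hg h => hcomp g hg fun b hb => h ⟨b, hb⟩) _ hF
    have e1 : ∀ b : EuclideanSpace ℝ (Fin d),
        ∫ x in Ω, f x * en ζ x * conj (en b x) = 𝓕 f (ζ - b) := by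
      intro b
      rw [setIntegral_eq_integral_of_forall_compl_eq_zero (fun x hx => by simp [hfsupp x hx]),
        SchwartzMap.fourier_coe, Real.fourier_eq']
      congr 1
      funext x
      rw [mul_assoc, en_mul_conj, smul_eq_mul, mul_comm, en]
      congr 2
      push_cast; ring
    have e2 : ∫ x in Ω, ‖f x * en ζ x‖ ^ 2 = I := by
      rw [setIntegral_eq_integral_of_forall_compl_eq_zero (fun x hx => by simp [hfsupp x hx])]
      simp only [norm_mul, norm_en, mul_one]
      rfl
    simp only [e1, e2] at hp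
    rw [← hp.tsum_eq, ENNReal.ofReal_tsum_of_nonneg (fun _ => by positivity) hp.summable]
  let Db : B → Set (EuclideanSpace ℝ (Fin d)) := fun b => (fun η => η + b) ⁻¹' D
  have hDbm : ∀ b, MeasurableSet (Db b) := fun b => hD.preimage (by fun_prop)
  have hdisj : Pairwise (Function.onFun Disjoint Db) := by
    intro b b' hne
    rw [Function.onFun, Set.disjoint_left]
    intro η h1 h2
    apply hDD _ h1 _ h2
    have := h0 b b.2 b' b'.2 (fun h => hne (Subtype.ext h))
    simp only [en_mul_conj] at this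
    have e : η + b.1 - (η + b'.1) = b.1 - b'.1 := by abel
    rw [e, this]
  have hvol : ∀ b, volume (Db b) = volume D := fun b => measure_preimage_add_right _ _ _
  have hcount : Countable B := by
    have := Measure.countable_meas_pos_of_disjoint_iUnion (μ := volume) hDbm hdisj
    have h2 : {i : B | 0 < volume (Db i)} = univ := by
      ext i; simp [hvol, hD0]
    rw [h2] at this
    exact countable_univ_iff.1 this
  have key : ENNReal.ofReal (c * I) * volume D ≤ ENNReal.ofReal I := by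
    calc ENNReal.ofReal (c * I) * volume D = ∫⁻ ζ in D, ∑' b : B, H (ζ - b) := by
          simp only [hsum]; rw [setLIntegral_const]
      _ = ∑' b : B, ∫⁻ ζ in D, H (ζ - b) :=
          lintegral_tsum fun b => (hHm.comp (by fun_prop)).aemeasurable
      _ = ∑' b : B, ∫⁻ η in Db b, H η := by
          congr 1
          funext b
          have := (measurePreserving_add_right volume
            (b : EuclideanSpace ℝ (Fin d))).setLIntegral_comp_preimage_emb
            (measurableEmbedding_addRight _) (fun ζ => H (ζ - b)) D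
          rw [← this]
          simp [Db]
      _ = ∫⁻ η in ⋃ b, Db b, H η := (lintegral_iUnion hDbm hdisj _).symm
      _ ≤ ∫⁻ η, H η := setLIntegral_le_lintegral _ _
      _ = _ := hH
  rw [ENNReal.ofReal_mul hc0.le, hc, ENNReal.ofReal_toReal hfin.ne] at key
  have hI1 : ENNReal.ofReal I ≠ 0 := by simpa using hI0
  have : ENNReal.ofReal I * (volume Ω * volume D) ≤ ENNReal.ofReal I * 1 := by
    rw [mul_one]
    calc _ = volume Ω * ENNReal.ofReal I * volume D := by ring
      _ ≤ _ := key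
  exact (ENNReal.mul_le_mul_iff_right hI1 ENNReal.ofReal_ne_top).1 this

end Pool.Agent.H703Z.Sp
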